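import Pool.Agent.Lib.MP_9fc97b_ul.BbDef

/-!
# UL, row BB1
-/

set_option autoImplicit false
set_option linter.unusedSectionVars false

open Cardinal Set Order

namespace Pool.UL

/-- Row BB1. -/
lemma lt_bb (c : Cardinal.{0}) : c < bb c := by
  have hf : StrictMono (fun o : Ordinal.{0} => (ℶ_ o).ord) :=
    fun a b hab => ord_lt_ord.2 (beth_strictMono hab)
  have h1 : (succ c).ord ≤ (ℶ_ (succ c).ord).ord := hf.le_apply
  have h2 : succ c ≤ ℶ_ (succ c).ord := ord_le_ord.1 h1
  exact lt_of_lt_of_le (lt_succ c) h2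

/-- Row BB1: `ℶ_{c⁺}` is a strong limit cardinal. -/
lemma bb_strong {c : Cardinal.{0}} (hc : ℵ₀ ≤ c) : ∀ d < bb c, (2 : Cardinal.{0}) ^ d < bb c := by
  intro d hd
  have h1 : IsSuccLimit (succ c).ord := isSuccLimit_ord (hc.trans (le_succ c))
  have h2 : IsStrongLimit (bb c) := isStrongLimit_beth.2 h1.isSuccPrelimit
  exact h2.isStrongPrelimit hd

end Pool.UL
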