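import Pool.Agent.Lib.MP_9fc97b_ul.BB1

/-!
# UL, row BB2
-/

set_option autoImplicit false
set_option linter.unusedSectionVars false

open Cardinal Set Order

namespace Pool.UL

private lemma BB2_cof {c : Cardinal.{0}} (hc : ℵ₀ ≤ c) : (bb c).ord.cof = succ c := by
  have h1 : IsSuccLimit (succ c).ord := isSuccLimit_ord (hc.trans (le_succ c))
  have h2 : Order.IsNormal (fun o : Ordinal.{0} => (ℶ_ o).ord) := isNormal_ord.comp isNormal_beth
  have h3 := Ordinal.cof_map_of_isNormal h2 h1
  exact h3.trans (isRegular_succ hc).cof_ord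

private lemma BB2_strong {c : Cardinal.{0}} (hc : ℵ₀ ≤ c) : IsStrongLimit (bb c) :=
  isStrongLimit_beth.2 (isSuccLimit_ord (hc.trans (le_succ c))).isSuccPrelimit

/-- Row BB2: `ℶ_{c⁺} ^ c = ℶ_{c⁺}` (the cofinality of `ℶ_{c⁺}` is `c⁺`, so every function
`c → ℶ_{c⁺}` is bounded, by some `ℶ_α`, `α < c⁺`). -/
lemma bb_pow {c : Cardinal.{0}} (hc : ℵ₀ ≤ c) : bb c ^ c = bb c := by
  have hc1 : 1 ≤ c := (one_lt_aleph0.trans_le hc).le
  refine le_antisymm ?_ (self_le_power _ hc1)
  have hlim := BB2_strong hc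
  have hprod : #(c.out × (bb c).out) = bb c := by
    rw [mk_prod, lift_id, lift_id, mk_out, mk_out]
    exact mul_eq_right hlim.aleph0_le (lt_bb c).le (aleph0_pos.trans_le hc).ne'
  have h1 : #{s : Set (c.out × (bb c).out) // #s < (#(c.out × (bb c).out)).ord.cof} = bb c := by
    rw [mk_subset_mk_lt_cof (by rw [hprod]; exact hlim.isStrongPrelimit), hprod]
  have h0 : bb c ^ c = #(c.out → (bb c).out) := by
    rw [← power_def, mk_out, mk_out]
  rw [h0]
  refine le_of_le_of_eq ?_ h1
  refine mk_le_of_injective (f := fun g : c.out → (bb c).out =>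
    ⟨range fun i => (i, g i), ?_⟩) ?_
  · rw [hprod, BB2_cof hc]
    exact (mk_range_le.trans (mk_out c).le).trans_lt (lt_succ c)
  · intro g1 g2 hg
    have hg' : (range fun i => (i, g1 i)) = range fun i => (i, g2 i) := congrArg Subtype.val hg
    funext i
    have h2 : (i, g1 i) ∈ range fun i => (i, g2 i) := by
      rw [← hg']
      exact ⟨i, rfl⟩
    obtain ⟨k, hk⟩ := h2
    have h3 : k = i := congrArg Prod.fst hk
    have h4 : g2 k = g1 i := congrArg Prod.snd hk
    rw [← h4, h3]

end Pool.UL
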