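import Pool.Agent.Lib.MP_9fc97b_ul.BB1

/-!
# UL, row BB3
-/

set_option autoImplicit false
set_option linter.unusedSectionVars false

open Cardinal Set Order

namespace Pool.UL

lemma BB3_cof {c θ : Cardinal.{0}} (hc : ℵ₀ ≤ c) (h1 : c < θ) (h3 : θ ^ c ≤ θ) :
    c < θ.ord.cof := by
  by_contra h
  rw [not_lt] at h
  have h4 : θ < θ ^ θ.ord.cof := lt_power_cof_ord (hc.trans h1.le)
  have hθ0 : θ ≠ 0 := (aleph0_pos.trans_le (hc.trans h1.le)).ne'
  have h5 : θ ^ θ.ord.cof ≤ θ ^ c := power_le_power_left hθ0 h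
  exact absurd (h4.trans_le (h5.trans h3)) (lt_irrefl _)

lemma BB3_beth {c θ : Cardinal.{0}} (hc : ℵ₀ ≤ c) (h1 : c < θ)
    (h2 : ∀ d < θ, (2 : Cardinal.{0}) ^ d < θ) (h3 : θ ^ c ≤ θ) (α : Ordinal.{0})
    (hα : α < (succ c).ord) : ℶ_ α < θ := by
  induction α using Ordinal.limitRecOn with
  | zero =>
    rw [beth_zero]
    exact hc.trans_lt h1
  | add_one β ih =>
    rw [beth_add_one]
    exact h2 _ (ih ((lt_add_one β).trans hα))
  | limit β hβ ih =>
    rw [beth_limit hβ]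
    apply lift_iSup_lt_of_lt_cof_ord
    · have h4 : β.card ≤ c := by
        rw [Cardinal.lt_ord] at hα
        exact Order.lt_succ_iff.1 hα
      have h5 : β.card < θ.ord.cof := h4.trans_lt (BB3_cof hc h1 h3)
      have h6 := Cardinal.lift_lt.{0, 1}.2 h5
      simpa [Cardinal.mk_Iio_ordinal, ← Cardinal.lift_ord] using h6
    · rintro ⟨γ, hγ⟩
      exact ih γ hγ (lt_trans hγ hα)

/-- Row BB3: minimality.  By König the cofinality of `θ` is `> c`; show `ℶ_α < θ` for all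
`α < c⁺` by induction. -/
lemma bb_least {c θ : Cardinal.{0}} (hc : ℵ₀ ≤ c) (h1 : c < θ)
    (h2 : ∀ d < θ, (2 : Cardinal.{0}) ^ d < θ) (h3 : θ ^ c ≤ θ) : bb c ≤ θ := by
  have hlim : IsSuccLimit (succ c).ord :=
    Cardinal.isSuccLimit_ord (hc.trans (Order.le_succ c))
  unfold bb
  rw [beth_limit hlim]
  apply ciSup_le'
  rintro ⟨γ, hγ⟩
  exact (BB3_beth hc h1 h2 h3 γ hγ).le

end Pool.UL
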