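import Pool.Agent.Lib.MP_9fc97b_ul.BB1

/-!
# UL, row BB4
-/

set_option autoImplicit false
set_option linter.unusedSectionVars false

open Cardinal Set Order

namespace Pool.UL

/-- Row BB4. -/
lemma bb_lt_inacc {c κ : Cardinal.{0}} (hκ : κ.IsInaccessible) (hc : c < κ) : bb c < κ := by
  have h1 : succ c < κ := hκ.isSuccLimit.succ_lt hc
  have h2 : ℶ_ (succ c).ord < ℶ_ κ.ord := beth_lt_beth.2 (ord_lt_ord.2 h1)
  rw [hκ.beth_ord] at h2
  exact h2

end Pool.UL
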