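import Pool.Agent.Lib.MP_9fc97b_ul.BB1

/-!
# UL, row BB5
-/

set_option autoImplicit false
set_option linter.unusedSectionVars false

open Cardinal Set Order

namespace Pool.UL

/-- Row BB5: `ℶ_{c⁺}` is singular: a cofinal function from `c⁺`. -/
lemma bb_cofinal {c : Cardinal.{0}} (hc : ℵ₀ ≤ c) : succ c < bb c ∧
    ∃ f : Ordinal.{0} → Ordinal.{0}, (∀ α < (succ c).ord, f α < (bb c).ord) ∧
      ∀ β < (bb c).ord, ∃ α < (succ c).ord, β ≤ f α := by
  refine ⟨?_, fun α => (ℶ_ α).ord, ?_, ?_⟩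
  · have h1 : succ c ≤ (2 : Cardinal.{0}) ^ c := Order.succ_le_of_lt (cantor c)
    exact h1.trans_lt (bb_strong hc c (lt_bb c))
  · intro α hα
    dsimp only
    rw [Cardinal.ord_lt_ord]
    exact beth_strictMono hα
  · intro β hβ
    have hlim : IsSuccLimit (succ c).ord :=
      Cardinal.isSuccLimit_ord (hc.trans (Order.le_succ c))
    rw [Cardinal.lt_ord] at hβ
    unfold bb at hβ
    rw [beth_limit hlim] at hβ
    obtain ⟨⟨γ, hγ⟩, hγ'⟩ := exists_lt_of_lt_ciSup' hβ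
    refine ⟨γ, hγ, ?_⟩
    exact (Cardinal.lt_ord.2 hγ').le

end Pool.UL
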