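import Mathlib

/-!
# UL, rows BB: the cardinal `ℶ_{c⁺}`
-/

set_option autoImplicit false

open Cardinal Set Order

namespace Pool.UL

/-- The cardinal `ℶ_{c⁺}`. -/
noncomputable def bb (c : Cardinal.{0}) : Cardinal.{0} := ℶ_ (succ c).ord

end Pool.UL
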