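import Pool.Agent.Lib.MP_9fc97b_ul.CodeDef

/-!
# UL, row CA1
-/

set_option autoImplicit false
set_option linter.unusedSectionVars false

open Cardinal Set Order

namespace Pool.UL

variable {Ω : Type} [LinearOrder Ω] [WellFoundedLT Ω] {X Θ : Type} [D : PE Ω X Θ]

/-- Row CA1. -/
lemma Tz.mono {z : Set (List (PO Ω) × Ω)} {k : ℕ} {q q' : Cond Ω X Θ} {a : Ω} (h : q' ≤ q)
    (hT : Tz z k q a) : Tz z k q' a := by
  obtain ⟨hk, r, hr, hs⟩ := hT
  refine ⟨hk.trans_le (Cond.len_le h), r, hr, ?_⟩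
  have h1 := V2_fa_rt (V2_ext_r h) (k + 1)
  rw [V2_rt_rt (by omega : k + 1 ≤ q.len)] at h1
  exact V2_fs_trans hs h1

/-- Row CA1: the number of codes. -/
lemma mk_SCode_le (m : Ω) (s : List Ω) : #(SCode X Θ (m :: s)) ≤ 2 ^ th X Θ m := by
  have hE : #{p : List (PO Ω) × Ω | LowV X Θ (m :: s) p.1 ∧ p.2 < PE.T X Θ m} ≤ th X Θ m := by
    by_cases hm : m ∈ D.W
    · have hinf : ℵ₀ ≤ th X Θ m := (aleph0_lt_th hm).le
      have h1 : #({r : List (PO Ω) | LowV X Θ (m :: s) r} × Iio (PE.T X Θ m)) ≤ th X Θ m := by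
        rw [mk_prod, lift_id, lift_id]
        exact mul_le_of_le hinf (mk_low_le (X := X) (Θ := Θ)) (mk_Iio_T m).le
      refine le_trans (mk_le_of_injective (f := fun p :
        {p : List (PO Ω) × Ω | LowV X Θ (m :: s) p.1 ∧ p.2 < PE.T X Θ m} =>
          ((⟨p.1.1, p.2.1⟩, ⟨p.1.2, p.2.2⟩) :
            {r : List (PO Ω) | LowV X Θ (m :: s) r} × Iio (PE.T X Θ m))) ?_) h1
      intro p p' h
      have h2 : p.1.1 = p'.1.1 := congrArg (fun w => w.1.1) h
      have h3 : p.1.2 = p'.1.2 := congrArg (fun w => w.2.1) h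
      exact Subtype.ext (Prod.ext h2 h3)
    · have h0 : {p : List (PO Ω) × Ω | LowV X Θ (m :: s) p.1 ∧ p.2 < PE.T X Θ m} = ∅ := by
        ext p
        constructor
        · rintro ⟨h, -⟩
          exact absurd h.mem_W hm
        · intro h
          exact h.elim
      rw [h0, mk_eq_zero]
      exact zero_le
  refine le_trans ?_ (power_le_power_left two_ne_zero hE)
  rw [← mk_powerset]
  refine mk_le_mk_of_subset ?_
  intro z hz p hp
  obtain ⟨h1, h2⟩ := hz p.1 p.2 hp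
  exact ⟨h1, h2 m rfl⟩

end Pool.UL
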