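import Pool.Agent.Lib.MP_9fc97b_ul.CA1

/-!
# UL, row CA2
-/

set_option autoImplicit false
set_option linter.unusedSectionVars false

open Cardinal Set Order

namespace Pool.UL

variable {Ω : Type} [LinearOrder Ω] [WellFoundedLT Ω] {X Θ : Type} [D : PE Ω X Θ]

/-- Row CA2: subsets of `T (pt k)` are coded (from `meet_low`, `A = Iio (T m)`; the code is the set
of the `(r, a)` with `Pos (R a)` at `V2rep q (k + 1) r`). -/
theorem code_small {R : Cond Ω X Θ → Ω → Prop} (hR : ∀ a, Mono (fun q => R q a))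
    (p : Cond Ω X Θ) {k : ℕ} (hk : k < p.len) :
    ∃ q : Cond Ω X Θ, q.Dle p ∧ ∃ z ∈ SCode X Θ (stem p k), ∀ a < PE.T X Θ (p.pt k), ∀ q' ≤ q,
      (Tz z k q' a → ∃ q'' ≤ q', R q'' a) ∧ (R q' a → ∃ q'' ≤ q', Tz z k q'' a) := by
  obtain ⟨t₁, t₀, r₁, r₀, e1, e2, e3, e4, e5, e6, e7, e8, e9, e10⟩ := p.exists_split hk
  obtain ⟨q, hqp, hq⟩ := meet_low (A := Iio (PE.T X Θ (p.pt k))) (m := p.pt k) (t₁ := t₁)
    (t₀ := t₀) (mk_Iio_T _).le e1 (R := fun a q => R q a.1) (fun a => hR a.1)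
  have hstem : stem p k = p.pt k :: t₀ := by
    unfold stem
    rw [e1]
    exact (V2_rd_append (l₁ := t₁) (l₂ := p.pt k :: t₀) (by simp [e3])).2
  refine ⟨q, hqp, {w | LowV X Θ (p.pt k :: t₀) w.1 ∧ w.2 < PE.T X Θ (p.pt k) ∧
    ∃ h' : LowV X Θ (q.m :: q.s) (q.r.rdrop (t₀.length + 1) ++ w.1),
      Pos (fun q => R q w.2) (V2rep q (t₀.length + 1) w.1 h')}, ?_, ?_⟩
  · rw [hstem]
    rintro r a ⟨h1, h2, -⟩
    refine ⟨h1, ?_⟩
    intro m hm
    simp only [List.head?_cons, Option.mem_def, Option.some.injEq] at hm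
    rw [← hm]
    exact h2
  · intro a ha q' hq'
    have hqlen : q.len = p.len := hqp.len
    have hqt : q.t = t₁ ++ p.pt k :: t₀ := by
      rw [← e1]
      exact Cond.RA_dle_t hqp
    have hr₁ : List.Forall₂ Sub q.r (q'.r.rtake q.len) := V2_ext_r hq'
    have hlow₁ : LowV X Θ q.t (q'.r.rtake q.len) := V3_rtake hq'
    refine ⟨?_, ?_⟩
    · rintro ⟨-, r, ⟨h1, h2, h', hpos⟩, hsub⟩
      have hkq : k + 1 ≤ q.len := by omega
      -- the condition `q` with the lower part of `q'`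
      obtain ⟨q₂, h3, h4⟩ := Cond.exists_common (p := q) hlow₁ hr₁ hq' (V2_fs_refl _)
      have h5 : q₂ ≤ V2rep q (t₀.length + 1) r h' := by
        refine h4.trans (Cond.Dle.le ⟨rfl, rfl, ?_, Up.Le.refl _ _⟩)
        change List.Forall₂ Sub (q.r.rdrop (t₀.length + 1) ++ r) (q'.r.rtake q.len)
        rw [← V2_rd (q'.r.rtake q.len) (t₀.length + 1)]
        refine V2_fa_app (V2_fa_rd hr₁ _) ?_
        rw [V2_rt_rt (by omega : t₀.length + 1 ≤ q.len), e3]
        exact hsub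
      obtain ⟨q₃, h6, h7⟩ := hpos q₂ h5
      exact ⟨q₃, h6.trans h3, h7⟩
    · intro hRa
      obtain ⟨r', h1, h2, h3, h4, q₂, h5, h6⟩ := hq ⟨a, ha⟩ q' hq'
      have h7 : Pos (fun q => R q a) (V2rep q (t₀.length + 1) r' h3) :=
        h4.pos h6 (hR a _ _ h5 hRa)
      refine ⟨q₂, h5, ?_, r', ⟨h2, ha, h3, h7⟩, ?_⟩
      · have h8 := Cond.len_le (h5.trans hq')
        omega
      · have h8 := V2_fa_rt (V2_ext_r h6) (k + 1)
        have h9 : (V2rep q (t₀.length + 1) r' h3).len = q.len := rfl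
        rw [h9, V2_rt_rt (by omega : k + 1 ≤ q.len)] at h8
        have h10 : (V2rep q (t₀.length + 1) r' h3).r.rtake (k + 1) = r' := by
          have h11 := (V2_rd_append (l₁ := q.r.rdrop (t₀.length + 1)) (l₂ := r') (n := k + 1) (by
            rw [V2_len _ h2, List.length_cons, e3])).2
          exact h11
        rwa [h10] at h8

end Pool.UL
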