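import Pool.Agent.Lib.MP_9fc97b_ul.CodeDef

/-!
# UL, row CB1
-/

set_option autoImplicit false
set_option linter.unusedSectionVars false

open Cardinal Set Order

namespace Pool.UL

variable {Ω : Type} [LinearOrder Ω] [WellFoundedLT Ω] {X Θ : Type} [D : PE Ω X Θ]

lemma CB1_dir {z : BCode Ω Θ} {p p' : Cond Ω X Θ} {a : Ω} (h : p'.Dle p) (hT : Tb z p a) :
    Tb z p' a := by
  obtain ⟨j, t, val, r, h1, h2, h3, h4⟩ := hT
  refine ⟨j, t, val, r, h1, ?_, ?_, ?_⟩
  · have h5 : p'.t = p.t := by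
      unfold Cond.t
      rw [h.m, h.s]
    rw [h5]
    exact h2
  · intro i s his
    obtain ⟨ρ, σ, h5, h6⟩ := h3 i s his
    obtain ⟨ρ', h7, -⟩ := h.u.f s ρ σ h5
    exact ⟨ρ', σ, h7, h6⟩
  · exact V2_fs_trans h4 (V2_fa_rt h.r _)

lemma CB1_step {z : BCode Ω Θ} {p : Cond Ω X Θ} {a : Ω} (x : X) (hx : p.u.OK p.m x)
    (hT : Tb z p a) : Tb z (p.step x hx) a := by
  obtain ⟨j, t, val, r, h1, h2, h3, h4⟩ := hT
  have hlen : t.length ≤ p.len := h2.length_le
  refine ⟨j, t, val, r, h1, ?_, ?_, ?_⟩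
  · exact h2.trans (List.suffix_cons _ _)
  · intro i s his
    obtain ⟨ρ, σ, h5, h6⟩ := h3 i s his
    refine ⟨ρ, updf p.len x s ρ σ, ?_, ?_⟩
    · change stepf p.len p.u.f x s = _
      unfold stepf
      rw [h5]
    · intro k hk
      rw [← h6 k hk]
      unfold updf
      split_ifs
      · rw [Function.update_of_ne (by omega)]
      · rfl
  · have h5 : (p.step x hx).r.rtake t.length = p.r.rtake t.length := by
      change (tr x p.u.c :: p.r).rtake t.length = _
      have h6 : (tr x p.u.c :: p.r).rtake p.len = p.r :=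
        (V2_rd_append (l₁ := [tr x p.u.c]) (V2_len _ p.low)).2
      rw [← V2_rt_rt hlen, h6]
    rw [h5]
    exact h4

/-- Row CB1. -/
lemma Tb.mono {z : BCode Ω Θ} {q q' : Cond Ω X Θ} {a : Ω} (h : q' ≤ q) (hT : Tb z q a) :
    Tb z q' a := by
  have h0 : Cond.Ext q' q := h
  clear h
  induction h0 with
  | dir h1 => exact CB1_dir h1 hT
  | step x hx _ ih => exact ih (CB1_step x hx hT)

end Pool.UL
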