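import Pool.Agent.Lib.MP_9fc97b_ul.CodeDef

/-!
# UL, row CB2
-/

set_option autoImplicit false
set_option linter.unusedSectionVars false

open Cardinal Set Order

namespace Pool.UL

variable {Ω : Type} [LinearOrder Ω] [WellFoundedLT Ω] {X Θ : Type} [D : PE Ω X Θ]

include D in
private lemma CB2_aleph0_le : ℵ₀ ≤ #Θ := D.κ_inacc.aleph0_lt.le.trans D.κ_lt.le

include D in
private lemma CB2_fun {A B : Type} (hA : #A ≤ D.κ) (hB : #B ≤ #Θ) : #(A → B) ≤ #Θ := by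
  rw [← power_def]
  have h0 : #Θ ≠ 0 := (aleph0_pos.trans_le (CB2_aleph0_le (D := D))).ne'
  calc #B ^ #A ≤ #Θ ^ #A := power_le_power_right hB
    _ ≤ #Θ ^ D.κ := power_le_power_left h0 hA
    _ = #Θ := D.mk_S_pow

include D in
private lemma CB2_prod {A B : Type} (hA : #A ≤ #Θ) (hB : #B ≤ #Θ) : #(A × B) ≤ #Θ := by
  rw [mk_prod, lift_id, lift_id]
  exact mul_le_of_le (CB2_aleph0_le (D := D)) hA hB

include D in
private lemma CB2_option {A : Type} (hA : #A ≤ #Θ) : #(Option A) ≤ #Θ := by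
  rw [mk_option]
  exact add_le_of_le (CB2_aleph0_le (D := D)) hA
    (one_le_aleph0.trans (CB2_aleph0_le (D := D)))

include D in
private lemma CB2_list {A : Type} (hA : #A ≤ #Θ) : #(List A) ≤ #Θ :=
  (mk_list_le_max A).trans (max_le (CB2_aleph0_le (D := D)) hA)

include D in
/-- Row CB2: the number of codes. -/
lemma mk_BCode_le : #(BCode Ω Θ) ≤ #Θ := by
  have hΩ : #Ω ≤ #Θ := by
    rw [D.mk_Ω]
    exact D.κ_lt.le
  have hΩκ : #Ω ≤ D.κ := D.mk_Ω.le
  have hℕ : #ℕ ≤ D.κ := by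
    rw [mk_nat]
    exact D.κ_inacc.aleph0_lt.le
  have h2 : #(Ω × Ω) ≤ D.κ := by
    rw [mk_prod, lift_id, D.mk_Ω]
    exact (mul_eq_self D.κ_inacc.aleph0_lt.le).le
  have hB : #Bool ≤ #Θ := by
    rw [mk_bool]
    exact (natCast_lt_aleph0 (n := 2)).le.trans (CB2_aleph0_le (D := D))
  have hPO : #(PO Ω) ≤ #Θ := CB2_fun (D := D) h2 (CB2_option (D := D) hB)
  refine CB2_prod (D := D) (CB2_fun (D := D) hΩκ (CB2_option (D := D) le_rfl)) ?_
  refine CB2_fun (D := D) hΩκ (CB2_option (D := D) ?_)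
  refine CB2_prod (D := D) (CB2_list (D := D) hΩ) (CB2_prod (D := D) ?_
    (CB2_prod (D := D) (CB2_list (D := D) hPO) hΩ))
  exact CB2_fun (D := D) hΩκ (CB2_fun (D := D) hℕ (CB2_option (D := D) hΩ))

end Pool.UL
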