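import Pool.Agent.Lib.MP_9fc97b_ul.CodeDef

/-!
# UL, row CB3
-/

set_option autoImplicit false
set_option linter.unusedSectionVars false

open Cardinal Set Order

namespace Pool.UL

variable {Ω : Type} [LinearOrder Ω] [WellFoundedLT Ω] {X Θ : Type} [D : PE Ω X Θ]

/-- Row CB3, general form: the relation may depend on the number of points. -/
theorem CB3_gen (R : ℕ → Cond Ω X Θ → Ω → Prop) (hR : ∀ n a, Mono (fun q => R n q a))
    (p : Cond Ω X Θ) :
    ∃ (u : Up Ω X Θ) (hu : u.V p.m), u.Le p.m p.u ∧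
      ∀ q₀, (p.withU u hu).Reach q₀ → ∀ a < PE.T X Θ q₀.m, ∀ r : List (PO Ω),
        LowV X Θ (q₀.m :: q₀.s) r → ∃ (r' : List (PO Ω)) (hr' : LowV X Θ (q₀.m :: q₀.s) r'),
          List.Forall₂ Sub r r' ∧
          Dcd (fun q => R q₀.len q a) (⟨q₀.m, q₀.s, r', q₀.u, hr', q₀.up⟩ : Cond Ω X Θ) := by
  obtain ⟨u, hu, hle, h⟩ := multi (Ω := Ω) (X := X) (Θ := Θ)
    (fun m s => {v | ∀ hv : v.V m, ∀ a < PE.T X Θ m, ∀ r : List (PO Ω),
      LowV X Θ (m :: s) r → ∃ (r' : List (PO Ω)) (hr' : LowV X Θ (m :: s) r'),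
        List.Forall₂ Sub r r' ∧
        Dcd (fun q => R (m :: s).length q a) (⟨m, s, r', v, hr', hv⟩ : Cond Ω X Θ)})
    (by
      intro m s v v' hm hv hv' hle hmem hv'' a ha r hr
      obtain ⟨r', hr', h1, h2⟩ := hmem hv a ha r hr
      refine ⟨r', hr', h1, h2.mono (Cond.Dle.le ⟨rfl, rfl, ?_, hle⟩)⟩
      exact List.forall₂_same.2 fun c _ => Sub.refl c)
    (by
      intro m s v hl hv
      obtain ⟨w, hw, hle, h⟩ := V3_meet (A := Iio (PE.T X Θ m))
        (⟨m, s, Cond.triv Ω (m :: s).length, v, hl, hv⟩ : Cond Ω X Θ) le_rfl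
        (fun a => {q | Dcd (fun q' => R (m :: s).length q' a.1) q})
        (fun a q q' hq hd => hd.mono hq.le)
        (fun a q => by
          obtain ⟨q', h1, h2⟩ := decide_dle (hR (m :: s).length a.1) q
          exact ⟨q', h1, h2⟩)
      refine ⟨w, hw, hle, fun hv' a ha r hr => ?_⟩
      have hq : (⟨m, s, r, w, hr, hw⟩ : Cond Ω X Θ) ≤
          (Cond.withU (⟨m, s, Cond.triv Ω (m :: s).length, v, hl, hv⟩ : Cond Ω X Θ) w hw).erase :=
        (Cond.dle_erase (⟨m, s, r, w, hr, hw⟩ : Cond Ω X Θ)).le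
      obtain ⟨r', hr', h1, h2, -⟩ := h ⟨a, ha⟩ _ hq
      refine ⟨r', hr', ?_, h2⟩
      have h3 : List.rtake r (m :: s).length = r := by
        unfold List.rtake
        rw [V3_length hr, Nat.sub_self, List.drop_zero]
      change List.Forall₂ Sub (List.rtake r (m :: s).length) r' at h1
      rwa [h3] at h1)
    p
  exact ⟨u, hu, hle, fun q₀ hq₀ a ha r hr => h q₀ hq₀ q₀.up a ha r hr⟩

/-- Row CB3: fusion, as `lc_fusion` (from `multi` and `V3_meet`). -/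
theorem cb_fusion (R : Cond Ω X Θ → Ω → Prop) (hR : ∀ a, Mono (fun q => R q a))
    (p : Cond Ω X Θ) :
    ∃ (u : Up Ω X Θ) (hu : u.V p.m), u.Le p.m p.u ∧
      ∀ q₀, (p.withU u hu).Reach q₀ → ∀ a < PE.T X Θ q₀.m, ∀ r : List (PO Ω),
        LowV X Θ (q₀.m :: q₀.s) r → ∃ (r' : List (PO Ω)) (hr' : LowV X Θ (q₀.m :: q₀.s) r'),
          List.Forall₂ Sub r r' ∧
          Dcd (fun q => R q a) (⟨q₀.m, q₀.s, r', q₀.u, hr', q₀.up⟩ : Cond Ω X Θ) :=
  CB3_gen (fun _ q a => R q a) (fun _ a => hR a) p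

end Pool.UL
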