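import Pool.Agent.Lib.MP_9fc97b_ul.CodeDef

/-!
# UL, row CB4
-/

set_option autoImplicit false
set_option linter.unusedSectionVars false

open Cardinal Set Order

namespace Pool.UL

variable {Ω : Type} [LinearOrder Ω] [WellFoundedLT Ω] {X Θ : Type} [D : PE Ω X Θ]

private lemma CB4_updf {n k : ℕ} (hk : k ≠ n) (x : X) (s : Θ) (ρ : Ω) (σ : ℕ → Option Ω) :
    updf n x s ρ σ k = σ k := by
  unfold updf
  split_ifs
  · exact Function.update_of_ne hk _ _
  · rfl

private lemma CB4_inv {q₁ q₀ : Cond Ω X Θ} (h : q₁.Reach q₀) :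
    q₀.u.A = q₁.u.A ∧ q₀.u.F = q₁.u.F ∧ (q₀ = q₁ ∨ q₀.u.c = q₁.u.F q₀.m) ∧
      (∀ s, q₁.u.f s = none → q₀.u.f s = none) ∧
      ∀ s ρ σ, q₁.u.f s = some (ρ, σ) → ∃ σ', q₀.u.f s = some (ρ, σ') ∧
        ∀ k, q₀.len ≤ k → σ' k = σ k := by
  induction h with
  | refl => exact ⟨rfl, rfl, Or.inl rfl, fun s h => h, fun s ρ σ h => ⟨σ, h, fun _ _ => rfl⟩⟩
  | step q x hx _ ih =>
    obtain ⟨h1, h2, -, h4, h5⟩ := ih
    refine ⟨h1, h2, Or.inr ?_, ?_, ?_⟩
    · change q.u.F (D.kx x) = q₁.u.F (D.kx x)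
      rw [h2]
    · intro s hs
      change stepf q.len q.u.f x s = none
      simp only [stepf, h4 s hs]
    · intro s ρ σ hs
      obtain ⟨σ', e1, e2⟩ := h5 s ρ σ hs
      refine ⟨updf q.len x s ρ σ', stepf_some e1, fun k hk => ?_⟩
      rw [Cond.RA_len_step] at hk
      rw [CB4_updf (by omega)]
      exact e2 k (by omega)

/-- Row CB4: two reachable conditions with the same stem and the same values of the coordinates at
the indices below the number of points have the same upper part. -/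
theorem reach_u_eq {q₁ q₀ q₀' : Cond Ω X Θ} (h : q₁.Reach q₀) (h' : q₁.Reach q₀')
    (ht : q₀.t = q₀'.t)
    (hf : ∀ s ρ σ ρ' σ', q₀.u.f s = some (ρ, σ) → q₀'.u.f s = some (ρ', σ') →
      ∀ k < q₀.len, σ k = σ' k) : q₀.u = q₀'.u := by
  have hlen : q₀.len = q₀'.len := congrArg List.length ht
  have hm : q₀.m = q₀'.m := by
    unfold Cond.t at ht
    exact (List.cons.inj ht).1
  obtain ⟨a1, a2, a3, a4, a5⟩ := CB4_inv h
  obtain ⟨b1, b2, b3, b4, b5⟩ := CB4_inv h'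
  by_cases hl : q₀.len = q₁.len
  · rw [Cond.RA_eq_of_len h hl, Cond.RA_eq_of_len h' (hlen ▸ hl)]
  · have a6 : q₀.u.c = q₁.u.F q₀.m := by
      rcases a3 with a3 | a3
      · exact absurd (congrArg Cond.len a3) hl
      · exact a3
    have b6 : q₀'.u.c = q₁.u.F q₀'.m := by
      rcases b3 with b3 | b3
      · exact absurd (hlen.trans (congrArg Cond.len b3)) hl
      · exact b3
    refine Up.ext ?_ ?_ ?_ ?_
    · rw [a6, b6, hm]
    · funext s
      cases e : q₁.u.f s with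
      | none => rw [a4 s e, b4 s e]
      | some v =>
        obtain ⟨ρ, σ⟩ := v
        obtain ⟨σ', c1, c2⟩ := a5 s ρ σ e
        obtain ⟨σ'', d1, d2⟩ := b5 s ρ σ e
        rw [c1, d1]
        have h3 : σ' = σ'' := by
          funext k
          rcases Nat.lt_or_ge k q₀.len with hk | hk
          · exact hf s ρ σ' ρ σ'' c1 d1 k hk
          · rw [c2 k hk, d2 k (hlen ▸ hk)]
        rw [h3]
    · rw [a1, b1]
    · rw [a2, b2]

/-- Row CB4: later steps do not change the values of the coordinates at the old indices. -/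
theorem f_of_le {q q' : Cond Ω X Θ} (h : q' ≤ q) {s : Θ} {ρ : Ω} {σ : ℕ → Option Ω}
    (hs : q.u.f s = some (ρ, σ)) :
    ∃ ρ' σ', q'.u.f s = some (ρ', σ') ∧ ∀ k < q.len, σ' k = σ k := by
  rw [Cond.le_def] at h
  induction h generalizing ρ σ with
  | dir h1 =>
    obtain ⟨ρ', h2, -⟩ := h1.u.f s ρ σ hs
    exact ⟨ρ', σ, h2, fun _ _ => rfl⟩
  | @step q x hx h1 ih =>
    have h2 : (q.step x hx).u.f s = some (ρ, updf q.len x s ρ σ) := stepf_some hs
    obtain ⟨ρ', σ', e1, e2⟩ := ih h2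
    refine ⟨ρ', σ', e1, fun k hk => ?_⟩
    rw [e2 k (by rw [Cond.RA_len_step]; omega), CB4_updf (by omega)]

/-- Row CB4: the domain of `f` has size `≤ κ`. -/
theorem mk_dom_f_le (q : Cond Ω X Θ) : #{s | q.u.f s ≠ none} ≤ D.κ := by
  have h1 : {s | q.u.f s ≠ none} ⊆ ⋃ m' : {m' : Ω // m' ∈ D.W ∧ q.m < m'},
      {s | ∃ ρ σ, q.u.f s = some (ρ, σ) ∧ ρ < m'.1} := by
    intro s hs
    obtain ⟨⟨ρ, σ⟩, h2⟩ := Option.ne_none_iff_exists'.1 hs
    obtain ⟨m', h3, h4⟩ := exists_mem_W (D := D) (max ρ q.m)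
    exact mem_iUnion.2 ⟨⟨m', h3, (le_max_right _ _).trans_lt h4⟩, ρ, σ, h2,
      (le_max_left _ _).trans_lt h4⟩
  refine (mk_le_mk_of_subset h1).trans ?_
  refine mk_iUnion_le D.κ_inacc.aleph0_lt.le ((mk_subtype_le _).trans D.mk_Ω.le) _ fun m' => ?_
  exact (q.up.fs m'.1 m'.2.1 m'.2.2).trans (D.crd_lt _).le

end Pool.UL
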