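import Pool.Agent.Lib.MP_9fc97b_ul.CB1
import Pool.Agent.Lib.MP_9fc97b_ul.CB3
import Pool.Agent.Lib.MP_9fc97b_ul.CB4

/-!
# UL, row CB5
-/

set_option autoImplicit false
set_option linter.unusedSectionVars false

open Cardinal Set Order

namespace Pool.UL

variable {Ω : Type} [LinearOrder Ω] [WellFoundedLT Ω] {X Θ : Type} [D : PE Ω X Θ]

/-- Enumeration of a set by a type of at least the same size. -/
private lemma CB5_enum {I Y : Type} (E : Set Y) (h : #E ≤ #I) :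
    ∃ e : I → Option Y, (∀ i y, e i = some y → y ∈ E) ∧ ∀ y ∈ E, ∃ i, e i = some y := by
  classical
  obtain ⟨f⟩ := (Cardinal.le_def _ _).1 h
  refine ⟨fun i => if hi : ∃ y : E, f y = i then some (hi.choose : E).1 else none, ?_, ?_⟩
  · intro i y hy
    by_cases hi : ∃ y : E, f y = i
    · simp only [dif_pos hi, Option.some.injEq] at hy
      rw [← hy]
      exact (hi.choose : E).2
    · simp only [dif_neg hi] at hy
      exact absurd hy (by simp)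
  · intro y hy
    have hi : ∃ y' : E, f y' = f ⟨y, hy⟩ := ⟨_, rfl⟩
    refine ⟨f ⟨y, hy⟩, ?_⟩
    simp only [dif_pos hi, Option.some.injEq]
    have := f.injective hi.choose_spec
    rw [this]

private lemma CB5_dom {p q : Cond Ω X Θ} (h : p.Reach q) {s : Θ} {v : Ω × (ℕ → Option Ω)}
    (hs : q.u.f s = some v) : p.u.f s ≠ none := by
  induction h generalizing v with
  | refl =>
    rw [hs]
    simp
  | step q x hx _ ih =>
    obtain ⟨ρ, τ⟩ := v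
    obtain ⟨σ, h1, -⟩ := stepf_eq_some (show stepf q.len q.u.f x s = some (ρ, τ) from hs)
    exact ih h1

/-- The values of the coordinates listed by `z`. -/
private def CB5_val (z : Ω → Option Θ) (q : Cond Ω X Θ) (i : Ω) (k : ℕ) : Option Ω :=
  match z i with
  | none => none
  | some s =>
    match q.u.f s with
    | none => none
    | some v => v.2 k

private lemma CB5_val_eq {z : Ω → Option Θ} {q : Cond Ω X Θ} {i : Ω} {s : Θ} {ρ : Ω}
    {σ : ℕ → Option Ω} (h : z i = some s) (h' : q.u.f s = some (ρ, σ)) (k : ℕ) :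
    CB5_val z q i k = σ k := by
  unfold CB5_val
  simp only [h, h']

/-- The instructions. -/
private def CB5_I (R : Cond Ω X Θ → Ω → Prop) (z : Ω → Option Θ) (q : Cond Ω X Θ) :
    Set (List Ω × (Ω → ℕ → Option Ω) × List (PO Ω) × Ω) :=
  {w | ∃ q₀ : Cond Ω X Θ, q.Reach q₀ ∧ w.1 = q₀.t ∧ w.2.1 = CB5_val z q₀ ∧ w.2.2.2 < q₀.m ∧
    ∃ hr : LowV X Θ (q₀.m :: q₀.s) w.2.2.1,
      Pos (fun q => R q w.2.2.2) (⟨q₀.m, q₀.s, w.2.2.1, q₀.u, hr, q₀.up⟩ : Cond Ω X Θ)}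

private lemma CB5_mk_I (R : Cond Ω X Θ → Ω → Prop) (z : Ω → Option Θ) (q : Cond Ω X Θ) :
    #(CB5_I R z q) ≤ #Ω := by
  rw [D.mk_Ω]
  have h1 : CB5_I R z q ⊆ ⋃ q₀ : {q₀ | q.Reach q₀},
      (fun w : List (PO Ω) × Ω => (q₀.1.t, CB5_val z q₀.1, w.1, w.2)) ''
        ({r | LowV X Θ (q₀.1.m :: q₀.1.s) r} ×ˢ Iio q₀.1.m) := by
    rintro ⟨t, v, r, a⟩ ⟨q₀, h1, h2, h3, h4, h5, -⟩
    simp only at h2 h3 h4
    subst h2
    subst h3
    exact mem_iUnion.2 ⟨⟨q₀, h1⟩, (r, a), ⟨h5, h4⟩, rfl⟩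
  refine (mk_le_mk_of_subset h1).trans ?_
  refine mk_iUnion_le D.κ_inacc.aleph0_lt.le (Cond.mk_reach q) _ fun q₀ => ?_
  refine mk_image_le.trans ?_
  rw [mk_setProd]
  refine Cardinal.mul_le_of_le D.κ_inacc.aleph0_lt.le ?_ ?_
  · exact (mk_low_le (X := X) (Θ := Θ)).trans (th_lt_κ _).le
  · exact (D.crd_lt _).le

/-- Row CB5: subsets of `κ` are coded. -/
theorem code_big {R : Cond Ω X Θ → Ω → Prop} (hR : ∀ a, Mono (fun q => R q a))
    (p : Cond Ω X Θ) :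
    ∃ q : Cond Ω X Θ, q.Dle p ∧ ∃ z : BCode Ω Θ, ∀ a, ∀ q' ≤ q,
      (Tb z q' a → ∃ q'' ≤ q', R q'' a) ∧ (R q' a → ∃ q'' ≤ q', Tb z q'' a) := by
  obtain ⟨u, hu, hle, H⟩ := cb_fusion R hR p
  set q : Cond Ω X Θ := p.withU u hu with hq
  have hqp : q.Dle p := Cond.withU_dle hu hle
  obtain ⟨z1, hz1, hz1'⟩ := CB5_enum (I := Ω) {s | q.u.f s ≠ none} (by
    rw [D.mk_Ω]
    exact mk_dom_f_le q)
  obtain ⟨z2, hz2, hz2'⟩ := CB5_enum (I := Ω) (CB5_I R z1 q) (CB5_mk_I R z1 q)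
  refine ⟨q, hqp, (z1, z2), fun a q' hq' => ⟨?_, ?_⟩⟩
  · rintro ⟨j, t, val, r, h1, h2, h3, h4⟩
    obtain ⟨q₀, g1, g2, g3, g4, g5, g6⟩ := hz2 j _ h1
    simp only at g2 g3 g4 g5 g6
    subst g2
    subst g3
    have hlen : q₀.t.length = q₀.len := rfl
    obtain ⟨q₁, k1, k2, k3⟩ := Cond.exists_reach_len hq' (k := q₀.t.length)
      (Cond.RA_reach_len g1) h2.length_le
    have k4 : q₁.t = q₀.t := by
      have e1 := List.suffix_iff_eq_drop.1 (Cond.le_t k3)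
      have e2 := List.suffix_iff_eq_drop.1 h2
      have e3 : q₁.t.length = q₀.t.length := k2
      rw [e3] at e1
      exact e1.trans e2.symm
    have k5 : q₀.u = q₁.u := by
      refine reach_u_eq g1 k1 k4.symm ?_
      intro s ρ σ ρ' σ' e1 e2 k hk
      obtain ⟨i, hi⟩ := hz1' s (CB5_dom g1 e1)
      obtain ⟨ρ1, σ1, f1, f2⟩ := h3 i s hi
      obtain ⟨ρ2, σ2, f3, f4⟩ := f_of_le k3 e2
      rw [f1] at f3
      simp only [Option.some.injEq, Prod.mk.injEq] at f3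
      obtain ⟨-, rfl⟩ := f3
      have f5 := f2 k hk
      rw [CB5_val_eq hi e1] at f5
      rw [← f5, f4 k (by rw [k2]; exact hk)]
    have k6 : LowV X Θ q₁.t (q'.r.rtake q₁.len) := V3_rtake k3
    obtain ⟨q₂, l1, l2⟩ := Cond.exists_common k6 (V2_ext_r k3) k3 (V2_fs_refl _)
    have l3 : q₂ ≤ (⟨q₀.m, q₀.s, r, q₀.u, g5, q₀.up⟩ : Cond Ω X Θ) := by
      refine l2.trans (Cond.Dle.le ⟨?_, ?_, ?_, ?_⟩)
      · exact (List.cons.inj k4).1
      · exact (List.cons.inj k4).2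
      · change List.Forall₂ Sub r (q'.r.rtake q₁.len)
        rw [k2]
        exact h4
      · change q₁.u.Le q₀.m q₀.u
        rw [k5]
        exact Up.Le.refl _ _
    obtain ⟨q₄, l4, l5⟩ := g6 q₂ l3
    exact ⟨q₄, l4.trans l1, l5⟩
  · intro hRq
    obtain ⟨q₃, g1, -, g2⟩ := Cond.exists_len q' 0 a
    obtain ⟨q₀, g3, g4⟩ := Cond.exists_reach (g1.trans hq')
    have g5 : q₃.m = q₀.m := g4.m
    have g6 : q₃.s = q₀.s := g4.s
    have g7 : a < q₀.m := by rwa [g5] at g2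
    have g8 : LowV X Θ (q₀.m :: q₀.s) q₃.r := by
      have := q₃.low
      rwa [g5, g6] at this
    obtain ⟨r', hr', k1, k2⟩ := H q₀ g3 a (g7.trans_le (D.T_ge _ q₀.low.mem_W)) q₃.r g8
    have k3 : q₃.r.rtake q₀.len = q₃.r := by
      have e1 : q₃.r.length = q₀.len := Cond.RD_low_length g8
      unfold List.rtake
      rw [e1, Nat.sub_self, List.drop_zero]
    obtain ⟨q₄, k4, k5⟩ := Cond.exists_common (p := q₀) hr' (V2_fs_trans g4.r k1) g4.le
      (by rw [k3]; exact k1)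
    have k6 : R q₄ a := hR a _ _ (k4.trans g1) hRq
    have k7 := k2.pos k5 k6
    obtain ⟨j, hj⟩ := hz2' (q₀.t, CB5_val z1 q₀, r', a) ⟨q₀, g3, rfl, rfl, g7, hr', k7⟩
    have k8 : q₀.t <:+ q₄.t := by
      have e1 := Cond.le_t k5
      exact e1
    refine ⟨q₄, k4.trans g1, j, q₀.t, CB5_val z1 q₀, r', hj, k8, ?_, V2_ext_r k5⟩
    intro i s hi
    obtain ⟨w, hw⟩ := Option.ne_none_iff_exists'.1 (hz1 i s hi)
    obtain ⟨ρ, σ⟩ := w
    obtain ⟨ρ1, σ1, f1, -⟩ := f_of_le g3.le hw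
    obtain ⟨ρ2, σ2, f2, f3⟩ := f_of_le k5 (s := s) (ρ := ρ1) (σ := σ1) f1
    refine ⟨ρ2, σ2, f2, fun k hk => ?_⟩
    rw [CB5_val_eq hi f1]
    exact f3 k hk

end Pool.UL
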