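import Pool.Agent.Lib.MP_9fc97b_ul.FN

/-!
# Task K: the chain condition
-/

set_option autoImplicit false
set_option linter.unusedSectionVars false

open Cardinal Set Order

namespace Pool.UL

namespace K1Aux

/-- Nodes of the codes for the coordinates. -/
abbrev Nd (K Y Z : Type) : Type := Option (Z × (K → Option Y) × K)

/-- Arities of the nodes. -/
def Ar (K Y Z : Type) : Nd K Y Z → Type
  | none => Empty
  | some _ => K

/-- Codes for the coordinates in the closure. -/
abbrev Tr (K Y Z : Type) : Type := WType (Ar K Y Z)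

lemma mk_Tr_le {K Y Z : Type} {c : Cardinal.{0}} (hc : ℵ₀ ≤ c) (hcK : c ^ #K ≤ c)
    (hZ : #Z ≤ c) (hY : #Y ≤ c) (hK : #K ≤ c) : #(K → Option Y) ≤ c ∧ #(Tr K Y Z) ≤ c := by
  have h1 : #(Option Y) ≤ c := by
    rw [mk_option]
    exact add_le_of_le hc hY (one_le_aleph0.trans hc)
  have h2 : #(K → Option Y) ≤ c := by
    rw [← power_def]
    exact (power_le_power_right h1).trans hcK
  have h3 : #(Nd K Y Z) ≤ c := by
    rw [mk_option]
    refine add_le_of_le hc ?_ (one_le_aleph0.trans hc)
    rw [mk_prod, mk_prod, lift_id, lift_id, lift_id, lift_id]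
    exact mul_le_of_le hc hZ (mul_le_of_le hc h2 hK)
  refine ⟨h2, WType.cardinalMk_le_of_le ?_⟩
  have h4 : ∀ a : Nd K Y Z, c ^ #(Ar K Y Z a) ≤ c := by
    intro a
    cases a with
    | none =>
      show c ^ #Empty ≤ c
      rw [mk_empty, power_zero]
      exact one_le_aleph0.trans hc
    | some _ => exact hcK
  calc sum (fun a => c ^ #(Ar K Y Z a)) ≤ sum (fun _ : Nd K Y Z => c) := sum_le_sum _ _ h4
    _ = #(Nd K Y Z) * c := by rw [sum_const']
    _ ≤ c := mul_le_of_le hc h3 le_rfl

section

variable {K I Y Z A : Type} (tp : A → Z) (f : A → I → Option Y) (e : A → K → Option I)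

open Classical in
/-- The chosen element of the antichain extending the partial function `h` at the coordinates
`v`. -/
noncomputable def pick (z : Z) (h : K → Option Y) (v : K → Option I) : Option A :=
  if H : ∃ a, tp a = z ∧ ∀ k y, h k = some y → ∃ x, v k = some x ∧ f a x = some y
  then some H.choose else none

/-- One step of the evaluation of codes. -/
noncomputable def ev1 : (Σ a : Nd K Y Z, Ar K Y Z a → Option I) → Option I
  | ⟨none, _⟩ => none
  | ⟨some (z, h, i), v⟩ => (pick tp f z h v).bind fun a => e a i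

/-- The coordinate with a given code. -/
noncomputable def ev (w : Tr K Y Z) : Option I := WType.elim _ (ev1 tp f e) w

end

/-- The chain condition for partial functions. -/
theorem antichain_le {K I Y Z A : Type} {c : Cardinal.{0}} (hc : ℵ₀ ≤ c) (hcK : c ^ #K ≤ c)
    (hZ : #Z ≤ c) (hY : #Y ≤ c) (tp : A → Z) (f : A → I → Option Y)
    (hf : ∀ a, #{x | f a x ≠ none} ≤ #K)
    (hA : ∀ a b, a ≠ b → tp a = tp b → ∃ x v w, f a x = some v ∧ f b x = some w ∧ v ≠ w) :
    #A ≤ c := by
  classical
  have hK : #K ≤ c := by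
    have h2 : (2 : Cardinal.{0}) ≤ c := (natCast_lt_aleph0 (n := 2)).le.trans hc
    exact (cantor #K).le.trans ((power_le_power_right h2).trans hcK)
  obtain ⟨h1, h2⟩ := mk_Tr_le (K := K) (Y := Y) (Z := Z) hc hcK hZ hY hK
  -- enumerations of the domains
  have he : ∃ e : A → K → Option I, ∀ a x, f a x ≠ none → ∃ k, e a k = some x := by
    have h3 : ∀ a, Nonempty ({x | f a x ≠ none} ↪ K) := fun a => hf a
    let g := fun a => (h3 a).some
    refine ⟨fun a k => if H : ∃ x, g a x = k then some H.choose.1 else none, ?_⟩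
    intro a x hx
    refine ⟨g a ⟨x, hx⟩, ?_⟩
    have H : ∃ y, g a y = g a ⟨x, hx⟩ := ⟨_, rfl⟩
    have h4 : H.choose = ⟨x, hx⟩ := (g a).injective H.choose_spec
    show (if H : ∃ y, g a y = g a ⟨x, hx⟩ then some H.choose.1 else none) = some x
    rw [dif_pos H, h4]
  obtain ⟨e, he⟩ := he
  have key : ∀ a : A, ∃ q : Z × (K → Option Y) × (K → Tr K Y Z),
      pick tp f q.1 q.2.1 (fun k => ev tp f e (q.2.2 k)) = some a := by
    intro a
    let base : Tr K Y Z := WType.mk none (fun x : Empty => x.elim)
    have h5 : ∀ k, ∃ r : Option Y × Tr K Y Z,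
        (∀ y, r.1 = some y → ∃ x, ev tp f e r.2 = some x ∧ f a x = some y) ∧
        ∀ x, e a k = some x → (∃ T : Tr K Y Z, ev tp f e T = some x) →
          r.1 = f a x ∧ ev tp f e r.2 = some x := by
      intro k
      by_cases H : ∃ x, e a k = some x ∧ ∃ T : Tr K Y Z, ev tp f e T = some x
      · obtain ⟨x, hx, T, hT⟩ := H
        refine ⟨(f a x, T), fun y hy => ⟨x, hT, hy⟩, ?_⟩
        intro x' hx' _
        rw [hx] at hx'
        obtain rfl := Option.some.inj hx'
        exact ⟨rfl, hT⟩
      · refine ⟨(none, base), fun y hy => absurd hy (by simp), ?_⟩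
        intro x hx hT
        exact absurd ⟨x, hx, hT⟩ H
    choose r hr1 hr2 using h5
    refine ⟨(tp a, fun k => (r k).1, fun k => (r k).2), ?_⟩
    have H : ∃ b, tp b = tp a ∧ ∀ k y, (r k).1 = some y →
        ∃ x, ev tp f e (r k).2 = some x ∧ f b x = some y :=
      ⟨a, rfl, fun k y hy => hr1 k y hy⟩
    have hp : pick tp f (tp a) (fun k => (r k).1) (fun k => ev tp f e (r k).2) =
        some H.choose := by
      unfold pick
      exact dif_pos H
    show pick tp f (tp a) (fun k => (r k).1) (fun k => ev tp f e (r k).2) = some a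
    rw [hp]
    obtain ⟨hb1, hb2⟩ := H.choose_spec
    by_contra hne
    have hne2 : a ≠ H.choose := fun h6 => hne (by rw [← h6])
    obtain ⟨x, v, w, hv, hw, hvw⟩ := hA a H.choose hne2 hb1.symm
    obtain ⟨i, hi⟩ := he H.choose x (by rw [hw]; simp)
    obtain ⟨k, hk⟩ := he a x (by rw [hv]; simp)
    have hT : ∃ T : Tr K Y Z, ev tp f e T = some x := by
      refine ⟨WType.mk (some (tp a, (fun k => (r k).1), i)) (fun k => (r k).2), ?_⟩
      show (pick tp f (tp a) (fun k => (r k).1) (fun k => ev tp f e (r k).2)).bind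
        (fun a => e a i) = some x
      rw [hp]
      exact hi
    obtain ⟨h7, h8⟩ := hr2 k x hk hT
    rw [hv] at h7
    obtain ⟨x', h9, h10⟩ := hb2 k v h7
    rw [h8] at h9
    obtain rfl := Option.some.inj h9
    rw [hw] at h10
    exact hvw (Option.some.inj h10).symm
  choose q hq using key
  have hinj : Function.Injective q := by
    intro a b hab
    have h3 := hq a
    rw [hab, hq b] at h3
    exact (Option.some.inj h3).symm
  refine (mk_le_of_injective hinj).trans ?_
  rw [mk_prod, mk_prod, lift_id, lift_id, lift_id, lift_id]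
  refine mul_le_of_le hc hZ (mul_le_of_le hc h1 ?_)
  rw [← power_def]
  exact (power_le_power_right h2).trans hcK

end K1Aux

end Pool.UL
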