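import Pool.Agent.Lib.MP_9fc97b_ul.CC0

/-!
# UL, row CC1
-/

set_option autoImplicit false
set_option linter.unusedSectionVars false

open Cardinal Set Order

namespace Pool.UL

variable {Ω : Type} [LinearOrder Ω] [WellFoundedLT Ω] {X Θ : Type} [D : PE Ω X Θ]

section CC1Aux

variable {Z Y : Type} {c d : Z → Option Y}

/-- The union of two partial functions. -/
private def CC1un (c d : Z → Option Y) : Z → Option Y := fun a => (c a).or (d a)

private lemma CC1un_eq {a : Z} {v : Y} (h : CC1un c d a = some v) :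
    c a = some v ∨ d a = some v := by
  unfold CC1un at h
  rw [Option.or_eq_some_iff] at h
  rcases h with h | ⟨-, h⟩
  · exact Or.inl h
  · exact Or.inr h

private lemma CC1un_left {a : Z} {v : Y} (h : c a = some v) : CC1un c d a = some v := by
  unfold CC1un
  rw [h]
  rfl

private lemma CC1un_right (hcd : ∀ a v w, c a = some v → d a = some w → v = w) {a : Z} {v : Y}
    (h : d a = some v) : CC1un c d a = some v := by
  unfold CC1un
  cases h1 : c a with
  | none => simpa using h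
  | some w => rw [hcd a w v h1 h]; rfl

private lemma CC1un_dom : pdom (CC1un c d) ⊆ pdom c ∪ pdom d := by
  intro a ha
  obtain ⟨v, hv⟩ := Option.ne_none_iff_exists'.1 (show CC1un c d a ≠ none from ha)
  rcases CC1un_eq hv with h | h
  · left
    change c a ≠ none
    rw [h]
    simp
  · right
    change d a ≠ none
    rw [h]
    simp

private lemma CC1un_IsCo {θ : Cardinal.{0}} (hθ : ℵ₀ ≤ θ) {c d : PF Z} (hc : IsCo θ c)
    (hd : IsCo θ d) : IsCo θ (CC1un c d) :=
  (mk_le_mk_of_subset CC1un_dom).trans ((mk_union_le _ _).trans (add_le_of_le hθ hc hd))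

end CC1Aux

/-- Row CC1: two conditions with the same stem and lower part whose partial functions agree on the
common parts of their domains are compatible. -/
theorem compatible {p q : Cond Ω X Θ} (hm : p.m = q.m) (hs : p.s = q.s) (hr : p.r = q.r)
    (hc : ∀ a v w, p.u.c a = some v → q.u.c a = some w → v = w)
    (hf : ∀ a v w, p.u.f a = some v → q.u.f a = some w → v = w)
    (hF : ∀ m a v w, p.u.F m a = some v → q.u.F m a = some w → v = w) :
    ∃ r : Cond Ω X Θ, r ≤ p ∧ r ≤ q := by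
  have hW : p.m ∈ D.W := p.low.mem_W
  let u : Up Ω X Θ :=
    { c := CC1un p.u.c q.u.c, f := CC1un p.u.f q.u.f, A := p.u.A ∩ q.u.A,
      F := fun m => CC1un (p.u.F m) (q.u.F m) }
  have hV : u.V p.m := by
    refine ⟨CC1un_IsCo (aleph0_lt_th hW).le p.up.hc (hm ▸ q.up.hc), ?_, ?_,
      Filter.inter_mem p.up.hA q.up.hA, fun m' hm' =>
        CC1un_IsCo (aleph0_lt_th hm').le (p.up.hF m' hm') (q.up.hF m' hm')⟩
    · intro α ρ σ h
      rcases CC1un_eq h with h | h
      · exact p.up.ff α ρ σ h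
      · exact q.up.ff α ρ σ h
    · intro m' hm' hlt
      have h1 : {α | ∃ ρ σ, u.f α = some (ρ, σ) ∧ ρ < m'} ⊆
          {α | ∃ ρ σ, p.u.f α = some (ρ, σ) ∧ ρ < m'} ∪
          {α | ∃ ρ σ, q.u.f α = some (ρ, σ) ∧ ρ < m'} := by
        rintro α ⟨ρ, σ, h, hρ⟩
        rcases CC1un_eq h with h | h
        · exact Or.inl ⟨ρ, σ, h, hρ⟩
        · exact Or.inr ⟨ρ, σ, h, hρ⟩
      exact (mk_le_mk_of_subset h1).trans ((mk_union_le _ _).trans
        (add_le_of_le (aleph0_lt_crd hm').le (p.up.fs m' hm' hlt)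
          (q.up.fs m' hm' (hm ▸ hlt))))
  let r : Cond Ω X Θ := ⟨p.m, p.s, p.r, u, p.low, hV⟩
  refine ⟨r, Cond.Dle.le ⟨rfl, rfl, ?_, ?_⟩, Cond.Dle.le ⟨hm, hs, ?_, ?_⟩⟩
  · exact List.forall₂_same.2 fun c _ => Sub.refl c
  · exact ⟨fun _ _ h => CC1un_left h, fun α ρ σ h => ⟨ρ, CC1un_left h, rfl⟩,
      fun x hx _ => hx.1, fun _ _ _ _ _ h => CC1un_left h⟩
  · change List.Forall₂ Sub q.r p.r
    rw [hr]
    exact List.forall₂_same.2 fun c _ => Sub.refl c
  · exact ⟨fun _ _ h => CC1un_right hc h, fun α ρ σ h => ⟨ρ, CC1un_right hf h, rfl⟩,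
      fun x hx _ => hx.2, fun m _ _ _ _ h => CC1un_right (hF m) h⟩

end Pool.UL
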