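import Pool.Agent.Lib.MP_9fc97b_ul.CC1

/-!
# UL, row CC2
-/

set_option autoImplicit false
set_option linter.unusedSectionVars false

open Cardinal Set Order

namespace Pool.UL

variable {Ω : Type} [LinearOrder Ω] [WellFoundedLT Ω] {X Θ : Type} [D : PE Ω X Θ]

open Classical in
/-- The promises at points of `W` only. -/
private noncomputable def CC2F (F : Ω → PS Θ) (X : Type) [D : PE Ω X Θ] : Ω → PS Θ := fun m =>
  if m ∈ D.W then F m else fun _ => none

private lemma CC2F_mem {F : Ω → PS Θ} {m : Ω} (hm : m ∈ D.W) : CC2F F X m = F m := if_pos hm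

private lemma CC2F_notMem {F : Ω → PS Θ} {m : Ω} (hm : m ∉ D.W) : CC2F F X m = fun _ => none :=
  if_neg hm

/-- The condition with the promises at points of `W` only. -/
private noncomputable def CC2c (p : Cond Ω X Θ) : Cond Ω X Θ where
  m := p.m
  s := p.s
  r := p.r
  u := { c := p.u.c, f := p.u.f, A := p.u.A, F := CC2F p.u.F X }
  low := p.low
  up := ⟨p.up.hc, p.up.ff, p.up.fs, p.up.hA, fun m' hm' => by
    change IsCo (th X Θ m') (CC2F p.u.F X m')
    rw [CC2F_mem hm']
    exact p.up.hF m' hm'⟩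

private lemma CC2c_dle (p : Cond Ω X Θ) : (CC2c p).Dle p where
  m := rfl
  s := rfl
  r := List.forall₂_same.2 fun c _ => Sub.refl c
  u := ⟨Sub.refl _, fun s ρ σ h => ⟨ρ, h, rfl⟩, fun _ h _ => h, fun m' hm' _ => by
    change Sub (p.u.F m') (CC2F p.u.F X m')
    rw [CC2F_mem hm']
    exact Sub.refl _⟩

/-- The coding function. -/
private noncomputable def CC2f (p : Cond Ω X Θ) :
    (Θ × Θ) ⊕ Θ ⊕ (Ω × Θ × Θ) → Option (Bool ⊕ (Ω × (ℕ → Option Ω)))
  | Sum.inl a => (p.u.c a).map Sum.inl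
  | Sum.inr (Sum.inl s) => (p.u.f s).map Sum.inr
  | Sum.inr (Sum.inr (m, a)) => (CC2F p.u.F X m a).map Sum.inl

private lemma CC2f_size (p : Cond Ω X Θ) : #{x | CC2f p x ≠ none} ≤ D.κ := by
  have hκ : ℵ₀ ≤ D.κ := D.κ_inacc.aleph0_lt.le
  have hsub : {x | CC2f p x ≠ none} ⊆
      (Sum.inl '' pdom p.u.c) ∪ (((fun s => Sum.inr (Sum.inl s)) '' {s | p.u.f s ≠ none}) ∪
        ⋃ m : Ω, (fun a => Sum.inr (Sum.inr (m, a))) '' pdom (CC2F p.u.F X m)) := by
    rintro (a | s | ⟨m, a⟩) hx
    · refine Or.inl ⟨a, ?_, rfl⟩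
      intro h
      apply hx
      change (p.u.c a).map Sum.inl = none
      rw [h]
      rfl
    · refine Or.inr (Or.inl ⟨s, ?_, rfl⟩)
      intro h
      apply hx
      change (p.u.f s).map Sum.inr = none
      rw [h]
      rfl
    · refine Or.inr (Or.inr (mem_iUnion.2 ⟨m, a, ?_, rfl⟩))
      intro h
      apply hx
      change (CC2F p.u.F X m a).map Sum.inl = none
      rw [h]
      rfl
  refine (mk_le_mk_of_subset hsub).trans ((mk_union_le _ _).trans (add_le_of_le hκ ?_
    ((mk_union_le _ _).trans (add_le_of_le hκ ?_ ?_))))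
  · exact mk_image_le.trans (p.up.hc.trans (th_lt_κ p.m).le)
  · refine mk_image_le.trans ?_
    refine le_trans (mk_le_mk_of_subset ?_) (mk_iUnion_le hκ D.mk_Ω.le
      (fun m' : Ω => {α | (m' ∈ D.W ∧ p.m < m') ∧
        ∃ ρ σ, p.u.f α = some (ρ, σ) ∧ ρ < m'}) ?_)
    · intro α hα
      change p.u.f α ≠ none at hα
      obtain ⟨⟨ρ, σ⟩, h⟩ := Option.ne_none_iff_exists'.1 hα
      obtain ⟨m', hm', hlt⟩ := exists_mem_W (D := D) (max ρ p.m)
      rw [max_lt_iff] at hlt
      exact mem_iUnion.2 ⟨m', ⟨hm', hlt.2⟩, ρ, σ, h, hlt.1⟩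
    · intro m'
      by_cases hm' : m' ∈ D.W ∧ p.m < m'
      · refine le_trans (mk_le_mk_of_subset ?_) ((p.up.fs m' hm'.1 hm'.2).trans
          (D.crd_lt m').le)
        rintro α ⟨-, h⟩
        exact h
      · have h0 : {α | (m' ∈ D.W ∧ p.m < m') ∧
            ∃ ρ σ, p.u.f α = some (ρ, σ) ∧ ρ < m'} = ∅ := by
          ext α
          constructor
          · rintro ⟨h, -⟩
            exact absurd h hm'
          · intro h
            exact h.elim
        rw [h0, mk_eq_zero]
        exact zero_le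
  · refine mk_iUnion_le hκ D.mk_Ω.le _ fun m => mk_image_le.trans ?_
    by_cases hm : m ∈ D.W
    · rw [CC2F_mem hm]
      exact (p.up.hF m hm).trans (th_lt_κ m).le
    · rw [CC2F_notMem hm]
      have h0 : pdom (fun _ : Θ × Θ => (none : Option Bool)) = ∅ := by
        ext a
        constructor
        · intro h
          exact absurd rfl h
        · intro h
          exact h.elim
      rw [h0, mk_eq_zero]
      exact zero_le

/-- Row CC2: THE CHAIN CONDITION.  `K1Aux.antichain_le` with `K = Ω`, `c = 2 ^ κ`,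
`I = (Θ × Θ) ⊕ Θ ⊕ (Ω × Θ × Θ)`, `Y = Bool ⊕ (Ω × (ℕ → Option Ω))`,
`Z = Ω × List Ω × List (PO Ω)`.  (Only the values `F m` with `m ∈ W` matter: first replace `F m` by
the empty function for `m ∉ W`, which gives a direct extension.) -/
theorem chain_condition (A : Set (Cond Ω X Θ))
    (hA : ∀ p ∈ A, ∀ q ∈ A, p ≠ q → ¬ ∃ r : Cond Ω X Θ, r ≤ p ∧ r ≤ q) : #A ≤ 2 ^ D.κ := by
  have hκ : ℵ₀ ≤ D.κ := D.κ_inacc.aleph0_lt.le
  have hκs : ℵ₀ ≤ (2 : Cardinal.{0}) ^ D.κ := hκ.trans (cantor _).le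
  have hpow : ((2 : Cardinal.{0}) ^ D.κ) ^ D.κ ≤ 2 ^ D.κ := by
    rw [← power_mul, mul_eq_self hκ]
  have hne : (2 : Cardinal.{0}) ^ D.κ ≠ 0 := (aleph0_pos.trans_le hκs).ne'
  have hΩ : #Ω ≤ 2 ^ D.κ := by
    rw [D.mk_Ω]
    exact (cantor _).le
  have hopt : ∀ {E : Type}, #E ≤ (2 : Cardinal.{0}) ^ D.κ → #(Option E) ≤ 2 ^ D.κ := by
    intro E hE
    rw [mk_option]
    exact add_le_of_le hκs hE (one_le_aleph0.trans hκs)
  have hB : #Bool ≤ 2 ^ D.κ := by
    rw [mk_bool]
    exact (natCast_lt_aleph0 (n := 2)).le.trans hκs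
  have hfun : ∀ {E E' : Type}, #E ≤ D.κ → #E' ≤ (2 : Cardinal.{0}) ^ D.κ →
      #(E → E') ≤ 2 ^ D.κ := by
    intro E E' hE hE'
    rw [← power_def]
    exact ((power_le_power_right hE').trans (power_le_power_left hne hE)).trans hpow
  have hlist : ∀ {E : Type}, #E ≤ (2 : Cardinal.{0}) ^ D.κ → #(List E) ≤ 2 ^ D.κ := fun {E} h =>
    (mk_list_le_max E).trans (max_le hκs h)
  have hPO : #(PO Ω) ≤ 2 ^ D.κ := by
    refine hfun ?_ (hopt hB)
    rw [mk_prod, lift_id, D.mk_Ω]
    exact (mul_eq_self hκ).le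
  have hY : #(Bool ⊕ (Ω × (ℕ → Option Ω))) ≤ 2 ^ D.κ := by
    rw [mk_sum, lift_id, lift_id]
    refine add_le_of_le hκs hB ?_
    rw [mk_prod, lift_id, lift_id]
    refine mul_le_of_le hκs hΩ (hfun ?_ (hopt hΩ))
    rw [mk_nat]
    exact hκ
  have hZ : #(Ω × List Ω × List (PO Ω)) ≤ 2 ^ D.κ := by
    simp only [mk_prod, lift_id]
    exact mul_le_of_le hκs hΩ (mul_le_of_le hκs (hlist hΩ) (hlist hPO))
  refine K1Aux.antichain_le (K := Ω) hκs (by rw [D.mk_Ω]; exact hpow) hZ hY
    (fun p : A => (p.1.m, p.1.s, p.1.r)) (fun p : A => CC2f p.1) ?_ ?_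
  · intro p
    rw [D.mk_Ω]
    exact CC2f_size p.1
  · rintro ⟨p, hp⟩ ⟨q, hq⟩ hne htp
    simp only [Prod.mk.injEq] at htp
    obtain ⟨h1, h2, h3⟩ := htp
    by_contra hcon
    push Not at hcon
    refine hA p hp q hq (fun h => hne (Subtype.ext h)) ?_
    obtain ⟨r, hr1, hr2⟩ := compatible (p := CC2c p) (q := CC2c q) h1 h2 h3
      (fun a v w hv hw => by
        have e1 : CC2f p (Sum.inl a) = some (Sum.inl v) := by
          change (p.u.c a).map Sum.inl = _
          have : p.u.c a = some v := hv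
          rw [this]
          rfl
        have e2 : CC2f q (Sum.inl a) = some (Sum.inl w) := by
          change (q.u.c a).map Sum.inl = _
          have : q.u.c a = some w := hw
          rw [this]
          rfl
        exact Sum.inl.inj (hcon _ _ _ e1 e2))
      (fun a v w hv hw => by
        have e1 : CC2f p (Sum.inr (Sum.inl a)) = some (Sum.inr v) := by
          change (p.u.f a).map Sum.inr = _
          have : p.u.f a = some v := hv
          rw [this]
          rfl
        have e2 : CC2f q (Sum.inr (Sum.inl a)) = some (Sum.inr w) := by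
          change (q.u.f a).map Sum.inr = _
          have : q.u.f a = some w := hw
          rw [this]
          rfl
        exact Sum.inr.inj (hcon _ _ _ e1 e2))
      (fun m a v w hv hw => by
        have e1 : CC2f p (Sum.inr (Sum.inr (m, a))) = some (Sum.inl v) := by
          change (CC2F p.u.F X m a).map Sum.inl = _
          have : CC2F p.u.F X m a = some v := hv
          rw [this]
          rfl
        have e2 : CC2f q (Sum.inr (Sum.inr (m, a))) = some (Sum.inl w) := by
          change (CC2F q.u.F X m a).map Sum.inl = _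
          have : CC2F q.u.F X m a = some w := hw
          rw [this]
          rfl
        exact Sum.inl.inj (hcon _ _ _ e1 e2))
    exact ⟨r, hr1.trans (CC2c_dle p).le, hr2.trans (CC2c_dle q).le⟩

end Pool.UL
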