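import Pool.Agent.Lib.MP_9fc97b_ul.CC2

/-!
# UL, row CC3
-/

set_option autoImplicit false
set_option linter.unusedSectionVars false

open Cardinal Set Order

namespace Pool.UL

variable {Ω : Type} [LinearOrder Ω] [WellFoundedLT Ω] {X Θ : Type} [D : PE Ω X Θ]

/-- Row CC3: a name for an element of `B` has at most `2 ^ κ` possible values. -/
theorem cover_cc {A B : Type} {p : Cond Ω X Θ} {R : Cond Ω X Θ → A → B → Prop} (hR : FN p R)
    (a : A) : #{b | ∃ q ≤ p, R q a b} ≤ 2 ^ D.κ := by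
  classical
  have h0 : ∀ b : {b | ∃ q ≤ p, R q a b}, ∃ q : Cond Ω X Θ, q ≤ p ∧ R q a b := fun b => b.2
  choose f hf1 hf2 using h0
  have hinj : Function.Injective f := by
    intro b b' h
    have h1 := hf2 b
    rw [h] at h1
    exact Subtype.ext (hR.uniq _ (hf1 b') a _ _ h1 (hf2 b'))
  rw [← mk_range_eq f hinj]
  refine chain_condition (range f) ?_
  rintro _ ⟨b, rfl⟩ _ ⟨b', rfl⟩ hne ⟨r, h1, h2⟩
  apply hne
  have h3 : (b : B) = b' := hR.uniq r (h1.trans (hf1 b)) a _ _ (hR.mono _ _ _ _ h1 (hf2 b))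
    (hR.mono _ _ _ _ h2 (hf2 b'))
  rw [Subtype.ext h3]

/-- Row CC3: cardinals above `2 ^ κ` are preserved. -/
theorem preserve_big {A B : Type} {p : Cond Ω X Θ} {c : Cardinal.{0}} (hc : 2 ^ D.κ ≤ c)
    (hA : #A ≤ c) (hB : c < #B) {R : Cond Ω X Θ → A → B → Prop} (hR : FN p R) :
    ∃ b, ∀ q ≤ p, ∀ a, ¬ R q a b := by
  by_contra hcon
  push Not at hcon
  have h1 : (univ : Set B) ⊆ ⋃ a : A, {b | ∃ q ≤ p, R q a b} := by
    intro b _
    obtain ⟨q, hq, a, h⟩ := hcon b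
    exact mem_iUnion.2 ⟨a, q, hq, h⟩
  have hinf : ℵ₀ ≤ c := D.κ_inacc.aleph0_lt.le.trans ((cantor _).le.trans hc)
  have h2 : #B ≤ c := by
    calc #B = #(univ : Set B) := mk_univ.symm
      _ ≤ #(⋃ a : A, {b | ∃ q ≤ p, R q a b} : Set B) := mk_le_mk_of_subset h1
      _ ≤ #A * ⨆ a : A, #{b | ∃ q ≤ p, R q a b} := Cardinal.mk_iUnion_le _
      _ ≤ c * c := by
        refine mul_le_mul' hA ?_
        exact ciSup_le' fun a => (cover_cc hR a).trans hc
      _ = c := mul_eq_self hinf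
  exact absurd h2 (not_le.2 hB)

end Pool.UL
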