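import Pool.Agent.Lib.MP_9fc97b_ul.FN

/-!
# UL, row CL: closures of size `2 ^ τ`
-/

set_option autoImplicit false

open Cardinal Set Order

namespace Pool.UL

/-- Arities: `none` is a constant, the other nodes have arity `B`. -/
private def CL1Ar (α B : Type) : Option α → Type
  | none => Empty
  | some _ => B

/-- The evaluation map. -/
private def CL1ev {Z α B : Type} (f : α → (B → Z) → Z) (z₀ : Z) : WType (CL1Ar α B) → Z
  | ⟨none, _⟩ => z₀
  | ⟨some a, g⟩ => f a fun b => CL1ev f z₀ (g b)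

/-- The version of `exists_closed` with a given element. -/
theorem CL1_ne {Z α B : Type} (hB : ℵ₀ ≤ #B) (hα : #α ≤ 2 ^ #B) (f : α → (B → Z) → Z) (z₀ : Z) :
    ∃ K : Set Z, z₀ ∈ K ∧ #K ≤ 2 ^ #B ∧ ∀ a (v : B → Z), (∀ b, v b ∈ K) → f a v ∈ K := by
  have hκ : ℵ₀ ≤ 2 ^ #B := hB.trans (cantor _).le
  refine ⟨range (CL1ev f z₀), ⟨⟨none, Empty.elim⟩, by simp [CL1ev]⟩, ?_, fun a v hv => ?_⟩
  · refine mk_range_le.trans (WType.cardinalMk_le_of_le ?_)
    have h1 : ∀ o : Option α, (2 ^ #B : Cardinal.{0}) ^ #(CL1Ar α B o) ≤ 2 ^ #B := by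
      rintro (_ | a)
      · change (2 ^ #B : Cardinal.{0}) ^ #Empty ≤ 2 ^ #B
        rw [mk_eq_zero Empty, power_zero]
        exact one_le_aleph0.trans hκ
      · change (2 ^ #B : Cardinal.{0}) ^ #B ≤ 2 ^ #B
        rw [← power_mul, mul_eq_self hB]
    refine (sum_le_sum _ _ h1).trans ?_
    rw [sum_const', mk_option]
    refine (mul_le_mul' (add_le_of_le hκ hα (one_le_aleph0.trans hκ)) le_rfl).trans ?_
    rw [mul_eq_self hκ]
  · choose w hw using hv
    exact ⟨⟨some a, w⟩, by simp only [CL1ev, hw]⟩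

/-- Row CL1: closure under operations of arity `τ = #B`.  Proof: the range of the evaluation map of
the `W`-type with nodes `α` and arities `B` (`WType.cardinalMk_le_of_le`). -/
theorem exists_closed {Z α B : Type} (hB : ℵ₀ ≤ #B) (hα : #α ≤ 2 ^ #B) (f : α → (B → Z) → Z) :
    ∃ K : Set Z, #K ≤ 2 ^ #B ∧ ∀ a (v : B → Z), (∀ b, v b ∈ K) → f a v ∈ K := by
  rcases isEmpty_or_nonempty Z with hZ | ⟨⟨z₀⟩⟩
  · refine ⟨∅, by simp, fun a v _ => ?_⟩
    obtain ⟨b⟩ := (mk_ne_zero_iff.1 (aleph0_pos.trans_le hB).ne' : Nonempty B)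
    exact (hZ.false (v b)).elim
  · obtain ⟨K, -, h1, h2⟩ := CL1_ne hB hα f z₀
    exact ⟨K, h1, h2⟩

end Pool.UL
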