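import Pool.Agent.Lib.MP_9fc97b_ul.CL1

/-!
# UL, row CL2: closure for the proof of (LC)
-/

set_option autoImplicit false

open Cardinal Set Order

namespace Pool.UL

/-- A nonempty set of size at most `#B` is the range of a function on `B`. -/
private lemma CL2_enum {Ω B : Type} {S : Set Ω} (h0 : S.Nonempty) (h : #S ≤ #B) :
    ∃ e : B → Ω, range e = S := by
  obtain ⟨g⟩ := h
  obtain ⟨s₀, hs₀⟩ := h0
  classical
  have : Nonempty S := ⟨⟨s₀, hs₀⟩⟩
  refine ⟨fun b => (Function.invFun g b : S), ?_⟩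
  ext x
  constructor
  · rintro ⟨b, rfl⟩
    exact Subtype.property _
  · intro hx
    exact ⟨g ⟨x, hx⟩, by simp only [Function.leftInverse_invFun g.injective _]⟩

/-- Row CL2: a set `K` of size `2 ^ τ` such that witnesses `(c', a')` of `P l` which extend a given
`c₀` with domain inside `K × K` and avoid a given small subset `C` of `K` can be found inside `K`.

Proof: `B` a type with `#B = τ`, nodes `α = L × (B → B → Option Bool) × Set B × B`; for
`v : B → Ω` let `c₀ (v i, v j) = bits i j`, `C = v '' D`, choose a witness `(c', a')` (if there is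
one), enumerate the coordinates of the elements of its domain and `a'` by `B`, and let
`f (l, bits, D, i) v` be the `i`-th element of this enumeration.  Apply `exists_closed`
(add a fixed element of `Ω` so that `K` is not empty). -/
theorem exists_closure {Ω L : Type} [Nonempty Ω] {τ : Cardinal.{0}} (hτ : ℵ₀ ≤ τ)
    (hL : #L ≤ 2 ^ τ) (P : L → PO Ω → Ω → Prop) :
    ∃ K : Set Ω, #K ≤ 2 ^ τ ∧ ∀ (l : L) (c₀ : PO Ω), IsCo τ c₀ →
      (∀ z, c₀ z ≠ none → z.1 ∈ K ∧ z.2 ∈ K) → ∀ C ⊆ K, #C ≤ τ →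
      (∃ c' a', IsCo τ c' ∧ Sub c₀ c' ∧ a' ∉ C ∧ P l c' a') →
      ∃ c' a', IsCo τ c' ∧ Sub c₀ c' ∧ a' ∉ C ∧ a' ∈ K ∧
        (∀ z, c' z ≠ none → z.1 ∈ K ∧ z.2 ∈ K) ∧ P l c' a' := by
  classical
  obtain ⟨B, rfl⟩ : ∃ B : Type, #B = τ := ⟨τ.out, mk_out τ⟩
  obtain ⟨ω₀⟩ := ‹Nonempty Ω›
  -- the property of a witness
  let Q : L × (B → B → Option Bool) × Set B → (B → Ω) → PO Ω × Ω → Prop := fun p v w =>
    ∃ c₀ : PO Ω, (∀ i j, c₀ (v i, v j) = p.2.1 i j) ∧ (∀ z, c₀ z ≠ none → ∃ i j, z = (v i, v j)) ∧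
      IsCo (#B) w.1 ∧ Sub c₀ w.1 ∧ w.2 ∉ v '' p.2.2 ∧ P p.1 w.1 w.2
  -- the enumeration of the coordinates of a witness
  have hE : ∀ w : PO Ω × Ω, IsCo (#B) w.1 → ∃ e : B → Ω, range e =
      insert w.2 (Prod.fst '' pdom w.1 ∪ Prod.snd '' pdom w.1) := by
    intro w hw
    refine CL2_enum (insert_nonempty _ _) ?_
    refine (mk_insert_le).trans (add_le_of_le hτ ?_ (one_le_aleph0.trans hτ))
    refine (mk_union_le _ _).trans (add_le_of_le hτ (mk_image_le.trans hw) (mk_image_le.trans hw))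
  have hF : ∀ (p : L × (B → B → Option Bool) × Set B) (v : B → Ω), ∃ (w : PO Ω × Ω) (e : B → Ω),
      (∃ w, Q p v w) → Q p v w ∧
        range e = insert w.2 (Prod.fst '' pdom w.1 ∪ Prod.snd '' pdom w.1) := by
    intro p v
    by_cases h : ∃ w, Q p v w
    · obtain ⟨w, hw⟩ := h
      obtain ⟨e, he⟩ := hE w hw.choose_spec.2.2.1
      exact ⟨w, e, fun _ => ⟨hw, he⟩⟩
    · exact ⟨(fun _ => none, ω₀), fun _ => ω₀, fun h' => absurd h' h⟩
  choose w e hwe using hF
  have hκ : ℵ₀ ≤ (2 : Cardinal.{0}) ^ #B := hτ.trans (cantor _).le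
  have hα : #((L × (B → B → Option Bool) × Set B) × B) ≤ 2 ^ #B := by
    have h1 : #(B → B → Option Bool) ≤ 2 ^ #B := by
      have h2 : #(Option Bool) ≤ 2 ^ #B := by
        refine le_trans ?_ hκ
        exact (lt_aleph0_of_finite _).le
      calc #(B → B → Option Bool) = (#(Option Bool) ^ #B) ^ #B := by simp
        _ ≤ ((2 ^ #B) ^ #B) ^ #B := power_le_power_right (power_le_power_right h2)
        _ = 2 ^ #B := by rw [← power_mul, ← power_mul, mul_eq_self hτ, mul_eq_self hτ]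
    have h3 : #(Set B) ≤ 2 ^ #B := by rw [mk_set]
    rw [mk_prod, mk_prod, mk_prod]
    simp only [lift_id]
    exact mul_le_of_le hκ (mul_le_of_le hκ hL (mul_le_of_le hκ h1 h3)) (cantor _).le
  obtain ⟨K, hω₀, hK, hcl⟩ := CL1_ne hτ hα (fun a v => e a.1 v a.2) ω₀
  refine ⟨K, hK, fun l c₀ hc₀ hdom C hCK hC ⟨c', a', hc', hsub, ha', hP⟩ => ?_⟩
  have hS : #(insert ω₀ (C ∪ (Prod.fst '' pdom c₀ ∪ Prod.snd '' pdom c₀)) : Set Ω) ≤ #B := by
    refine (mk_insert_le).trans (add_le_of_le hτ ?_ (one_le_aleph0.trans hτ))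
    refine (mk_union_le _ _).trans (add_le_of_le hτ hC ?_)
    exact (mk_union_le _ _).trans
      (add_le_of_le hτ (mk_image_le.trans hc₀) (mk_image_le.trans hc₀))
  obtain ⟨v, hv⟩ := CL2_enum (insert_nonempty _ _) hS
  have hvK : ∀ b, v b ∈ K := by
    intro b
    have h1 : v b ∈ insert ω₀ (C ∪ (Prod.fst '' pdom c₀ ∪ Prod.snd '' pdom c₀)) := by
      rw [← hv]
      exact mem_range_self b
    rcases h1 with h1 | h1 | ⟨z, hz, h1⟩ | ⟨z, hz, h1⟩
    · rw [h1]
      exact hω₀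
    · exact hCK h1
    · rw [← h1]
      exact (hdom z hz).1
    · rw [← h1]
      exact (hdom z hz).2
  have hcov : ∀ z, c₀ z ≠ none → ∃ i j, z = (v i, v j) := by
    intro z hz
    have h1 : z.1 ∈ range v := by
      rw [hv]
      exact Or.inr (Or.inr (Or.inl ⟨z, hz, rfl⟩))
    have h2 : z.2 ∈ range v := by
      rw [hv]
      exact Or.inr (Or.inr (Or.inr ⟨z, hz, rfl⟩))
    obtain ⟨i, hi⟩ := h1
    obtain ⟨j, hj⟩ := h2
    exact ⟨i, j, by rw [hi, hj]⟩
  have hCv : v '' (v ⁻¹' C) = C := by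
    rw [image_preimage_eq_inter_range, inter_eq_left]
    intro x hx
    rw [hv]
    exact Or.inr (Or.inl hx)
  let p : L × (B → B → Option Bool) × Set B := (l, fun i j => c₀ (v i, v j), v ⁻¹' C)
  have hex : ∃ w, Q p v w := by
    refine ⟨(c', a'), c₀, fun i j => rfl, hcov, hc', hsub, ?_, hP⟩
    change a' ∉ v '' (v ⁻¹' C)
    rw [hCv]
    exact ha'
  obtain ⟨⟨c₁, h1, h2, h3, h4, h5, h6⟩, h7⟩ := hwe p v hex
  have hc₁ : c₁ = c₀ := by
    funext z
    by_cases hz : c₀ z = none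
    · by_contra hne
      rw [hz] at hne
      obtain ⟨i, j, hij⟩ := h2 z hne
      apply hne
      rw [hij, h1 i j]
      change c₀ (v i, v j) = none
      rw [← hij, hz]
    · obtain ⟨i, j, hij⟩ := hcov z hz
      rw [hij, h1 i j]
  subst hc₁
  have hin : ∀ x ∈ insert (w p v).2 (Prod.fst '' pdom (w p v).1 ∪ Prod.snd '' pdom (w p v).1),
      x ∈ K := by
    intro x hx
    rw [← h7] at hx
    obtain ⟨i, rfl⟩ := hx
    exact hcl (p, i) v hvK
  refine ⟨(w p v).1, (w p v).2, h3, h4, ?_, hin _ (mem_insert _ _), fun z hz => ⟨?_, ?_⟩, h6⟩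
  · intro h
    apply h5
    change (w p v).2 ∈ v '' (v ⁻¹' C)
    rw [hCv]
    exact h
  · exact hin _ (Or.inr (Or.inl ⟨z, hz, rfl⟩))
  · exact hin _ (Or.inr (Or.inr ⟨z, hz, rfl⟩))

end Pool.UL
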