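import Pool.Agent.Lib.MP_9fc97b_ul.CardBase

/-!
# UL, row CX1
-/

set_option autoImplicit false
set_option linter.unusedSectionVars false

open Cardinal Set Order

namespace Pool.UL

/-- Decoding of a partial function. -/
private noncomputable def CX1_dec {Z B : Type} (F : B → Option (Z × Bool)) : PF Z := by
  classical
  exact fun z => if h : ∃ v b, F b = some (z, v) then some h.choose else none

/-- The number of partial functions with a small domain. -/
lemma mk_IsCo_le {Z : Type} {θ c : Cardinal.{0}} (hc : ℵ₀ ≤ c) (hZ : #Z ≤ c) (hp : c ^ θ ≤ c) :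
    #{d : PF Z | IsCo θ d} ≤ c := by
  classical
  obtain ⟨B, hB⟩ : ∃ B : Type, #B = θ := ⟨θ.out, Cardinal.mk_out θ⟩
  have hsub : {d : PF Z | IsCo θ d} ⊆ Set.range (CX1_dec (Z := Z) (B := B)) := by
    intro d hd
    have hd' : #(pdom d) ≤ #B := by rw [hB]; exact hd
    obtain ⟨e⟩ := (Cardinal.le_def _ _).1 hd'
    refine ⟨fun b => if h : ∃ z : pdom d, e z = b then
      (d h.choose.1).map (fun v => (h.choose.1, v)) else none, ?_⟩
    have key : ∀ (z : Z) (v : Bool), (∃ b, (fun b => if h : ∃ z : pdom d, e z = b then
        (d h.choose.1).map (fun v => (h.choose.1, v)) else none) b = some (z, v)) ↔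
        d z = some v := by
      intro z v
      constructor
      · rintro ⟨b, hb⟩
        simp only at hb
        split_ifs at hb with h
        rw [Option.map_eq_some_iff] at hb
        obtain ⟨w, hw, hw'⟩ := hb
        rw [Prod.mk.injEq] at hw'
        obtain ⟨h1, h2⟩ := hw'
        rw [← h1, ← h2]
        exact hw
      · intro hz
        have hz' : z ∈ pdom d := by
          change d z ≠ none
          rw [hz]
          exact Option.some_ne_none v
        refine ⟨e ⟨z, hz'⟩, ?_⟩
        have h : ∃ z' : pdom d, e z' = e ⟨z, hz'⟩ := ⟨⟨z, hz'⟩, rfl⟩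
        have h1 : h.choose = ⟨z, hz'⟩ := e.injective h.choose_spec
        simp only
        rw [dif_pos h, h1]
        simp [hz]
    funext z
    unfold CX1_dec
    by_cases h : ∃ v b, (fun b => if h : ∃ z : pdom d, e z = b then
        (d h.choose.1).map (fun v => (h.choose.1, v)) else none) b = some (z, v)
    · rw [dif_pos h]
      exact ((key z _).1 h.choose_spec).symm
    · rw [dif_neg h]
      by_contra hne
      obtain ⟨v, hv⟩ := Option.ne_none_iff_exists'.1 (Ne.symm hne)
      exact h ⟨v, (key z v).2 hv⟩
  refine (mk_le_mk_of_subset hsub).trans (mk_range_le.trans ?_)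
  have h1 : #(B → Option (Z × Bool)) = (#Z * 2 + 1) ^ θ := by
    rw [← hB, mk_arrow, Cardinal.lift_id, Cardinal.lift_id, mk_option, mk_prod, Cardinal.lift_id,
      Cardinal.lift_id, mk_bool]
  rw [h1]
  refine le_trans (Cardinal.power_le_power_right ?_) hp
  have h2 : #Z * 2 ≤ c :=
    (mul_le_mul' hZ ((natCast_lt_aleph0 (n := 2)).le.trans hc)).trans (mul_eq_self hc).le
  exact (add_le_add h2 (one_le_aleph0.trans hc)).trans (add_eq_self hc).le
end Pool.UL
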