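import Pool.Agent.Lib.MP_9fc97b_ul.CX1

/-!
# UL, row CX2
-/

set_option autoImplicit false
set_option linter.unusedSectionVars false

open Cardinal Set Order

namespace Pool.UL

variable {Ω : Type} [LinearOrder Ω] [WellFoundedLT Ω] {X Θ : Type} [D : PE Ω X Θ]

/-- The number of Cohen conditions below `T m`. -/
lemma mk_bel_le {m : Ω} (hm : m ∈ D.W) {θ : Cardinal.{0}} (hθ : θ ≤ crd m) :
    #{c : PO Ω | IsCo θ c ∧ Bel c (PE.T X Θ m)} ≤ th X Θ m := by
  have h1 : ℵ₀ ≤ th X Θ m := (aleph0_lt_th hm).le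
  have h2 : #(Iio (PE.T X Θ m) × Iio (PE.T X Θ m)) ≤ th X Θ m := by
    rw [← Cardinal.mul_def, mk_Iio_T]
    exact (mul_eq_self h1).le
  refine le_trans ?_ (mk_IsCo_le h1 h2 (th_pow' hm hθ))
  refine mk_le_of_injective (f := fun c => ⟨fun z => c.1 (z.1.1, z.2.1), ?_⟩) ?_
  · have h3 := c.2.1
    change #(pdom _) ≤ θ
    refine le_trans ?_ h3
    refine mk_le_of_injective (f := fun z => ⟨(z.1.1.1, z.1.2.1), z.2⟩) ?_
    rintro ⟨⟨⟨a, ha⟩, ⟨b, hb⟩⟩, hz⟩ ⟨⟨⟨a', ha'⟩, ⟨b', hb'⟩⟩, hz'⟩ h
    simp only [Subtype.mk.injEq, Prod.mk.injEq] at h ⊢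
    exact h
  · rintro ⟨c, hc, hb⟩ ⟨c', hc', hb'⟩ h
    simp only [Subtype.mk.injEq] at h ⊢
    have key : ∀ (c c' : PO Ω), Bel c (PE.T X Θ m) →
        ((fun z : Iio (PE.T X Θ m) × Iio (PE.T X Θ m) => c (z.1.1, z.2.1)) =
          fun z => c' (z.1.1, z.2.1)) → ∀ a b, c a = some b → c' a = some b := by
      intro c c' hb h a b hab
      obtain ⟨h3, h4⟩ := hb a b hab
      have h5 := congrFun h (⟨a.1, h3⟩, ⟨a.2, h4⟩)
      simp only at h5
      change c a = c' a at h5
      rw [← h5, hab]
    funext a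
    rcases h6 : c a with _ | b
    · rcases h7 : c' a with _ | b
      · rfl
      · have h8 := key c' c hb' h.symm a b h7
        rw [h6] at h8
        exact absurd h8 (by simp)
    · exact (key c c' hb h a b h6).symm

/-- The number of lower parts of a stem. -/
lemma mk_low_le {m : Ω} {s : List Ω} : #{r : List (PO Ω) | LowV X Θ (m :: s) r} ≤ th X Θ m := by
  induction s generalizing m with
  | nil =>
    rcases Set.eq_empty_or_nonempty {r : List (PO Ω) | LowV X Θ [m] r} with h0 | ⟨r₀, hr₀⟩
    · rw [h0]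
      simp
    have hm : m ∈ PE.W X Θ := LowV.mem_W hr₀
    refine le_trans ?_ (mk_bel_le hm (θ := 0) (zero_le))
    refine mk_le_of_injective (f := fun r => ⟨r.1.headD (fun _ => none), ?_⟩) ?_
    · obtain ⟨r, hr⟩ := r
      cases r with
      | nil => exact absurd hr (by simp [LowV])
      | cons c r => exact ⟨hr.2.2.1, hr.2.2.2.1⟩
    · rintro ⟨r, hr⟩ ⟨r', hr'⟩ h
      cases r with
      | nil => exact absurd hr (by simp [LowV])
      | cons c r =>
        cases r' with
        | nil => exact absurd hr' (by simp [LowV])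
        | cons c' r' =>
          have h1 : r = [] := by
            cases r with
            | nil => rfl
            | cons c r => exact absurd hr.2.2.2.2 (by simp [LowV])
          have h2 : r' = [] := by
            cases r' with
            | nil => rfl
            | cons c r => exact absurd hr'.2.2.2.2 (by simp [LowV])
          simp only [List.headD_cons, Subtype.mk.injEq] at h
          subst h h1 h2
          rfl
  | cons m₀ s ih =>
    rcases Set.eq_empty_or_nonempty {r : List (PO Ω) | LowV X Θ (m :: m₀ :: s) r} with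
      h0 | ⟨r₀, hr₀⟩
    · rw [h0]
      simp
    have hm : m ∈ PE.W X Θ := LowV.mem_W hr₀
    have hlt : m₀ < m := by
      cases r₀ with
      | nil => exact absurd hr₀ (by simp [LowV])
      | cons c r => exact hr₀.2.1 m₀ (by simp)
    have h1 : th X Θ m₀ < crd m := th_lt_crd hm hlt
    have h2 : th X Θ m₀ ≤ th X Θ m := h1.le.trans (crd_le_th hm)
    have h3 : #({c : PO Ω | IsCo (th X Θ m₀) c ∧ Bel c (PE.T X Θ m)} ×
        {r : List (PO Ω) | LowV X Θ (m₀ :: s) r}) ≤ th X Θ m := by
      rw [← Cardinal.mul_def]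
      exact (mul_le_mul' (mk_bel_le hm h1.le) (ih.trans h2)).trans
        (mul_eq_self (aleph0_lt_th hm).le).le
    refine le_trans ?_ h3
    refine mk_le_of_injective (f := fun r => (⟨r.1.headD (fun _ => none), ?_⟩,
      ⟨r.1.tail, ?_⟩)) ?_
    · obtain ⟨r, hr⟩ := r
      cases r with
      | nil => exact absurd hr (by simp [LowV])
      | cons c r => exact ⟨hr.2.2.1, hr.2.2.2.1⟩
    · obtain ⟨r, hr⟩ := r
      cases r with
      | nil => exact absurd hr (by simp [LowV])
      | cons c r => exact hr.2.2.2.2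
    · rintro ⟨r, hr⟩ ⟨r', hr'⟩ h
      cases r with
      | nil => exact absurd hr (by simp [LowV])
      | cons c r =>
        cases r' with
        | nil => exact absurd hr' (by simp [LowV])
        | cons c' r' =>
          simp only [List.headD_cons, List.tail_cons, Prod.mk.injEq, Subtype.mk.injEq] at h
          obtain ⟨h4, h5⟩ := h
          subst h4 h5
          rfl
end Pool.UL
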