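import Pool.Agent.Lib.MP_9fc97b_ul.CardBase

/-!
# UL, row CX3
-/

set_option autoImplicit false
set_option linter.unusedSectionVars false

open Cardinal Set Order

namespace Pool.UL

variable {Ω : Type} [LinearOrder Ω] [WellFoundedLT Ω] {X Θ : Type} [D : PE Ω X Θ]

/-- An enumeration of the domain of a small partial function. -/
private lemma CX3_enum {ι Z : Type} (d : PF Z) (hd : IsCo (#ι) d) :
    ∃ e : ι → Option Z, ∀ a, (d a ≠ none ↔ ∃ i, e i = some a ∧ d a ≠ none) := by
  classical
  have h1 : Nonempty (pdom d ↪ ι) := by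
    rw [← Cardinal.le_def]
    exact hd
  obtain ⟨f⟩ := h1
  refine ⟨fun i => if h : ∃ a : pdom d, f a = i then some h.choose.1 else none, fun a => ?_⟩
  constructor
  · intro ha
    have ha' : a ∈ pdom d := ha
    refine ⟨f ⟨a, ha'⟩, ?_, ha⟩
    have h : ∃ b : pdom d, f b = f ⟨a, ha'⟩ := ⟨_, rfl⟩
    have h2 := f.injective h.choose_spec
    refine (dif_pos h).trans ?_
    rw [h2]
  · rintro ⟨-, -, ha⟩
    exact ha

/-- Normality for Cohen conditions: if `c x` is a condition below `T(κ_x)` for almost all `x`, it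
is the transfer of a fixed condition on `Θ × Θ` for almost all `x`. -/
lemma tr_const {θ : Cardinal.{0}} (hθ : θ < D.κ) (c : X → PO Ω)
    (h : ∀ᶠ x in (D.U : Filter X), IsCo θ (c x) ∧ Bel (c x) (PE.T X Θ (D.kx x))) :
    ∃ c₀ : PS Θ, IsCo θ c₀ ∧ ∀ᶠ x in (D.U : Filter X), tr x c₀ = c x := by
  classical
  obtain ⟨ι, rfl⟩ : ∃ ι : Type, #ι = θ := ⟨θ.out, Cardinal.mk_out θ⟩
  have hne : Nonempty Ω := by
    rw [← mk_ne_zero_iff, D.mk_Ω]
    exact D.κ_inacc.ne_zero
  obtain ⟨a₀⟩ := hne
  have hd : ∀ x : X, ∃ e : ι → Option (Ω × Ω), IsCo (#ι) (c x) →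
      ∀ a, (c x a ≠ none ↔ ∃ i, e i = some a ∧ c x a ≠ none) := by
    intro x
    by_cases hx : IsCo (#ι) (c x)
    · obtain ⟨e, he⟩ := CX3_enum (c x) hx
      exact ⟨e, fun _ => he⟩
    · exact ⟨fun _ => none, fun h' => absurd h' hx⟩
  choose e he using hd
  -- the values
  let v : X → ι → Option Bool := fun x i => (e x i).bind (c x)
  have hv : ∃ v₀ : ι → Option Bool, ∀ᶠ x in (D.U : Filter X), ∀ i, v x i = v₀ i := by
    have h1 : ∀ i, ∃ z, ∀ᶠ x in (D.U : Filter X), v x i = z := fun i =>
      eventually_const (Z := Option Bool)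
        ((Cardinal.lt_aleph0_of_finite _).trans D.κ_inacc.aleph0_lt) (fun x => v x i)
    choose v₀ hv₀ using h1
    exact ⟨v₀, complete hθ (fun i => {x | v x i = v₀ i}) hv₀⟩
  obtain ⟨v₀, hv₀⟩ := hv
  -- the coordinates: where the value is not none
  let p : X → ι → Ω × Ω := fun x i =>
    match e x i with
    | none => (a₀, a₀)
    | some a => if c x a ≠ none then a else (a₀, a₀)
  have hp : ∀ᶠ x in (D.U : Filter X), ∀ i, (p x i).1 < PE.T X Θ (D.kx x) ∧
      (p x i).2 < PE.T X Θ (D.kx x) := by
    filter_upwards [h, D.unb a₀, D.kx_W] with x hx hx0 hxW i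
    have h0 : a₀ < PE.T X Θ (D.kx x) := hx0.trans_le (D.T_ge _ hxW)
    change (match e x i with
      | none => (a₀, a₀)
      | some a => if c x a ≠ none then a else (a₀, a₀)).1 < _ ∧ (match e x i with
      | none => (a₀, a₀)
      | some a => if c x a ≠ none then a else (a₀, a₀)).2 < _
    cases h1 : e x i with
    | none => exact ⟨h0, h0⟩
    | some a =>
      by_cases h2 : c x a ≠ none
      · simp only [if_pos h2]
        obtain ⟨b, hb⟩ := Option.ne_none_iff_exists'.1 h2
        exact hx.2 a b hb
      · simp only [if_neg h2]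
        exact ⟨h0, h0⟩
  obtain ⟨s₁, hs₁⟩ := const_fam (D := D) hθ (fun x i => D.g x (p x i).1)
    (hp.mono fun x hx i => ⟨_, (hx i).1, rfl⟩)
  obtain ⟨s₂, hs₂⟩ := const_fam (D := D) hθ (fun x i => D.g x (p x i).2)
    (hp.mono fun x hx i => ⟨_, (hx i).2, rfl⟩)
  let c₀ : PS Θ := fun q =>
    if hq : ∃ i, (s₁ i, s₂ i) = q ∧ v₀ i ≠ none then v₀ hq.choose else none
  refine ⟨c₀, ?_, ?_⟩
  · have h1 : pdom c₀ ⊆ Set.range fun i : ι => (s₁ i, s₂ i) := by
      intro q hq
      have hq' : c₀ q ≠ none := hq
      by_cases h2 : ∃ i, (s₁ i, s₂ i) = q ∧ v₀ i ≠ none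
      · exact ⟨h2.choose, h2.choose_spec.1⟩
      · exact absurd (dif_neg h2) hq'
    exact (mk_le_mk_of_subset h1).trans mk_range_le
  · filter_upwards [h, hv₀, hs₁, hs₂, hp, D.kx_W] with x hx hxv hx1 hx2 hxp hxW
    funext a
    have key : ∀ i b, e x i = some b → c x b ≠ none → p x i = b := by
      intro i b hb hb'
      change (match e x i with
        | none => (a₀, a₀)
        | some a => if c x a ≠ none then a else (a₀, a₀)) = b
      rw [hb]
      exact if_pos hb'
    unfold tr
    split_ifs with ha
    · by_cases hq : ∃ i, (s₁ i, s₂ i) = (D.g x a.1, D.g x a.2) ∧ v₀ i ≠ none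
      · change (if hq : ∃ i, (s₁ i, s₂ i) = (D.g x a.1, D.g x a.2) ∧ v₀ i ≠ none
          then v₀ hq.choose else none) = _
        rw [dif_pos hq]
        obtain ⟨h3, h4⟩ := hq.choose_spec
        set i := hq.choose with hi
        have h5 : v x i = v₀ i := hxv i
        rw [← h5] at h4 ⊢
        change (e x i).bind (c x) ≠ none at h4
        change (e x i).bind (c x) = c x a
        cases h6 : e x i with
        | none => rw [h6] at h4; exact absurd rfl h4
        | some b =>
          rw [h6] at h4
          have h4' : c x b ≠ none := h4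
          have h7 := key i b h6 h4'
          have h8 : D.g x b.1 = D.g x a.1 := by
            have h9 := congrFun hx1 i
            change D.g x (p x i).1 = s₁ i at h9
            rw [h7] at h9
            rw [h9]
            exact congrArg Prod.fst h3
          have h8' : D.g x b.2 = D.g x a.2 := by
            have h9 := congrFun hx2 i
            change D.g x (p x i).2 = s₂ i at h9
            rw [h7] at h9
            rw [h9]
            exact congrArg Prod.snd h3
          obtain ⟨w, hw⟩ := Option.ne_none_iff_exists'.1 h4'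
          have hb := hx.2 b w hw
          have h10 : b.1 = a.1 := by
            rw [← D.hg x hxW b.1 hb.1, h8, D.hg x hxW a.1 ha.1]
          have h11 : b.2 = a.2 := by
            rw [← D.hg x hxW b.2 hb.2, h8', D.hg x hxW a.2 ha.2]
          have h12 : b = a := Prod.ext h10 h11
          rw [h12]
          rfl
      · change (if hq : ∃ i, (s₁ i, s₂ i) = (D.g x a.1, D.g x a.2) ∧ v₀ i ≠ none
          then v₀ hq.choose else none) = _
        rw [dif_neg hq]
        by_contra hcon
        have hcon' : c x a ≠ none := fun h' => hcon h'.symm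
        obtain ⟨i, hi, -⟩ := (he x hx.1 a).1 hcon'
        apply hq
        have h7 := key i a hi hcon'
        refine ⟨i, ?_, ?_⟩
        · have h9 := congrFun hx1 i
          have h9' := congrFun hx2 i
          change D.g x (p x i).1 = s₁ i at h9
          change D.g x (p x i).2 = s₂ i at h9'
          rw [h7] at h9 h9'
          rw [h9, h9']
        · rw [← hxv i]
          change (e x i).bind (c x) ≠ none
          rw [hi]
          exact hcon'
    · by_contra hcon
      have hcon' : c x a ≠ none := fun h' => hcon h'.symm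
      obtain ⟨w, hw⟩ := Option.ne_none_iff_exists'.1 hcon'
      exact ha (hx.2 a w hw)

end Pool.UL
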