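import Pool.Agent.Lib.MP_9fc97b_ul.CardBase

/-!
# UL, row CX4
-/

set_option autoImplicit false
set_option linter.unusedSectionVars false

open Cardinal Set Order

namespace Pool.UL

variable {Ω : Type} [LinearOrder Ω] [WellFoundedLT Ω] {X Θ : Type} [D : PE Ω X Θ]

/-- One point: an enumeration of a small set of values. -/
lemma CX4_enum {Z : Type} (G : Set Ω) (gx : Ω → Z) (k : Ω) (hne : G.Nonempty) (hG : #G ≤ crd k) :
    ∃ φ : Ω → Z, (∀ b, ∃ a ∈ G, φ b = gx a) ∧ ∀ a ∈ G, ∃ b < k, φ b = gx a := by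
  classical
  obtain ⟨a0, ha0⟩ := hne
  obtain ⟨f⟩ : Nonempty (G ↪ Iio k) := hG
  refine ⟨fun b => if h : ∃ a : G, (f a : Ω) = b then gx h.choose else gx a0, fun b => ?_,
    fun a ha => ?_⟩
  · by_cases h : ∃ a : G, (f a : Ω) = b
    · exact ⟨h.choose, h.choose.2, by simp only [dif_pos h]⟩
    · exact ⟨a0, ha0, by simp only [dif_neg h]⟩
  · refine ⟨f ⟨a, ha⟩, (f ⟨a, ha⟩).2, ?_⟩
    have h : ∃ a' : G, (f a' : Ω) = f ⟨a, ha⟩ := ⟨⟨a, ha⟩, rfl⟩
    have h2 : h.choose = ⟨a, ha⟩ := f.injective (Subtype.ext h.choose_spec)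
    simp only [dif_pos h]
    rw [h2]

/-- SEPARATION: only `κ` many coordinates have their values in a given small set. -/
lemma sep (Y : X → Set Ω) (hY : ∀ᶠ x in (D.U : Filter X), #(Y x) ≤ crd (D.kx x)) :
    #{s : Θ | ∀ᶠ x in (D.U : Filter X), D.h s x ∈ Y x} ≤ D.κ := by
  classical
  set E : Set Θ := {s : Θ | ∀ᶠ x in (D.U : Filter X), D.h s x ∈ Y x} with hE
  by_cases hne : E.Nonempty
  swap
  · rw [not_nonempty_iff_eq_empty.1 hne, mk_eq_zero]
    exact zero_le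
  obtain ⟨s0, hs0⟩ := hne
  have h1 : ∀ᶠ x in (D.U : Filter X), ∀ a < PE.T X Θ (D.kx x), D.g x a ∈ E →
      D.h (D.g x a) x ∈ Y x := by
    have := D.diagS (fun s => {x | s ∈ E → D.h s x ∈ Y x}) (fun s => by
      by_cases hs : s ∈ E
      · exact Filter.mem_of_superset hs fun x hx _ => hx
      · exact Filter.mem_of_superset Filter.univ_mem fun x _ h => absurd h hs)
    exact this
  let G : X → Set Ω := fun x => {a | a < PE.T X Θ (D.kx x) ∧ D.g x a ∈ E}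
  have h2 : ∀ᶠ x in (D.U : Filter X), #(G x) ≤ crd (D.kx x) ∧ (G x).Nonempty := by
    filter_upwards [h1, D.kx_W, hY, D.fine s0] with x hx1 hx2 hx3 hx4
    refine ⟨(mk_le_mk_of_subset fun a ha => ?_).trans hx3, ⟨D.h s0 x, hx4.1, ?_⟩⟩
    · have h := hx1 a ha.1 ha.2
      rwa [D.hg x hx2 a ha.1] at h
    · rw [hx4.2]
      exact hs0
  have h3 : ∀ x, ∃ φ : Ω → Θ, (#(G x) ≤ crd (D.kx x) ∧ (G x).Nonempty) →
      (∀ b, ∃ a ∈ G x, φ b = D.g x a) ∧ ∀ a ∈ G x, ∃ b < D.kx x, φ b = D.g x a := by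
    intro x
    by_cases h : #(G x) ≤ crd (D.kx x) ∧ (G x).Nonempty
    · obtain ⟨φ, hφ⟩ := CX4_enum (G x) (D.g x) (D.kx x) h.2 h.1
      exact ⟨φ, fun _ => hφ⟩
    · exact ⟨fun _ => s0, fun h' => absurd h' h⟩
  choose φ hφ using h3
  have h4 : ∀ b : Ω, ∃ s, ∀ᶠ x in (D.U : Filter X), φ x b = s := by
    intro b
    refine const_S (fun x => φ x b) ?_
    filter_upwards [h2] with x hx
    obtain ⟨a, ha, hab⟩ := (hφ x hx).1 b
    exact ⟨a, ha.1, hab⟩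
  choose t ht using h4
  have h5 := D.diag (fun b : Ω => b) (fun b => {x | φ x b = t b}) (fun a => D.crd_lt a)
    (fun b => ht b)
  have h6 : E ⊆ range t := by
    intro s hs
    obtain ⟨x, ⟨hx2, hx5⟩, hx6⟩ := ((h2.and h5).and (D.fine s)).exists
    have ha : D.h s x ∈ G x := ⟨hx6.1, by rw [hx6.2]; exact hs⟩
    obtain ⟨b, hb, hb'⟩ := (hφ x hx2).2 _ ha
    refine ⟨b, ?_⟩
    have h7 : φ x b = t b := hx5 b hb
    rw [← h7, hb', hx6.2]
  exact (mk_le_mk_of_subset h6).trans (mk_range_le.trans D.mk_Ω.le)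
end Pool.UL
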