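import Pool.Agent.Lib.MP_9fc97b_ul.Cond

/-!
# UL, task C: cardinal arithmetic
-/

set_option autoImplicit false
set_option linter.unusedSectionVars false

open Cardinal Set Order

namespace Pool.UL

variable {Ω : Type} [LinearOrder Ω] [WellFoundedLT Ω] {X Θ : Type} [D : PE Ω X Θ]

omit [WellFoundedLT Ω] in
lemma crd_mono {a b : Ω} (h : a ≤ b) : crd a ≤ crd b :=
  mk_le_mk_of_subset (Iio_subset_Iio h)

/-- There are at most `θ` ordinals below `θ`. -/
lemma mk_crd_lt (θ : Cardinal.{0}) : #{a : Ω | crd a < θ} ≤ θ := by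
  have h0 : ∀ a : Ω, crd a < θ → Ordinal.typein (α := Ω) (· < ·) a ∈ Iio θ.ord := by
    intro a ha
    rw [mem_Iio, Cardinal.lt_ord, Ordinal.card_typein]
    exact ha
  have h : Function.Injective fun a : {a : Ω | crd a < θ} =>
      (⟨Ordinal.typein (α := Ω) (· < ·) a.1, h0 a.1 a.2⟩ : Iio θ.ord) := by
    intro a b hab
    have h1 := congrArg Subtype.val hab
    exact Subtype.ext (Ordinal.typein_injective (α := Ω) (· < ·) h1)
  have h2 := Cardinal.mk_le_of_injective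
    (Function.Injective.comp h (ULift.down_injective : Function.Injective
      (ULift.down : ULift.{1, 0} {a : Ω | crd a < θ} → _)))
  rw [Cardinal.mk_uLift, Cardinal.mk_Iio_ordinal, Cardinal.card_ord] at h2
  exact Cardinal.lift_le.1 h2

include D in
lemma mk_crd_lt_eq {θ : Cardinal.{0}} (hθ : θ ≤ D.κ) : #{a : Ω | crd a < θ} = θ := by
  refine le_antisymm (mk_crd_lt θ) ?_
  by_contra hlt
  rw [not_le] at hlt
  by_cases hT : {a : Ω | crd a < θ} = Set.univ
  · rw [hT, mk_univ, D.mk_Ω] at hlt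
    exact absurd hlt (not_lt.2 hθ)
  · have hne : ({a : Ω | crd a < θ}ᶜ).Nonempty := by
      rw [nonempty_compl]
      exact hT
    set a := (wellFounded_lt (α := Ω)).min _ hne with ha
    have h1 : a ∈ {a : Ω | crd a < θ}ᶜ := (wellFounded_lt (α := Ω)).min_mem _ hne
    have h2 : Iio a ⊆ {a : Ω | crd a < θ} := by
      intro b hb
      by_contra hb'
      exact (wellFounded_lt (α := Ω)).not_lt_min _ (show b ∈ {a : Ω | crd a < θ}ᶜ from hb') hb
    exact h1 ((mk_le_mk_of_subset h2).trans_lt hlt)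

lemma crd_lt_iff {m : Ω} (hm : m ∈ D.W) (a : Ω) : crd a < crd m ↔ a < m := by
  refine ⟨fun h => ?_, fun h => D.W_init m hm a h⟩
  by_contra h'
  exact absurd h (not_lt.2 (crd_mono (not_lt.1 h')))

lemma aleph0_lt_crd {m : Ω} (hm : m ∈ D.W) : ℵ₀ < crd m :=
  (D.W_inacc m hm).aleph0_lt

lemma crd_lt_crd {m m' : Ω} (hm' : m' ∈ D.W) (h : m < m') : crd m < crd m' :=
  D.W_init m' hm' m h

/-! ### The sizes `θ_m` -/

lemma crd_le_th {m : Ω} (hm : m ∈ D.W) : crd m ≤ th X Θ m := crd_mono (D.T_ge m hm)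

lemma aleph0_lt_th {m : Ω} (hm : m ∈ D.W) : ℵ₀ < th X Θ m := (aleph0_lt_crd hm).trans_le (crd_le_th hm)

/-- `θ_m < κ_m'` if `m < m'`, `m' ∈ W`. -/
lemma th_lt_crd {m m' : Ω} (hm' : m' ∈ D.W) (h : m < m') : th X Θ m < crd m' :=
  D.W_init m' hm' _ (D.W_T m' hm' m h)

lemma th_lt_κ (m : Ω) : th X Θ m < D.κ := D.crd_lt _

lemma th_mono {m m' : Ω} (hm' : m' ∈ D.W) (h : m ≤ m') : th X Θ m ≤ th X Θ m' := by
  rcases h.eq_or_lt with rfl | h
  · exact le_rfl
  · exact (th_lt_crd hm' h).le.trans (crd_le_th hm')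

lemma th_pow {m : Ω} (hm : m ∈ D.W) : th X Θ m ^ crd m ≤ th X Θ m := (D.T_pow m hm).le

/-- `θ_m` to the power of anything `≤ κ_m`. -/
lemma th_pow' {m : Ω} (hm : m ∈ D.W) {c : Cardinal.{0}} (hc : c ≤ crd m) :
    th X Θ m ^ c ≤ th X Θ m :=
  (power_le_power_left (aleph0_pos.trans (aleph0_lt_th hm)).ne' hc).trans (th_pow hm)

/-- There are `θ_m` ordinals below `T m`. -/
lemma mk_Iio_T (m : Ω) : #(Iio (PE.T X Θ m)) = th X Θ m := rfl

/-- A bounded set of small size of ordinals below `κ` has a strict upper bound. -/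
lemma exists_bound {E : Set Ω} {θ : Cardinal.{0}} (hθ : θ.IsRegular) (hθκ : θ ≤ D.κ)
    (hS : #E < θ) (h : ∀ a ∈ E, crd a < θ) : ∃ b : Ω, crd b < θ ∧ ∀ a ∈ E, a < b := by
  have h1 : #(⋃ a : E, Iic a.1) < θ := by
    rw [card_iUnion_lt_iff_forall_of_isRegular hθ hS]
    rintro ⟨a, ha⟩
    have h2 : Iic a ⊆ insert a (Iio a) := fun b hb => by
      rcases eq_or_lt_of_le hb with h3 | h3
      · exact Or.inl h3
      · exact Or.inr h3
    refine (mk_le_mk_of_subset h2).trans_lt (mk_insert_le.trans_lt ?_)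
    exact Cardinal.add_lt_of_lt hθ.aleph0_le (h a ha)
      (Cardinal.one_lt_aleph0.trans_le hθ.aleph0_le)
  have h2 : ∃ b ∈ {a : Ω | crd a < θ}, b ∉ ⋃ a : E, Iic a.1 := by
    by_contra h3
    push Not at h3
    have h4 := mk_le_mk_of_subset (show {a : Ω | crd a < θ} ⊆ ⋃ a : E, Iic a.1 from h3)
    rw [mk_crd_lt_eq (D := D) hθκ] at h4
    exact absurd h1 (not_lt.2 h4)
  obtain ⟨b, hb, hb'⟩ := h2
  refine ⟨b, hb, fun a ha => ?_⟩
  by_contra h3
  exact hb' (mem_iUnion.2 ⟨⟨a, ha⟩, not_lt.1 h3⟩)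

include D in
/-- `W` is unbounded. -/
lemma exists_mem_W (a : Ω) : ∃ m ∈ D.W, a < m := by
  obtain ⟨x, hx, hx'⟩ := (D.kx_W.and (D.unb a)).exists
  exact ⟨D.kx x, hx, hx'⟩

/-- The union of at most `θ`-many sets of size at most `θ`. -/
lemma mk_iUnion_le {ι Z : Type} {θ : Cardinal.{0}} (hθ : ℵ₀ ≤ θ) (hι : #ι ≤ θ) (E : ι → Set Z)
    (h : ∀ i, #(E i) ≤ θ) : #(⋃ i, E i) ≤ θ := by
  refine (Cardinal.mk_iUnion_le E).trans ?_
  refine (mul_le_mul' hι (ciSup_le' h)).trans ?_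
  exact (mul_eq_self hθ).le

/-! ### The ultrafilter -/

/-- Completeness of the ultrafilter. -/
lemma complete {Z : Type} (hZ : #Z < D.κ) (B : Z → Set X) (h : ∀ z, B z ∈ D.U) :
    ∀ᶠ x in (D.U : Filter X), ∀ z, x ∈ B z := by
  have hne : Nonempty Ω := by
    rw [← mk_ne_zero_iff, D.mk_Ω]
    exact D.κ_inacc.ne_zero
  obtain ⟨a₀⟩ := hne
  have h1 := D.diag (fun _ : Z => a₀) B (fun a => (mk_subtype_le _).trans_lt hZ) h
  filter_upwards [h1, D.unb a₀] with x hx hx' z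
  exact hx z hx'

/-- Normality: a regressive function is constant on a large set. -/
lemma regressive {Z : Type} (rk : Z → Ω) (hrk : ∀ a : Ω, #{z | rk z < a} < D.κ) (φ : X → Z)
    (h : ∀ᶠ x in (D.U : Filter X), rk (φ x) < D.kx x) :
    ∃ z, ∀ᶠ x in (D.U : Filter X), φ x = z := by
  by_contra hcon
  push Not at hcon
  have h1 : ∀ z, {x | φ x ≠ z} ∈ D.U := by
    intro z
    exact hcon z
  have h2 := D.diag rk (fun z => {x | φ x ≠ z}) hrk h1
  obtain ⟨x, hx1, hx2⟩ := (h2.and h).exists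
  exact hx1 (φ x) hx2 rfl

/-- A function with fewer than `κ` values is constant on a large set. -/
lemma eventually_const {Z : Type} (hZ : #Z < D.κ) (φ : X → Z) :
    ∃ z, ∀ᶠ x in (D.U : Filter X), φ x = z := by
  have hne : Nonempty Ω := by
    rw [← mk_ne_zero_iff, D.mk_Ω]
    exact D.κ_inacc.ne_zero
  obtain ⟨a₀⟩ := hne
  exact regressive (fun _ : Z => a₀) (fun a => (mk_subtype_le _).trans_lt hZ) φ (D.unb a₀)

/-- Normality: a choice function is constant on a large set. -/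
lemma const_S (φ : X → Θ) (h : ∀ᶠ x in (D.U : Filter X), ∃ a < PE.T X Θ (D.kx x), φ x = D.g x a) :
    ∃ s, ∀ᶠ x in (D.U : Filter X), φ x = s := by
  by_contra hcon
  push Not at hcon
  have h2 := D.diagS (fun s => {x | φ x ≠ s}) (fun s => hcon s)
  obtain ⟨x, hx1, a, ha, hx2⟩ := (h2.and h).exists
  exact hx1 a ha hx2

/-- Normality for families of fewer than `κ` choice functions. -/
lemma const_fam {ι : Type} (hι : #ι < D.κ) (φ : X → ι → Θ)
    (h : ∀ᶠ x in (D.U : Filter X), ∀ i, ∃ a < PE.T X Θ (D.kx x), φ x i = D.g x a) :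
    ∃ s : ι → Θ, ∀ᶠ x in (D.U : Filter X), φ x = s := by
  have h1 : ∀ i, ∃ s, ∀ᶠ x in (D.U : Filter X), φ x i = s := fun i =>
    const_S (fun x => φ x i) (h.mono fun x hx => hx i)
  choose s hs using h1
  refine ⟨s, ?_⟩
  filter_upwards [complete hι (fun i => {x | φ x i = s i}) hs] with x hx
  exact funext hx

end Pool.UL
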