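import Pool.Agent.Lib.MP_9fc97b_ul.Cover

/-!
# UL: codes for subsets of `T m` and of `κ`
-/

set_option autoImplicit false
set_option linter.unusedSectionVars false

open Cardinal Set Order

namespace Pool.UL

variable {Ω : Type} [LinearOrder Ω] [WellFoundedLT Ω] {X Θ : Type} [D : PE Ω X Θ]

/-- `a` belongs to the set coded by `z`, by the lower part below the `k`-th point of `q`. -/
def Tz (z : Set (List (PO Ω) × Ω)) (k : ℕ) (q : Cond Ω X Θ) (a : Ω) : Prop :=
  k < q.len ∧ ∃ r, (r, a) ∈ z ∧ List.Forall₂ Sub r (q.r.rtake (k + 1))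

/-- The set of the codes for the stem `t`. -/
def SCode (X Θ : Type) [D : PE Ω X Θ] (t : List Ω) : Set (Set (List (PO Ω) × Ω)) :=
  {z | ∀ r a, (r, a) ∈ z → LowV X Θ t r ∧ ∀ m ∈ t.head?, a < PE.T X Θ m}

/-- Row CA2: the stem up to the `k`-th point. -/
def stem (q : Cond Ω X Θ) (k : ℕ) : List Ω := q.t.rtake (k + 1)

/-- Codes for subsets of `κ`: an enumeration of coordinates and a list of `κ` instructions; an
instruction is a stem, the values of the coordinates, a lower part and an element of `κ`. -/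
abbrev BCode (Ω Θ : Type) : Type :=
  (Ω → Option Θ) × (Ω → Option (List Ω × (Ω → ℕ → Option Ω) × List (PO Ω) × Ω))

/-- `q` follows the instruction with number `j` of the code `z`, and its element is `a`. -/
def Tb (z : BCode Ω Θ) (q : Cond Ω X Θ) (a : Ω) : Prop :=
  ∃ (j : Ω) (t : List Ω) (val : Ω → ℕ → Option Ω) (r : List (PO Ω)),
    z.2 j = some (t, val, r, a) ∧ t <:+ q.t ∧
    (∀ i s, z.1 i = some s → ∃ ρ σ, q.u.f s = some (ρ, σ) ∧ ∀ k < t.length, σ k = val i k) ∧
    List.Forall₂ Sub r (q.r.rtake t.length)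

end Pool.UL
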