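import Pool.Agent.Lib.MP_9fc97b_ul.CardAux
import Pool.Agent.Lib.MP_9fc97b_ul.Rec

/-!
# Task B: the combination lemma
-/

set_option autoImplicit false
set_option linter.unusedSectionVars false

open Cardinal Set Order

namespace Pool.UL

variable {Ω : Type} [LinearOrder Ω] [WellFoundedLT Ω] {X Θ : Type} [D : PE Ω X Θ]

namespace B1

open Classical in
/-- The union of a family of partial functions. -/
noncomputable def uni {ι A B : Type} (c : ι → A → Option B) : A → Option B := fun a =>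
  if h : ∃ i, c i a ≠ none then c h.choose a else none

lemma uni_val {ι A B : Type} {c : ι → A → Option B} {a : A} {b : B} (h : uni c a = some b) :
    ∃ i, c i a = some b := by
  unfold uni at h
  split at h
  · exact ⟨_, h⟩
  · exact absurd h (by simp)

lemma sub_uni {ι A B : Type} [LinearOrder ι] {c : ι → A → Option B}
    (hc : ∀ i j, i < j → ∀ a b, c i a = some b → c j a = some b)
    (i : ι) {a : A} {b : B} (hab : c i a = some b) : uni c a = some b := by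
  have h : ∃ i, c i a ≠ none := ⟨i, by rw [hab]; simp⟩
  unfold uni
  rw [dif_pos h]
  have hj := h.choose_spec
  obtain ⟨b', hb'⟩ := Option.ne_none_iff_exists'.1 hj
  rcases lt_trichotomy i h.choose with h1 | h1 | h1
  · exact hc _ _ h1 a b hab
  · rw [← h1]
    exact hab
  · have := hc _ _ h1 a b' hb'
    rw [hab] at this
    rw [hb', this]

/-- `u'` extends `u`, the part given by `C` being frozen. -/
structure Lb (C : Ω → Prop) (u' u : Up Ω X Θ) : Prop where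
  c : u'.c = u.c
  A : u'.A = u.A
  f : ∀ α z, u.f α = some z → u'.f α = some z
  new : ∀ α ρ σ, u'.f α = some (ρ, σ) → C ρ → u.f α = some (ρ, σ)
  Fl : ∀ m', C m' → u'.F m' = u.F m'
  Fu : ∀ m', Sub (u.F m') (u'.F m')

lemma Lb.refl (C : Ω → Prop) (u : Up Ω X Θ) : Lb C u u :=
  ⟨rfl, rfl, fun _ _ h => h, fun _ _ _ h _ => h, fun _ _ => rfl, fun _ => Sub.refl _⟩

lemma Lb.trans {C : Ω → Prop} {u u' u'' : Up Ω X Θ} (h : Lb C u'' u') (h' : Lb C u' u) :
    Lb C u'' u :=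
  ⟨h.c.trans h'.c, h.A.trans h'.A, fun α z hz => h.f α z (h'.f α z hz),
    fun α ρ σ hz hC => h'.new α ρ σ (h.new α ρ σ hz hC) hC,
    fun m' hm' => (h.Fl m' hm').trans (h'.Fl m' hm'), fun m' => (h'.Fu m').trans (h.Fu m')⟩

lemma Lb.mono {C C' : Ω → Prop} {u u' : Up Ω X Θ} (h : Lb C u' u) (hC : ∀ a, C' a → C a) :
    Lb C' u' u :=
  ⟨h.c, h.A, h.f, fun α ρ σ hz hc => h.new α ρ σ hz (hC _ hc), fun m' hm' => h.Fl m' (hC _ hm'),
    h.Fu⟩

/-- Union of a chain. -/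
noncomputable def wU {ι : Type} (s : ι → Up Ω X Θ) (i₀ : ι) : Up Ω X Θ where
  c := (s i₀).c
  f := uni (fun i => (s i).f)
  A := (s i₀).A
  F := fun m' => uni (fun i => (s i).F m')

section
variable {ι : Type} [LinearOrder ι] (s : ι → Up Ω X Θ) (i₀ : ι) (C : ι → Ω → Prop)
  (hs : ∀ i j, i < j → Lb (C i) (s j) (s i))
include hs

lemma wU_Lb (i : ι) : Lb (C i) (wU s i₀) (s i) where
  c := by
    change (s i₀).c = (s i).c
    rcases lt_trichotomy i i₀ with h | h | h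
    · exact (hs _ _ h).c
    · rw [h]
    · exact (hs _ _ h).c.symm
  A := by
    change (s i₀).A = (s i).A
    rcases lt_trichotomy i i₀ with h | h | h
    · exact (hs _ _ h).A
    · rw [h]
    · exact (hs _ _ h).A.symm
  f := fun α z hz => sub_uni (c := fun i => (s i).f) (fun i j hij a b => (hs i j hij).f a b) i hz
  new := by
    intro α ρ σ hz hC
    obtain ⟨j, hj⟩ := uni_val hz
    rcases lt_trichotomy i j with h | h | h
    · exact (hs _ _ h).new α ρ σ hj hC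
    · rw [h]
      exact hj
    · exact (hs _ _ h).f α _ hj
  Fl := by
    intro m' hm'
    change uni (fun i => (s i).F m') = (s i).F m'
    funext a
    have hchain : ∀ i j, i < j → ∀ a b, (s i).F m' a = some b → (s j).F m' a = some b :=
      fun i j hij a b hab => (hs i j hij).Fu m' a b hab
    cases h : (s i).F m' a with
    | some b => exact sub_uni (c := fun i => (s i).F m') hchain i h
    | none =>
      cases h' : uni (fun i => (s i).F m') a with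
      | none => rfl
      | some b =>
        exfalso
        obtain ⟨j, hj⟩ := uni_val h'
        have h2 : (s i).F m' a = some b := by
          rcases lt_trichotomy i j with h3 | h3 | h3
          · rw [← (hs _ _ h3).Fl m' hm']
            exact hj
          · rw [h3]
            exact hj
          · exact hchain _ _ h3 a b hj
        rw [h] at h2
        exact absurd h2 (by simp)
  Fu := fun m' a b hab => sub_uni (c := fun i => (s i).F m')
    (fun i j hij a b hab => (hs i j hij).Fu m' a b hab) i hab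

lemma wU_V {m : Ω} (hV : ∀ i, (s i).V m)
    (h1 : ∀ m' ∈ D.W, m < m' → (∃ i, ∀ ρ < m', C i ρ) ∨ #ι ≤ crd m')
    (h2 : ∀ m' ∈ D.W, (∃ i, C i m') ∨ #ι ≤ th X Θ m') : (wU s i₀).V m where
  hc := (hV i₀).hc
  ff := by
    intro α ρ σ hz
    obtain ⟨j, hj⟩ := uni_val hz
    exact (hV j).ff α ρ σ hj
  fs := by
    intro m' hm' hlt
    rcases h1 m' hm' hlt with ⟨i, hi⟩ | hι
    · refine le_trans (mk_le_mk_of_subset ?_) ((hV i).fs m' hm' hlt)
      rintro α ⟨ρ, σ, e, hρ⟩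
      exact ⟨ρ, σ, (wU_Lb s i₀ C hs i).new α ρ σ e (hi ρ hρ), hρ⟩
    · refine le_trans (mk_le_mk_of_subset (t := ⋃ i, {α | ∃ ρ σ, (s i).f α = some (ρ, σ) ∧ ρ < m'})
        ?_) (mk_iUnion_le (aleph0_lt_crd hm').le hι _ fun i => (hV i).fs m' hm' hlt)
      rintro α ⟨ρ, σ, e, hρ⟩
      obtain ⟨j, hj⟩ := uni_val e
      exact mem_iUnion.2 ⟨j, ρ, σ, hj, hρ⟩
  hA := (hV i₀).hA
  hF := by
    intro m' hm'
    rcases h2 m' hm' with ⟨i, hi⟩ | hι
    · rw [(wU_Lb s i₀ C hs i).Fl m' hi]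
      exact (hV i).hF m' hm'
    · have h3 : pdom ((wU s i₀).F m') ⊆ ⋃ i, pdom ((s i).F m') := by
        intro a ha
        obtain ⟨b, hb⟩ := Option.ne_none_iff_exists'.1 ha
        obtain ⟨i, hi⟩ := uni_val hb
        rw [mem_iUnion]
        exact ⟨i, by change (s i).F m' a ≠ none; rw [hi]; simp⟩
      exact (mk_le_mk_of_subset h3).trans
        (mk_iUnion_le (aleph0_lt_th hm').le hι _ fun i => (hV i).hF m' hm')

end

lemma V_step {m : Ω} {u : Up Ω X Θ} {x : X} (n : ℕ) (h : u.V m) (hW : D.kx x ∈ D.W)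
    (hlt : m < D.kx x) : (u.step n x).V (D.kx x) where
  hc := h.hF _ hW
  ff := by
    intro α ρ τ e
    obtain ⟨σ, e1, e2⟩ := stepf_eq_some e
    have h1 := h.ff α ρ σ e1
    rw [e2]
    refine (h1.union (Set.finite_singleton n)).subset ?_
    intro k hk
    by_cases hkn : k = n
    · exact Or.inr hkn
    · left
      change σ k ≠ none
      change updf n x α ρ σ k ≠ none at hk
      unfold updf at hk
      split_ifs at hk
      · rwa [Function.update_of_ne hkn] at hk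
      · exact hk
  fs := by
    intro m' hm' hlt'
    refine le_trans (mk_le_mk_of_subset ?_) (h.fs m' hm' (hlt.trans hlt'))
    rintro α ⟨ρ, τ, e, hρ⟩
    obtain ⟨σ, e1, -⟩ := stepf_eq_some e
    exact ⟨ρ, σ, e1, hρ⟩
  hA := h.hA
  hF := h.hF

/-- The step of `v` by `x` extends `v'`, up to the measure one set. -/
structure Lx (n : ℕ) (μ : Ω) (v : Up Ω X Θ) (x : X) (v' : Up Ω X Θ) : Prop where
  c : Sub v'.c (v.F μ)
  f : ∀ α ρ σ, v'.f α = some (ρ, σ) → ∃ ρ', stepf n v.f x α = some (ρ', σ) ∧ max ρ' μ = max ρ μ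
  F : ∀ m' ∈ D.W, μ < m' → Sub (v'.F m') (v.F m')

lemma Lx.of_Lb {n : ℕ} {μ : Ω} {v v₂ : Up Ω X Θ} {x : X} {v' : Up Ω X Θ} (h : Lx n μ v x v')
    {C : Ω → Prop} (h2 : Lb C v₂ v) : Lx n μ v₂ x v' where
  c := h.c.trans (h2.Fu μ)
  f := by
    intro α ρ σ e
    obtain ⟨ρ', e1, e2⟩ := h.f α ρ σ e
    obtain ⟨σ₀, e3, e4⟩ := stepf_eq_some e1
    refine ⟨ρ', ?_, e2⟩
    rw [stepf_some (h2.f α _ e3), e4]
  F := fun m' hm' hlt => (h.F m' hm' hlt).trans (h2.Fu m')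

/-- Stage `μ` is done. -/
def Done (n : ℕ) (Φ : Ω → Set (Up Ω X Θ)) (μ : Ω) (v : Up Ω X Θ) : Prop :=
  ∃ B ∈ D.U, ∀ x, D.kx x = μ → ∃ v' : Up Ω X Θ, v'.V μ ∧ v' ∈ Φ μ ∧ Lx n μ v x v' ∧ B ⊆ v'.A

lemma Done.of_Lb {n : ℕ} {Φ : Ω → Set (Up Ω X Θ)} {μ : Ω} {v v₂ : Up Ω X Θ} (h : Done n Φ μ v)
    {C : Ω → Prop} (h2 : Lb C v₂ v) : Done n Φ μ v₂ := by
  obtain ⟨B, hB, h3⟩ := h
  refine ⟨B, hB, fun x hx => ?_⟩
  obtain ⟨v', h4, h5, h6, h7⟩ := h3 x hx
  exact ⟨v', h4, h5, h6.of_Lb h2, h7⟩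

open Classical in
/-- Pulling back `v'`. -/
noncomputable def pull (μ : Ω) (v v' : Up Ω X Θ) : Up Ω X Θ where
  c := v.c
  A := v.A
  F := fun m' => if m' ∈ D.W ∧ μ ≤ m' then (if m' = μ then v'.c else v'.F m') else v.F m'
  f := fun α => match v.f α with
    | some z => some z
    | none => match v'.f α with
      | none => none
      | some (ρ, σ) => some (max ρ μ, σ)

lemma pull_f_some {μ : Ω} {v v' : Up Ω X Θ} {α : Θ} {z : Ω × (ℕ → Option Ω)}
    (h : v.f α = some z) : (pull μ v v').f α = some z := by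
  simp only [pull, h]

lemma pull_f_none {μ : Ω} {v v' : Up Ω X Θ} {α : Θ} {ρ : Ω} {σ : ℕ → Option Ω}
    (h : v.f α = none) (h' : v'.f α = some (ρ, σ)) :
    (pull μ v v').f α = some (max ρ μ, σ) := by
  simp only [pull, h, h']

lemma pull_f_cases {μ : Ω} {v v' : Up Ω X Θ} {α : Θ} {ρ : Ω} {σ : ℕ → Option Ω}
    (h : (pull μ v v').f α = some (ρ, σ)) : v.f α = some (ρ, σ) ∨
      (v.f α = none ∧ ∃ ρ₀, v'.f α = some (ρ₀, σ) ∧ ρ = max ρ₀ μ) := by
  cases h1 : v.f α with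
  | some z =>
    left
    rw [pull_f_some h1] at h
    exact h
  | none =>
    right
    cases h2 : v'.f α with
    | none =>
      simp only [pull, h1, h2] at h
      exact absurd h (by simp)
    | some w =>
      obtain ⟨ρ₀, σ₀⟩ := w
      rw [pull_f_none h1 h2] at h
      simp only [Option.some.injEq, Prod.mk.injEq] at h
      exact ⟨rfl, ρ₀, by rw [h.2], h.1.symm⟩

section
variable {n : ℕ} {m μ : Ω} {v v' : Up Ω X Θ} {x₀ : X} (hx₀ : D.kx x₀ = μ)
  (hle : v'.Le μ (v.step n x₀))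
include hx₀ hle

open Classical in
lemma pull_Lb : Lb (fun a => a < μ) (pull μ v v') v where
  c := rfl
  A := rfl
  f := fun α z hz => pull_f_some hz
  new := by
    intro α ρ σ hz hC
    rcases pull_f_cases hz with h | ⟨-, ρ₀, -, rfl⟩
    · exact h
    · exact absurd (le_max_right ρ₀ μ) (not_le.2 hC)
  Fl := by
    intro m' hm'
    change (if m' ∈ D.W ∧ μ ≤ m' then (if m' = μ then v'.c else v'.F m') else v.F m') = _
    rw [if_neg (fun h => absurd h.2 (not_le.2 hm'))]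
  Fu := by
    intro m'
    change Sub (v.F m')
      (if m' ∈ D.W ∧ μ ≤ m' then (if m' = μ then v'.c else v'.F m') else v.F m')
    by_cases h1 : m' ∈ D.W ∧ μ ≤ m'
    · rw [if_pos h1]
      by_cases h2 : m' = μ
      · rw [if_pos h2, h2]
        have := hle.c
        change Sub (v.F (D.kx x₀)) v'.c at this
        rwa [hx₀] at this
      · rw [if_neg h2]
        exact hle.F m' h1.1 (lt_of_le_of_ne h1.2 (Ne.symm h2))
    · rw [if_neg h1]
      exact Sub.refl _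

omit hx₀ in
open Classical in
lemma pull_V (hv : v.V m) (hv' : v'.V μ) (hμW : μ ∈ D.W) (hmμ : m < μ) : (pull μ v v').V m where
  hc := hv.hc
  ff := by
    intro α ρ σ hz
    rcases pull_f_cases hz with h | ⟨-, ρ₀, h, -⟩
    · exact hv.ff α ρ σ h
    · exact hv'.ff α ρ₀ σ h
  fs := by
    intro m' hm' hlt
    by_cases hc : m' ≤ μ
    · refine le_trans (mk_le_mk_of_subset ?_) (hv.fs m' hm' hlt)
      rintro α ⟨ρ, σ, e, hρ⟩
      rcases pull_f_cases e with h | ⟨-, ρ₀, -, rfl⟩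
      · exact ⟨ρ, σ, h, hρ⟩
      · exact absurd ((le_max_right ρ₀ μ).trans_lt hρ) (not_lt.2 hc)
    · have hc' : μ < m' := not_le.1 hc
      have h1 := hv.fs m' hm' hlt
      have h2 := hv'.fs m' hm' hc'
      have hinf : ℵ₀ ≤ crd m' := (aleph0_lt_crd hm').le
      refine le_trans (mk_le_mk_of_subset (t := {α | ∃ ρ σ, v.f α = some (ρ, σ) ∧ ρ < m'} ∪
        {α | ∃ ρ σ, v'.f α = some (ρ, σ) ∧ ρ < m'}) ?_) ((mk_union_le _ _).trans
          ((add_le_add h1 h2).trans (add_eq_self hinf).le))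
      rintro α ⟨ρ, σ, e, hρ⟩
      rcases pull_f_cases e with h | ⟨-, ρ₀, h, rfl⟩
      · exact Or.inl ⟨ρ, σ, h, hρ⟩
      · exact Or.inr ⟨ρ₀, σ, h, (le_max_left ρ₀ μ).trans_lt hρ⟩
  hA := hv.hA
  hF := by
    intro m' hm'
    change IsCo (th X Θ m')
      (if m' ∈ D.W ∧ μ ≤ m' then (if m' = μ then v'.c else v'.F m') else v.F m')
    by_cases h1 : m' ∈ D.W ∧ μ ≤ m'
    · rw [if_pos h1]
      by_cases h2 : m' = μ
      · rw [if_pos h2, h2]
        exact hv'.hc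
      · rw [if_neg h2]
        exact hv'.hF m' hm'
    · rw [if_neg h1]
      exact hv.hF m' hm'

open Classical in
lemma pull_Lx (hμW : μ ∈ D.W) {x : X} (hx : D.kx x = μ)
    (htyp : ∀ α ρ σ, v.f α = some (ρ, σ) → ρ < μ → D.h α x = D.h α x₀) :
    Lx n μ (pull μ v v') x v' where
  c := by
    change Sub v'.c
      (if μ ∈ D.W ∧ μ ≤ μ then (if μ = μ then v'.c else v'.F μ) else v.F μ)
    rw [if_pos ⟨hμW, le_rfl⟩, if_pos rfl]
    exact Sub.refl _
  f := by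
    intro α ρ σ hz
    cases h1 : v.f α with
    | some z =>
      obtain ⟨ρ₀, σ₀⟩ := z
      refine ⟨ρ₀, ?_, ?_⟩
      · rw [stepf_some (pull_f_some h1)]
        obtain ⟨ρ'', h2, h3⟩ := hle.f α ρ₀ (updf n x₀ α ρ₀ σ₀) (stepf_some h1)
        rw [hz] at h2
        simp only [Option.some.injEq, Prod.mk.injEq] at h2
        have h4 : updf n x α ρ₀ σ₀ = updf n x₀ α ρ₀ σ₀ := by
          unfold updf
          rw [hx, hx₀]
          by_cases h5 : ρ₀ < μ ∧ σ₀ n = none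
          · rw [if_pos h5, if_pos h5, htyp α ρ₀ σ₀ h1 h5.1]
          · rw [if_neg h5, if_neg h5]
        rw [h4, h2.2]
      · obtain ⟨ρ'', h2, h3⟩ := hle.f α ρ₀ (updf n x₀ α ρ₀ σ₀) (stepf_some h1)
        rw [hz] at h2
        simp only [Option.some.injEq, Prod.mk.injEq] at h2
        rw [h2.1]
        exact h3.symm
    | none =>
      refine ⟨max ρ μ, ?_, by rw [max_assoc, max_self]⟩
      rw [stepf_some (pull_f_none h1 hz)]
      unfold updf
      rw [hx, if_neg]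
      exact fun h => absurd h.1 (not_lt.2 (le_max_right ρ μ))
  F := by
    intro m' hm' hlt
    change Sub (v'.F m')
      (if m' ∈ D.W ∧ μ ≤ m' then (if m' = μ then v'.c else v'.F m') else v.F m')
    rw [if_pos ⟨hm', hlt.le⟩, if_neg hlt.ne']
    exact Sub.refl _

end

/-- One stage. -/
lemma stage (m : Ω) (n : ℕ) (Φ : Ω → Set (Up Ω X Θ)) {μ : Ω} (hμW : μ ∈ D.W) (hmμ : m < μ)
    (hdense : ∀ v : Up Ω X Θ, v.V μ → ∃ v' : Up Ω X Θ, v'.V μ ∧ v'.Le μ v ∧ v' ∈ Φ μ)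
    (w : Up Ω X Θ) (hw : w.V m) :
    ∃ v : Up Ω X Θ, v.V m ∧ Lb (fun a => a < μ) v w ∧ Done n Φ μ v := by
  classical
  -- the types
  let d : Set (Θ) := {α | ∃ ρ σ, w.f α = some (ρ, σ) ∧ ρ < μ}
  let B : Set Ω := Iio (PE.T X Θ μ)
  have hd : #d ≤ crd μ := hw.fs μ hμW hmμ
  let typ : {x : X // D.kx x = μ} → (d → B) := fun x α => ⟨D.h α.1 x.1, by
    have := D.h_lt x.1 (by rw [x.2]; exact hμW) α.1
    rwa [x.2] at this⟩
  let ι : Type := range typ
  have hι : #ι ≤ th X Θ μ := by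
    have h1 : #ι ≤ #(d → B) := mk_set_le _
    have h2 : #(d → B) = #B ^ #d := by
      rw [mk_arrow, lift_id, lift_id]
    exact h1.trans (h2.le.trans (th_pow' hμW hd))
  let S : ι → Set (Up Ω X Θ) := fun g => {v | ∃ v' : Up Ω X Θ, v'.V μ ∧ v' ∈ Φ μ ∧
    ∀ x (hx : D.kx x = μ), typ ⟨x, hx⟩ = g.1 → Lx n μ v x v'}
  obtain ⟨v, ⟨hv1, hv2⟩, -, hv3⟩ := meet_all (Lb (fun a => a < μ))
    (fun v : Up Ω X Θ => v.V m ∧ Lb (fun a => a < μ) v w)
    (fun v => Lb.refl _ v) (fun a b c h h' => h.trans h') (th X Θ μ)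
    (by
      intro κ _ _ _ hκ s hV hs
      obtain ⟨i₀⟩ := (inferInstance : Nonempty κ)
      have hLb := wU_Lb s i₀ (fun _ a => a < μ) hs
      refine ⟨wU s i₀, ⟨wU_V s i₀ (fun _ a => a < μ) hs (fun i => (hV i).1) ?_ ?_,
        (hLb i₀).trans (hV i₀).2⟩, hLb⟩
      · intro m' hm' hlt
        by_cases hc : m' ≤ μ
        · exact Or.inl ⟨i₀, fun ρ hρ => hρ.trans_le hc⟩
        · exact Or.inr (hκ.trans (th_lt_crd hm' (not_le.1 hc)).le)
      · intro m' hm'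
        by_cases hc : m' < μ
        · exact Or.inl ⟨i₀, hc⟩
        · exact Or.inr (hκ.trans (th_mono hm' (not_lt.1 hc))))
    hι S
    (by
      rintro g v v' - - h1 ⟨v₂, h2, h3, h4⟩
      exact ⟨v₂, h2, h3, fun x hx hg => (h4 x hx hg).of_Lb h1⟩)
    (by
      rintro g v ⟨h1, h2⟩
      obtain ⟨⟨x₀, hx₀⟩, hg⟩ := g.2
      have h3 : (v.step n x₀).V μ := by
        have := V_step (x := x₀) n h1 (by rw [hx₀]; exact hμW) (by rw [hx₀]; exact hmμ)
        rwa [hx₀] at this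
      obtain ⟨v', h4, h5, h6⟩ := hdense _ h3
      refine ⟨pull μ v v', ⟨pull_V h5 h1 h4 hμW hmμ, (pull_Lb hx₀ h5).trans h2⟩,
        pull_Lb hx₀ h5, v', h4, h6, fun x hx hxg => pull_Lx hx₀ h5 hμW hx ?_⟩
      intro α ρ σ hα hρ
      have h7 : α ∈ d := ⟨ρ, σ, h2.new α ρ σ hα hρ, hρ⟩
      have h8 : typ ⟨x, hx⟩ = typ ⟨x₀, hx₀⟩ := hxg.trans hg.symm
      exact congrArg Subtype.val (congrFun h8 ⟨α, h7⟩))
    w ⟨hw, Lb.refl _ w⟩
  refine ⟨v, hv1, hv2, ?_⟩
  choose v' h1 h2 h3 using hv3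
  have h4 : ∀ᶠ x in (D.U : Filter X), ∀ g : ι, x ∈ (v' g).A :=
    complete (hι.trans_lt (th_lt_κ μ)) (fun g => (v' g).A) (fun g => (h1 g).hA)
  refine ⟨{x | ∀ g : ι, x ∈ (v' g).A}, h4, fun x hx => ?_⟩
  refine ⟨v' ⟨typ ⟨x, hx⟩, mem_range_self _⟩, h1 _, h2 _, h3 _ x hx rfl, ?_⟩
  exact fun y hy => hy _

end B1

/-- THE COMBINATION LEMMA. -/
theorem combine (m : Ω) (n : ℕ) (Φ : Ω → Set (Up Ω X Θ))
    (hopen : ∀ m' ∈ D.W, m < m' → ∀ v v' : Up Ω X Θ, v.V m' → v'.V m' → v'.Le m' v → v ∈ Φ m' →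
      v' ∈ Φ m')
    (hdense : ∀ m' ∈ D.W, m < m' → ∀ v : Up Ω X Θ, v.V m' →
      ∃ v' : Up Ω X Θ, v'.V m' ∧ v'.Le m' v ∧ v' ∈ Φ m')
    (u : Up Ω X Θ) (hu : u.V m) :
    ∃ u' : Up Ω X Θ, u'.V m ∧ u'.Le m u ∧ u'.c = u.c ∧ ∀ x, u'.OK m x → u'.step n x ∈ Φ (D.kx x) := by
  classical
  let ι : Type := {j : Ω // j = m ∨ (j ∈ D.W ∧ m < j)}
  let i₀ : ι := ⟨m, Or.inl rfl⟩
  have hi₀ : ∀ i : ι, i₀ ≤ i := by
    rintro ⟨j, hj⟩
    rcases hj with rfl | ⟨-, h⟩
    · exact le_rfl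
    · exact h.le
  have : Nonempty (Up Ω X Θ) := ⟨u⟩
  -- size conditions at limits
  have hsize1 : ∀ (J : Type) [LinearOrder J] (e : J → ι) (s : J → Up Ω X Θ) (j₀ : J),
      (∀ i j, i < j → B1.Lb (fun a => a ≤ (e i).1) (s j) (s i)) →
      (∀ i, (s i).V m) → (∃ j, e j = i₀) →
      (∀ m' (hm' : m' ∈ D.W) (hlt : m < m'), (∃ j, e j = ⟨m', Or.inr ⟨hm', hlt⟩⟩) ∨
        #J ≤ crd m') → (B1.wU s j₀).V m := by
    intro J _ e s j₀ hs hV h0 h1
    refine B1.wU_V s j₀ (fun i a => a ≤ (e i).1) hs hV ?_ ?_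
    · intro m' hm' hlt
      rcases h1 m' hm' hlt with ⟨j, hj⟩ | h
      · exact Or.inl ⟨j, fun ρ hρ => by rw [hj]; exact hρ.le⟩
      · exact Or.inr h
    · intro m' hm'
      by_cases hlt : m < m'
      · rcases h1 m' hm' hlt with ⟨j, hj⟩ | h
        · exact Or.inl ⟨j, by rw [hj]⟩
        · exact Or.inr (h.trans (crd_le_th hm'))
      · obtain ⟨j, hj⟩ := h0
        exact Or.inl ⟨j, by rw [hj]; exact not_lt.1 hlt⟩
  obtain ⟨s, hs⟩ := exists_wf_seq (ι := ι) (T := Up Ω X Θ)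
    (fun i s v => v.V m ∧ (i = i₀ → v = u) ∧
      (∀ j (hj : j < i), B1.Lb (fun a => a ≤ j.1) v (s j hj)) ∧ (m < i.1 → B1.Done n Φ i.1 v))
    (by
      intro i s hs
      by_cases hi : i = i₀
      · subst hi
        refine ⟨u, hu, fun _ => rfl, fun j hj => absurd (hi₀ j) (not_le.2 hj), fun h => ?_⟩
        exact absurd h (lt_irrefl m)
      · have hlt : i₀ < i := lt_of_le_of_ne (hi₀ i) (Ne.symm hi)
        have hmi : m < i.1 := hlt
        have hiW : i.1 ∈ D.W := by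
          rcases i.2 with h | h
          · exact absurd h hmi.ne'
          · exact h.1
        let J : Type := {j : ι // j < i}
        let j₀ : J := ⟨i₀, hlt⟩
        have hchain : ∀ a b : J, a < b → B1.Lb (fun c => c ≤ a.1.1) (s b.1) (s a.1) :=
          fun a b hab => (hs b.1 b.2).2.2.1 a.1 hab
        have hw : (B1.wU (fun j : J => s j.1) j₀).V m := by
          refine hsize1 J (fun j => j.1) (fun j => s j.1) j₀ hchain (fun j => (hs j.1 j.2).1)
            ⟨j₀, rfl⟩ ?_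
          intro m' hm' hlt'
          by_cases hc : m' < i.1
          · exact Or.inl ⟨⟨⟨m', Or.inr ⟨hm', hlt'⟩⟩, hc⟩, rfl⟩
          · right
            refine le_trans ?_ (crd_mono (not_lt.1 hc))
            exact mk_le_of_injective (f := fun j : J => (⟨j.1.1, j.2⟩ : Iio i.1))
              (fun a b hab => Subtype.ext (Subtype.ext (congrArg (fun z : Iio i.1 => z.1) hab)))
        have hLb := B1.wU_Lb (fun j : J => s j.1) j₀ (fun j a => a ≤ j.1.1) hchain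
        obtain ⟨v, hv1, hv2, hv3⟩ := B1.stage m n Φ hiW hmi (hdense i.1 hiW hmi) _ hw
        refine ⟨v, hv1, fun h => absurd h hi, fun j hj => ?_, fun _ => hv3⟩
        exact (hv2.mono (fun a ha => lt_of_le_of_lt ha hj)).trans (hLb ⟨j, hj⟩))
  have hchain : ∀ a b : ι, a < b → B1.Lb (fun c => c ≤ a.1) (s b) (s a) :=
    fun a b hab => (hs b).2.2.1 a hab
  have hw : (B1.wU s i₀).V m :=
    hsize1 ι (fun j => j) s i₀ hchain (fun j => (hs j).1) ⟨i₀, rfl⟩
      (fun m' hm' hlt => Or.inl ⟨_, rfl⟩)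
  have hLb := B1.wU_Lb s i₀ (fun j a => a ≤ j.1) hchain
  have hLu : B1.Lb (fun a => a ≤ m) (B1.wU s i₀) u := by
    have := hLb i₀
    rwa [(hs i₀).2.1 rfl] at this
  have hdone : ∀ μ, ∃ B ∈ D.U, μ ∈ D.W → m < μ → ∀ x, D.kx x = μ → ∃ v' : Up Ω X Θ, v'.V μ ∧
      v' ∈ Φ μ ∧ B1.Lx n μ (B1.wU s i₀) x v' ∧ B ⊆ v'.A := by
    intro μ
    by_cases h : μ ∈ D.W ∧ m < μ
    · obtain ⟨B, hB, h1⟩ := ((hs ⟨μ, Or.inr h⟩).2.2.2 h.2).of_Lb (hLb ⟨μ, Or.inr h⟩)
      exact ⟨B, hB, fun _ _ => h1⟩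
    · exact ⟨univ, Filter.univ_mem, fun h1 h2 => absurd ⟨h1, h2⟩ h⟩
  choose B hB hB' using hdone
  have hdiag := D.diag (fun a : Ω => a) B (fun a => D.crd_lt a) hB
  refine ⟨⟨(B1.wU s i₀).c, (B1.wU s i₀).f,
    (B1.wU s i₀).A ∩ {x | ∀ z, z < D.kx x → x ∈ B z}, (B1.wU s i₀).F⟩, ?_, ?_, hLu.c, ?_⟩
  · exact ⟨hw.hc, hw.ff, hw.fs, Filter.inter_mem hw.hA hdiag, hw.hF⟩
  · refine ⟨?_, fun α ρ σ h => ⟨ρ, hLu.f α _ h, rfl⟩, fun x hx _ => ?_, fun m' _ _ => hLu.Fu m'⟩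
    · change Sub u.c (B1.wU s i₀).c
      rw [hLu.c]
      exact Sub.refl _
    · rw [← hLu.A]
      exact hx.1
  · intro x hx
    obtain ⟨v', h1, h2, h3, h4⟩ := hB' (D.kx x) hx.W hx.lt x rfl
    refine hopen _ hx.W hx.lt v' _ h1 ?_ ?_ h2
    · exact B1.V_step n (u := ⟨(B1.wU s i₀).c, (B1.wU s i₀).f,
        (B1.wU s i₀).A ∩ {x | ∀ z, z < D.kx x → x ∈ B z}, (B1.wU s i₀).F⟩)
        ⟨hw.hc, hw.ff, hw.fs, Filter.inter_mem hw.hA hdiag, hw.hF⟩ hx.W hx.lt
    · exact ⟨h3.c, h3.f, fun y hy hlt => h4 (hy.2 _ hlt), h3.F⟩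

end Pool.UL
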