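import Pool.Agent.Lib.MP_9fc97b_ul.Data

/-!
# UL: the forcing notion

Extender based Prikry forcing with interleaved Cohen forcings `Add(θ_n^+, T(κ_{n+1})²)`; the
Cohen part of the upper part lives on `Θ × Θ` and is transferred to `Ω × Ω` when a point is added.
-/

set_option autoImplicit false
set_option linter.unusedSectionVars false
set_option linter.unusedVariables false

open Cardinal Set Order

namespace Pool.UL

/-- Partial functions with values in `Bool`. -/
abbrev PF (Z : Type) := Z → Option Bool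

/-- Partial functions on pairs of ordinals: the entries of lower parts. -/
abbrev PO (Ω : Type) := PF (Ω × Ω)

/-- Partial functions on pairs of coordinates: the Cohen parts of upper parts. -/
abbrev PS (Θ : Type) := PF (Θ × Θ)

/-- Inclusion of partial functions. -/
def Sub {Z : Type} (c c' : PF Z) : Prop := ∀ a b, c a = some b → c' a = some b

/-- The domain. -/
def pdom {Z Y : Type} (c : Z → Option Y) : Set Z := {a | c a ≠ none}

/-- The domain has at most `θ` elements. -/
def IsCo {Z : Type} (θ : Cardinal.{0}) (c : PF Z) : Prop := #(pdom c) ≤ θ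

variable {Ω : Type} [LinearOrder Ω] [WellFoundedLT Ω]

/-- The domain is a subset of `m × m`. -/
def Bel (c : PO Ω) (m : Ω) : Prop := ∀ a b, c a = some b → a.1 < m ∧ a.2 < m

variable (Ω) in
/-- The Cohen part `f`: to each coordinate in its domain it assigns a rank and a finite partial
function from `ℕ` to the ordinals below `κ`. -/
abbrev Coh (Θ : Type) := Θ → Option (Ω × (ℕ → Option Ω))

variable (Ω) in
/-- Upper parts of conditions. -/
@[ext] structure Up (X Θ : Type) where
  /-- the current Cohen condition -/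
  c : PS Θ
  /-- the coordinates -/
  f : Coh Ω Θ
  /-- the measure one set -/
  A : Set X
  /-- the promises -/
  F : Ω → PS Θ

variable {X Θ : Type} [D : PE Ω X Θ]

variable (X Θ) in
/-- The size `θ_m` of everything at the point `m`: the cardinality of `T m`. -/
noncomputable def th (m : Ω) : Cardinal.{0} := crd (PE.T X Θ m)

/-- `u` is an upper part above the last point `m`. -/
structure Up.V (m : Ω) (u : Up Ω X Θ) : Prop where
  hc : IsCo (th X Θ m) u.c
  ff : ∀ s ρ σ, u.f s = some (ρ, σ) → {n | σ n ≠ none}.Finite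
  fs : ∀ m' ∈ D.W, m < m' → #{s | ∃ ρ σ, u.f s = some (ρ, σ) ∧ ρ < m'} ≤ crd m'
  hA : u.A ∈ D.U
  hF : ∀ m' ∈ D.W, IsCo (th X Θ m') (u.F m')

/-- `u'` is a direct extension of `u`, the last point being `m`. -/
structure Up.Le (m : Ω) (u' u : Up Ω X Θ) : Prop where
  c : Sub u.c u'.c
  f : ∀ s ρ σ, u.f s = some (ρ, σ) → ∃ ρ', u'.f s = some (ρ', σ) ∧ max ρ' m = max ρ m
  A : ∀ x ∈ u'.A, m < D.kx x → x ∈ u.A
  F : ∀ m' ∈ D.W, m < m' → Sub (u.F m') (u'.F m')

/-- The point `x` can be added. -/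
structure Up.OK (m : Ω) (u : Up Ω X Θ) (x : X) : Prop where
  A : x ∈ u.A
  W : D.kx x ∈ D.W
  lt : m < D.kx x

open Classical in
/-- The finite partial function at the coordinate `s` after adding the `n`-th point `x`: if the
rank `ρ` is `< κ_x` (the coordinate is active) and the value at `n` is not yet decided, the value
at `n` becomes `h s x`. -/
noncomputable def updf (n : ℕ) (x : X) (s : Θ) (ρ : Ω) (σ : ℕ → Option Ω) : ℕ → Option Ω :=
  if ρ < D.kx x ∧ σ n = none then Function.update σ n (some (D.h s x)) else σ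

/-- The coordinates after adding the `n`-th point `x`. -/
noncomputable def stepf (n : ℕ) (f : Coh Ω Θ) (x : X) : Coh Ω Θ := fun s =>
  match f s with
  | none => none
  | some (ρ, σ) => some (ρ, updf n x s ρ σ)

open Classical in
/-- The transfer of a Cohen condition from `Θ × Θ` to `T(κ_x) × T(κ_x)`. -/
noncomputable def tr (x : X) (c : PS Θ) : PO Ω := fun a =>
  if a.1 < PE.T X Θ (PE.kx Θ x) ∧ a.2 < PE.T X Θ (PE.kx Θ x) then c (D.g x a.1, D.g x a.2) else none

/-- The upper part after adding the `n`-th point `x`. -/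
noncomputable def Up.step (n : ℕ) (u : Up Ω X Θ) (x : X) : Up Ω X Θ where
  c := u.F (D.kx x)
  f := stepf n u.f x
  A := u.A
  F := u.F

variable (X Θ) in
/-- The size of the lower entry after the stem. -/
noncomputable def lth : List Ω → Cardinal.{0}
  | [] => 0
  | m :: _ => th X Θ m

variable (X Θ) in
/-- `r` is a lower part for the stem `t` (last point first). -/
def LowV : List Ω → List (PO Ω) → Prop
  | [], [] => True
  | m :: t, c :: r => m ∈ PE.W X Θ ∧ (∀ a ∈ t.head?, a < m) ∧ IsCo (lth X Θ t) c ∧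
      Bel c (PE.T X Θ m) ∧ LowV t r
  | _, _ => False

variable (Ω X Θ) in
/-- Conditions. -/
structure Cond where
  /-- the last point -/
  m : Ω
  /-- the other points, last one first -/
  s : List Ω
  /-- the lower part -/
  r : List (PO Ω)
  /-- the upper part -/
  u : Up Ω X Θ
  low : LowV X Θ (m :: s) r
  up : u.V m

namespace Cond

/-- The number of points. -/
def len (p : Cond Ω X Θ) : ℕ := (p.m :: p.s).length

/-- The stem. -/
def t (p : Cond Ω X Θ) : List Ω := p.m :: p.s

/-- Direct extensions. -/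
structure Dle (p' p : Cond Ω X Θ) : Prop where
  m : p'.m = p.m
  s : p'.s = p.s
  r : List.Forall₂ Sub p.r p'.r
  u : p'.u.Le p.m p.u

end Cond

/-! ### Basic lemmas -/

lemma Sub.refl {Z : Type} (c : PF Z) : Sub c c := fun _ _ h => h

lemma Sub.trans {Z : Type} {c c' c'' : PF Z} (h : Sub c c') (h' : Sub c' c'') : Sub c c'' :=
  fun a b hab => h' a b (h a b hab)

lemma Bel.mono {c c' : PO Ω} {m : Ω} (h : Bel c' m) (hs : Sub c c') : Bel c m :=
  fun a b hab => h a b (hs a b hab)

lemma LowV.mem_W {m : Ω} {t : List Ω} {r : List (PO Ω)} (h : LowV X Θ (m :: t) r) :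
    m ∈ PE.W X Θ := by
  cases r with
  | nil => exact absurd h (by simp [LowV])
  | cons c r => exact h.1

lemma Up.Le.refl (m : Ω) (u : Up Ω X Θ) : u.Le m u where
  c := Sub.refl _
  f := fun s ρ σ h => ⟨ρ, h, rfl⟩
  A := fun x hx _ => hx
  F := fun _ _ _ => Sub.refl _

lemma Up.Le.trans {m : Ω} {u u' u'' : Up Ω X Θ} (h : u''.Le m u') (h' : u'.Le m u) :
    u''.Le m u where
  c := h'.c.trans h.c
  f := fun s ρ σ e => by
    obtain ⟨ρ', e', h1⟩ := h'.f s ρ σ e
    obtain ⟨ρ'', e'', h2⟩ := h.f s ρ' σ e'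
    exact ⟨ρ'', e'', h2.trans h1⟩
  A := fun x hx hm => h'.A x (h.A x hx hm) hm
  F := fun m' hm' hlt => (h'.F m' hm' hlt).trans (h.F m' hm' hlt)

lemma Up.Le.OK {m : Ω} {u u' : Up Ω X Θ} {x : X} (h : u'.Le m u) (hx : u'.OK m x) : u.OK m x where
  A := h.A x hx.A hx.lt
  W := hx.W
  lt := hx.lt

lemma stepf_some {n : ℕ} {f : Coh Ω Θ} {x : X} {s : Θ} {ρ : Ω} {σ : ℕ → Option Ω}
    (h : f s = some (ρ, σ)) : stepf n f x s = some (ρ, updf n x s ρ σ) := by
  simp only [stepf, h]

lemma stepf_eq_some {n : ℕ} {f : Coh Ω Θ} {x : X} {s : Θ} {ρ : Ω} {τ : ℕ → Option Ω}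
    (h : stepf n f x s = some (ρ, τ)) : ∃ σ, f s = some (ρ, σ) ∧ τ = updf n x s ρ σ := by
  unfold stepf at h
  split at h
  · exact absurd h (by simp)
  · rename_i ρ' σ he
    simp only [Option.some.injEq, Prod.mk.injEq] at h
    obtain ⟨rfl, rfl⟩ := h
    exact ⟨σ, he, rfl⟩

lemma Up.Le.step {m : Ω} {u u' : Up Ω X Θ} {x : X} (n : ℕ) (h : u'.Le m u) (hx : u'.OK m x) :
    (u'.step n x).Le (D.kx x) (u.step n x) where
  c := h.F _ hx.W hx.lt
  f := by
    intro s ρ τ e
    obtain ⟨σ, e1, e2⟩ := stepf_eq_some e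
    obtain ⟨ρ', e3, e4⟩ := h.f s ρ σ e1
    refine ⟨ρ', ?_, ?_⟩
    · change stepf n u'.f x s = _
      rw [stepf_some e3, e2]
      unfold updf
      have h1 : ρ' < D.kx x ↔ ρ < D.kx x := by
        have h2 : max ρ' m < D.kx x ↔ max ρ m < D.kx x := by rw [e4]
        rw [max_lt_iff, max_lt_iff] at h2
        constructor
        · exact fun h3 => (h2.1 ⟨h3, hx.lt⟩).1
        · exact fun h3 => (h2.2 ⟨h3, hx.lt⟩).1
      simp only [h1]
    · have h5 : max (max ρ' m) (D.kx x) = max (max ρ m) (D.kx x) := by rw [e4]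
      rwa [max_assoc, max_assoc, max_eq_right hx.lt.le] at h5
  A := fun y hy hlt => h.A y hy (hx.lt.trans hlt)
  F := fun m' hm' hlt => h.F m' hm' (hx.lt.trans hlt)

lemma Up.V.step {m : Ω} {u : Up Ω X Θ} {x : X} (n : ℕ) (h : u.V m) (hx : u.OK m x) :
    (u.step n x).V (D.kx x) where
  hc := h.hF _ hx.W
  ff := by
    intro s ρ τ e
    obtain ⟨σ, e1, e2⟩ := stepf_eq_some e
    have h1 := h.ff s ρ σ e1
    rw [e2]
    refine (h1.union (Set.finite_singleton n)).subset ?_
    intro k hk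
    by_cases hkn : k = n
    · exact Or.inr hkn
    · left
      change σ k ≠ none
      change updf n x s ρ σ k ≠ none at hk
      unfold updf at hk
      split_ifs at hk
      · rwa [Function.update_of_ne hkn] at hk
      · exact hk
  fs := by
    intro m' hm' hlt
    refine le_trans (mk_le_mk_of_subset ?_) (h.fs m' hm' (hx.lt.trans hlt))
    rintro s ⟨ρ, τ, e, hρ⟩
    obtain ⟨σ, e1, -⟩ := stepf_eq_some e
    exact ⟨ρ, σ, e1, hρ⟩
  hA := h.hA
  hF := h.hF

/-! ### The transfer -/

lemma tr_sub {c c' : PS Θ} (h : Sub c c') (x : X) : Sub (tr x c : PO Ω) (tr x c') := by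
  intro a b hab
  unfold tr at hab ⊢
  split_ifs at hab ⊢ with h1
  · exact h _ _ hab

lemma tr_bel (c : PS Θ) (x : X) : Bel (tr x c : PO Ω) (PE.T X Θ (D.kx x)) := by
  intro a b hab
  unfold tr at hab
  split_ifs at hab with h1
  · exact h1

lemma tr_co {θ : Cardinal.{0}} {c : PS Θ} (h : IsCo θ c) {x : X} (hx : D.kx x ∈ D.W) :
    IsCo θ (tr x c : PO Ω) := by
  refine le_trans ?_ h
  refine mk_le_of_injective (f := fun a => ⟨(D.g x a.1.1, D.g x a.1.2), ?_⟩) ?_
  · have h1 := a.2
    change tr x c a.1 ≠ none at h1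
    unfold tr at h1
    split_ifs at h1 with h2
    · exact h1
    · exact absurd rfl h1
  · rintro ⟨a, ha⟩ ⟨b, hb⟩ hab
    have key : ∀ a : Ω × Ω, tr x c a ≠ none → a.1 < PE.T X Θ (D.kx x) ∧ a.2 < PE.T X Θ (D.kx x) := by
      intro a h1
      unfold tr at h1
      split_ifs at h1 with h2
      · exact h2
      · exact absurd rfl h1
    simp only [Subtype.mk.injEq, Prod.mk.injEq] at hab ⊢
    obtain ⟨h3, h4⟩ := key a ha
    obtain ⟨h5, h6⟩ := key b hb
    refine Prod.ext ?_ ?_
    · rw [← D.hg x hx a.1 h3, hab.1, D.hg x hx b.1 h5]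
    · rw [← D.hg x hx a.2 h4, hab.2, D.hg x hx b.2 h6]

namespace Cond

/-- Adding a point. -/
noncomputable def step (p : Cond Ω X Θ) (x : X) (hx : p.u.OK p.m x) : Cond Ω X Θ where
  m := D.kx x
  s := p.m :: p.s
  r := tr x p.u.c :: p.r
  u := p.u.step p.len x
  low := ⟨hx.W, by simpa using hx.lt, tr_co p.up.hc hx.W, tr_bel _ _, p.low⟩
  up := p.up.step _ hx

lemma Dle.refl (p : Cond Ω X Θ) : p.Dle p where
  m := rfl
  s := rfl
  r := List.forall₂_same.2 fun c _ => Sub.refl c
  u := Up.Le.refl _ _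

lemma Dle.trans {p p' p'' : Cond Ω X Θ} (h : p''.Dle p') (h' : p'.Dle p) : p''.Dle p where
  m := h.m.trans h'.m
  s := h.s.trans h'.s
  r := by
    have h1 := h'.r
    have h2 := h.r
    rw [List.forall₂_iff_get] at h1 h2 ⊢
    refine ⟨h1.1.trans h2.1, fun i hi hi' => ?_⟩
    exact (h1.2 i hi (h1.1 ▸ hi)).trans (h2.2 i (h1.1 ▸ hi) hi')
  u := by
    have h1 := h.u
    rw [h'.m] at h1
    exact h1.trans h'.u

lemma Dle.len {p p' : Cond Ω X Θ} (h : p'.Dle p) : p'.len = p.len := by
  unfold Cond.len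
  rw [h.m, h.s]

lemma Dle.OK {p p' : Cond Ω X Θ} {x : X} (h : p'.Dle p) (hx : p'.u.OK p'.m x) :
    p.u.OK p.m x := by
  rw [h.m] at hx
  exact h.u.OK hx

lemma Dle.step {p p' : Cond Ω X Θ} {x : X} (h : p'.Dle p) (hx : p'.u.OK p'.m x) :
    (p'.step x hx).Dle (p.step x (h.OK hx)) where
  m := rfl
  s := by
    change p'.m :: p'.s = p.m :: p.s
    rw [h.m, h.s]
  r := List.Forall₂.cons (tr_sub h.u.c x) h.r
  u := by
    change (p'.u.step p'.len x).Le (D.kx x) (p.u.step p.len x)
    rw [h.len]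
    have h1 := h.m ▸ hx
    exact h.u.step _ h1

/-- The order of the forcing notion: `Ext p' p` says that `p'` is stronger than `p`. -/
inductive Ext : Cond Ω X Θ → Cond Ω X Θ → Prop
  | dir {p' p : Cond Ω X Θ} : p'.Dle p → Ext p' p
  | step {p' p : Cond Ω X Θ} (x : X) (hx : p.u.OK p.m x) : Ext p' (p.step x hx) → Ext p' p

lemma Ext.dle_trans {p p' q : Cond Ω X Θ} (h : Ext q p') (h' : p'.Dle p) : Ext q p := by
  induction h generalizing p with
  | dir h1 => exact .dir (h1.trans h')
  | step x hx _ ih => exact .step x (h'.OK hx) (ih (h'.step hx))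

lemma Ext.trans {p p' p'' : Cond Ω X Θ} (h : Ext p'' p') (h' : Ext p' p) : Ext p'' p := by
  induction h' generalizing p'' with
  | dir h1 => exact h.dle_trans h1
  | step x hx _ ih => exact .step x hx (ih h)

instance : Preorder (Cond Ω X Θ) where
  le p' p := Ext p' p
  le_refl p := .dir (Dle.refl p)
  le_trans _ _ _ h h' := Ext.trans h h'

lemma le_def {p' p : Cond Ω X Θ} : p' ≤ p ↔ Ext p' p := Iff.rfl

lemma Dle.le {p' p : Cond Ω X Θ} (h : p'.Dle p) : p' ≤ p := .dir h

lemma step_le (p : Cond Ω X Θ) (x : X) (hx : p.u.OK p.m x) : p.step x hx ≤ p :=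
  .step x hx (.dir (Dle.refl _))

end Cond

end Pool.UL
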