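import Pool.Agent.Lib.MP_9fc97b_ul.FN

/-!
# UL, task V: deciding statements
-/

set_option autoImplicit false
set_option linter.unusedSectionVars false

open Cardinal Set Order

namespace Pool.UL

variable {Ω : Type} [LinearOrder Ω] [WellFoundedLT Ω] {X Θ : Type} [D : PE Ω X Θ]

/-- `R` is (the relation `q ⊩ φ` of) a statement `φ`. -/
def Mono (R : Cond Ω X Θ → Prop) : Prop := ∀ q q', q' ≤ q → R q → R q'

/-- `R` is dense below `q`. -/
def Pos (R : Cond Ω X Θ → Prop) (q : Cond Ω X Θ) : Prop := ∀ q' ≤ q, ∃ q'' ≤ q', R q''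

/-- `R` never holds below `q`. -/
def Neg (R : Cond Ω X Θ → Prop) (q : Cond Ω X Θ) : Prop := ∀ q' ≤ q, ¬ R q'

/-- `q` decides `R`. -/
def Dcd (R : Cond Ω X Θ → Prop) (q : Cond Ω X Θ) : Prop := Pos R q ∨ Neg R q

lemma Pos.mono {R : Cond Ω X Θ → Prop} {q q' : Cond Ω X Θ} (h : Pos R q) (hq : q' ≤ q) :
    Pos R q' := fun q'' hq'' => h q'' (hq''.trans hq)

lemma Dcd.mono {R : Cond Ω X Θ → Prop} {q q' : Cond Ω X Θ} (h : Dcd R q) (hq : q' ≤ q) :
    Dcd R q' := by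
  rcases h with h | h
  · exact Or.inl (h.mono hq)
  · exact Or.inr fun q'' hq'' => h q'' (hq''.trans hq)

/-- If `R` holds somewhere below a condition that decides `R`, then `R` is dense below it. -/
lemma Dcd.pos {R : Cond Ω X Θ → Prop} {q q' : Cond Ω X Θ} (h : Dcd R q) (hq : q' ≤ q)
    (hR : R q') : Pos R q := by
  rcases h with h | h
  · exact h
  · exact absurd hR (h q' hq)

/-- Every direct extension has a one step extension; it extends the corresponding step of the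
original condition. -/
theorem V1_step {p q' : Cond Ω X Θ} (h : q'.Dle p) : ∃ x, ∃ hx : p.u.OK p.m x,
    ∃ hx' : q'.u.OK q'.m x, q'.step x hx' ≤ q' ∧ q'.step x hx' ≤ p.step x hx := by
  obtain ⟨x, hx, -⟩ := q'.exists_step q'.m
  exact ⟨x, h.OK hx, hx, q'.step_le x hx, (h.step hx).le⟩

/-- The extensions of a condition. -/
theorem V1_cases {p q' : Cond Ω X Θ} (h : q' ≤ p) :
    ∃ q'' ≤ q', ∃ x, ∃ hx : p.u.OK p.m x, q'' ≤ p.step x hx := by
  cases h with
  | dir h1 =>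
    obtain ⟨x, hx, hx', h2, h3⟩ := V1_step h1
    exact ⟨_, h2, x, hx, h3⟩
  | step x hx h1 => exact ⟨q', le_rfl, x, hx, h1⟩

/-- Statements are decided by direct extensions. -/
theorem decide_dle {R : Cond Ω X Θ → Prop} (hR : Mono R) (p : Cond Ω X Θ) :
    ∃ q : Cond Ω X Θ, q.Dle p ∧ Dcd R q := by
  have hJ : #Bool < D.κ := by
    rw [mk_fintype]
    exact (natCast_lt_aleph0 (n := Fintype.card Bool)).trans D.κ_inacc.aleph0_lt
  set G : Bool → Set (Cond Ω X Θ) := fun j => match j with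
    | true => {q | Pos R q}
    | false => {q | Neg R q} with hG
  have g1 : ∀ j (p p' : Cond Ω X Θ), p'.Dle p → p ∈ G j → p' ∈ G j := by
    rintro (_ | _) p p' hpp hmem q' hq'
    · exact hmem q' (hq'.trans hpp.le)
    · exact hmem q' (hq'.trans hpp.le)
  have g2 : ∀ j (p : Cond Ω X Θ), (∀ x (hx : p.u.OK p.m x), p.step x hx ∈ G j) →
      ∃ j', p ∈ G j' := by
    rintro (_ | _) p hst
    · refine ⟨false, fun q' hq' hb => ?_⟩
      obtain ⟨q'', h1, x, hx, h2⟩ := V1_cases hq'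
      exact hst x hx q'' h2 (hR _ _ h1 hb)
    · refine ⟨true, fun q' hq' => ?_⟩
      obtain ⟨q'', h1, x, hx, h2⟩ := V1_cases hq'
      obtain ⟨q3, h3, h4⟩ := hst x hx q'' h2
      exact ⟨q3, h3.trans h1, h4⟩
  have g3 : ∀ p : Cond Ω X Θ, ∃ q ≤ p, ∃ j, q ∈ G j := by
    intro p
    by_cases h : ∃ q' ≤ p, R q'
    · obtain ⟨q', h1, hb⟩ := h
      exact ⟨q', h1, true, fun q'' h3 => ⟨q'', le_rfl, hR _ _ h3 hb⟩⟩
    · exact ⟨p, le_rfl, false, fun q' h1 hb => h ⟨q', h1, hb⟩⟩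
  obtain ⟨q, hq, j, hj⟩ := prikry hJ G g1 g2 g3 p
  refine ⟨q, hq, ?_⟩
  rcases j with _ | _
  · exact Or.inr hj
  · exact Or.inl hj

section V2
lemma V2_len : ∀ (t : List Ω) {r : List (PO Ω)}, LowV X Θ t r → r.length = t.length
  | [], [], _ => rfl
  | [], _ :: _, h => absurd h (by simp [LowV])
  | _ :: _, [], h => absurd h (by simp [LowV])
  | _ :: t, _ :: _, h => by
    have h1 := V2_len t h.2.2.2.2
    simp only [List.length_cons, h1]

lemma V2_tail : ∀ (t₁ : List Ω) {t' : List Ω} {r₁ r₀ : List (PO Ω)}, r₁.length = t₁.length →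
    LowV X Θ (t₁ ++ t') (r₁ ++ r₀) → LowV X Θ t' r₀
  | [], _, r₁, _, hl, h => by
    have h1 : r₁ = [] := List.length_eq_zero_iff.1 (by simpa using hl)
    subst h1
    exact h
  | _ :: t₁, _, [], _, hl, _ => by simp at hl
  | _ :: t₁, _, _ :: r₁, _, hl, h => V2_tail t₁ (by simpa using hl) h.2.2.2.2

lemma V2_repl : ∀ (t₁ : List Ω) {t' : List Ω} {r₁ r₀ r₀' : List (PO Ω)},
    r₁.length = t₁.length → LowV X Θ (t₁ ++ t') (r₁ ++ r₀) → LowV X Θ t' r₀' →
    LowV X Θ (t₁ ++ t') (r₁ ++ r₀')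
  | [], _, r₁, _, _, hl, _, h' => by
    have h1 : r₁ = [] := List.length_eq_zero_iff.1 (by simpa using hl)
    subst h1
    exact h'
  | _ :: t₁, _, [], _, _, hl, _, _ => by simp at hl
  | _ :: t₁, _, _ :: r₁, _, _, hl, h, h' =>
    ⟨h.1, h.2.1, h.2.2.1, h.2.2.2.1, V2_repl t₁ (by simpa using hl) h.2.2.2.2 h'⟩

lemma V2_rd_append {α : Type} {l₁ l₂ : List α} {n : ℕ} (h : l₂.length = n) :
    (l₁ ++ l₂).rdrop n = l₁ ∧ (l₁ ++ l₂).rtake n = l₂ := by
  subst h
  unfold List.rdrop List.rtake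
  rw [List.length_append, Nat.add_sub_cancel]
  exact ⟨List.take_left' rfl, List.drop_left' rfl⟩

lemma V2_rd {α : Type} (l : List α) (n : ℕ) : l.rdrop n ++ l.rtake n = l := by
  unfold List.rdrop List.rtake
  exact List.take_append_drop _ _

lemma V2_rt_len {α : Type} {l : List α} {n : ℕ} (h : n ≤ l.length) :
    (l.rtake n).length = n := by
  unfold List.rtake
  rw [List.length_drop]
  omega

lemma V2_rd_len {α : Type} (l : List α) (n : ℕ) :
    (l.rdrop n).length = l.length - n := by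
  unfold List.rdrop
  rw [List.length_take]
  omega

lemma V2_rt_rt {α : Type} {l : List α} {n k : ℕ} (h : n ≤ k) :
    (l.rtake k).rtake n = l.rtake n := by
  unfold List.rtake
  rw [List.drop_drop, List.length_drop]
  congr 1
  omega

lemma V2_fa_rt {α β : Type} {R : α → β → Prop} {l : List α} {l' : List β}
    (h : List.Forall₂ R l l') (n : ℕ) :
    List.Forall₂ R (l.rtake n) (l'.rtake n) := by
  unfold List.rtake
  rw [h.length_eq]
  exact List.forall₂_drop _ h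

lemma V2_fa_rd {α β : Type} {R : α → β → Prop} {l : List α} {l' : List β}
    (h : List.Forall₂ R l l') (n : ℕ) :
    List.Forall₂ R (l.rdrop n) (l'.rdrop n) := by
  unfold List.rdrop
  rw [h.length_eq]
  exact List.forall₂_take _ h

lemma V2_fa_app {α β : Type} {R : α → β → Prop} {l l₁ : List α} {l' l₁' : List β}
    (h : List.Forall₂ R l l') (h' : List.Forall₂ R l₁ l₁') :
    List.Forall₂ R (l ++ l₁) (l' ++ l₁') := List.rel_append h h'

lemma V2_fs_refl (l : List (PO Ω)) : List.Forall₂ Sub l l :=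
  List.forall₂_same.2 fun c _ => Sub.refl c

lemma V2_fs_trans {l l' l'' : List (PO Ω)} (h : List.Forall₂ Sub l l')
    (h' : List.Forall₂ Sub l' l'') : List.Forall₂ Sub l l'' := by
  rw [List.forall₂_iff_get] at h h' ⊢
  refine ⟨h.1.trans h'.1, fun i hi hi' => ?_⟩
  exact (h.2 i hi (h.1 ▸ hi)).trans (h'.2 i (h.1 ▸ hi) hi')

/-- Replace the lower part below `m`. -/
lemma V2_low {m : Ω} {t₁ t₀ : List Ω} {r r' : List (PO Ω)} (h : LowV X Θ (t₁ ++ m :: t₀) r)
    (h' : LowV X Θ (m :: t₀) r') :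
    LowV X Θ (t₁ ++ m :: t₀) (r.rdrop (t₀.length + 1) ++ r') := by
  have h1 := V2_len _ h
  rw [List.length_append, List.length_cons] at h1
  have h2 : (r.rdrop (t₀.length + 1)).length = t₁.length := by
    rw [V2_rd_len]
    omega
  have h3 : LowV X Θ (t₁ ++ m :: t₀) (r.rdrop (t₀.length + 1) ++ r.rtake (t₀.length + 1)) := by
    rw [V2_rd]
    exact h
  exact V2_repl t₁ h2 h3 h'

lemma V2_low_tail {m : Ω} {t₁ t₀ : List Ω} {r : List (PO Ω)} (h : LowV X Θ (t₁ ++ m :: t₀) r) :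
    LowV X Θ (m :: t₀) (r.rtake (t₀.length + 1)) := by
  have h1 := V2_len _ h
  rw [List.length_append, List.length_cons] at h1
  have h2 : (r.rdrop (t₀.length + 1)).length = t₁.length := by
    rw [V2_rd_len]
    omega
  have h3 : LowV X Θ (t₁ ++ m :: t₀) (r.rdrop (t₀.length + 1) ++ r.rtake (t₀.length + 1)) := by
    rw [V2_rd]
    exact h
  exact V2_tail t₁ h2 h3

/-- The condition `q` with the lower part below `m` replaced by `r`. -/
def V2rep (q : Cond Ω X Θ) (n : ℕ) (r : List (PO Ω))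
    (h : LowV X Θ (q.m :: q.s) (q.r.rdrop n ++ r)) : Cond Ω X Θ :=
  ⟨q.m, q.s, q.r.rdrop n ++ r, q.u, h, q.up⟩

lemma V2rep_mono {q q' : Cond Ω X Θ} {n : ℕ} {r r' : List (PO Ω)}
    (h : LowV X Θ (q.m :: q.s) (q.r.rdrop n ++ r))
    (h' : LowV X Θ (q'.m :: q'.s) (q'.r.rdrop n ++ r')) (hq : q'.Dle q)
    (hr : List.Forall₂ Sub r r') : (V2rep q' n r' h').Dle (V2rep q n r h) where
  m := hq.m
  s := hq.s
  r := V2_fa_app (V2_fa_rd hq.r n) hr
  u := hq.u

lemma V2rep_dle {q : Cond Ω X Θ} {n : ℕ} {r : List (PO Ω)}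
    (h : LowV X Θ (q.m :: q.s) (q.r.rdrop n ++ r))
    (hr : List.Forall₂ Sub (q.r.rtake n) r) : (V2rep q n r h).Dle q where
  m := rfl
  s := rfl
  r := by
    have h1 : List.Forall₂ Sub (q.r.rdrop n ++ q.r.rtake n) (q.r.rdrop n ++ r) :=
      V2_fa_app (V2_fs_refl _) hr
    rw [V2_rd] at h1
    exact h1
  u := Up.Le.refl _ _

lemma V2rep_congr {q : Cond Ω X Θ} {n : ℕ} {r r' : List (PO Ω)}
    (h : LowV X Θ (q.m :: q.s) (q.r.rdrop n ++ r))
    (h' : LowV X Θ (q.m :: q.s) (q.r.rdrop n ++ r')) (e : r = r') :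
    V2rep q n r h = V2rep q n r' h' := by
  subst e
  rfl

/-- The lower part of an extension. -/
lemma V2_ext_r {q q' : Cond Ω X Θ} (h : q' ≤ q) :
    List.Forall₂ Sub q.r (q'.r.rtake q.len) := by
  have h0 : Cond.Ext q' q := h
  clear h
  induction h0 with
  | @dir p h1 =>
    have h2 : q'.r.rtake p.len = q'.r := by
      have h3 : p.r.length = p.len := V2_len _ p.low
      have h4 : q'.r.length = p.len := by rw [← h3, h1.r.length_eq]
      unfold List.rtake
      rw [h4, Nat.sub_self, List.drop_zero]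
    rw [h2]
    exact h1.r
  | @step p x hx _ ih =>
    have h1 : List.Forall₂ Sub (tr x p.u.c :: p.r) (q'.r.rtake (p.len + 1)) := ih
    have h2 := V2_fa_rt h1 p.len
    rw [V2_rt_rt (Nat.le_succ _)] at h2
    have h3 : (tr x p.u.c :: p.r).rtake p.len = p.r :=
      (V2_rd_append (l₁ := [tr x p.u.c]) (V2_len _ p.low)).2
    rw [h3] at h2
    exact h2

end V2

/-- Deciding `θ_m` many statements by the lower part below `m`. -/
theorem meet_low {A : Type} {m : Ω} {t₁ t₀ : List Ω} (hA : #A ≤ th X Θ m)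
    {p : Cond Ω X Θ} (hp : p.t = t₁ ++ m :: t₀)
    {R : A → Cond Ω X Θ → Prop} (hR : ∀ a, Mono (R a)) :
    ∃ q : Cond Ω X Θ, q.Dle p ∧ ∀ a, ∀ q' ≤ q, ∃ r' : List (PO Ω),
      List.Forall₂ Sub (q'.r.rtake (t₀.length + 1)) r' ∧ LowV X Θ (m :: t₀) r' ∧
      ∃ h' : LowV X Θ (q.m :: q.s) (q.r.rdrop (t₀.length + 1) ++ r'),
        Dcd (R a) (V2rep q (t₀.length + 1) r' h') ∧
        ∃ q'' ≤ q', q'' ≤ V2rep q (t₀.length + 1) r' h' := by
  have hmW : m ∈ D.W := by
    have h1 := p.low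
    change LowV X Θ p.t p.r at h1
    rw [hp] at h1
    exact (V2_low_tail h1).mem_W
  have htlow : ∀ q : Cond Ω X Θ, q.t = t₁ ++ m :: t₀ → LowV X Θ (t₁ ++ m :: t₀) q.r := by
    intro q hq
    have h1 : LowV X Θ q.t q.r := q.low
    rwa [hq] at h1
  -- the index type
  set n : ℕ := t₀.length + 1 with hn
  have hlen : ∀ q : Cond Ω X Θ, q.t = t₁ ++ m :: t₀ → q.r.length = t₁.length + n := by
    intro q hq
    rw [V2_len _ (htlow q hq)]
    simp only [List.length_append, List.length_cons, hn]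
  have hrep : ∀ q : Cond Ω X Θ, q.t = t₁ ++ m :: t₀ → ∀ r, LowV X Θ (m :: t₀) r →
      LowV X Θ (q.m :: q.s) (q.r.rdrop n ++ r) := by
    intro q hq r hr
    change LowV X Θ q.t _
    rw [hq]
    exact V2_low (htlow q hq) hr
  have htail : ∀ q : Cond Ω X Θ, q.t = t₁ ++ m :: t₀ → LowV X Θ (m :: t₀) (q.r.rtake n) :=
    fun q hq => V2_low_tail (htlow q hq)
  have hinf : ℵ₀ ≤ th X Θ m := (aleph0_lt_th hmW).le
  have hι : #(A × {r : List (PO Ω) | LowV X Θ (m :: t₀) r}) ≤ th X Θ m := by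
    rw [Cardinal.mk_prod, Cardinal.lift_id, Cardinal.lift_id]
    refine Cardinal.mul_le_of_le hinf hA ?_
    exact mk_low_le (X := X) (Θ := Θ)
  let S : A × {r : List (PO Ω) | LowV X Θ (m :: t₀) r} → Set (Cond Ω X Θ) := fun z =>
    {q | q.t = t₁ ++ m :: t₀ → List.Forall₂ Sub (q.r.rtake n) z.2.1 →
      ∃ r', List.Forall₂ Sub z.2.1 r' ∧ LowV X Θ (m :: t₀) r' ∧
        ∃ h' : LowV X Θ (q.m :: q.s) (q.r.rdrop n ++ r'), Dcd (R z.1) (V2rep q n r' h')}
  obtain ⟨q, hqp, hqS⟩ := Cond.meet (m := m) (t₁ := t₁) (t₀ := t₀) hι S p hp (by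
    intro z q q' hq' hq ht hsub
    have ht' : q.t = t₁ ++ m :: t₀ := by
      rw [← ht]
      unfold Cond.t
      rw [hq'.1.m, hq'.1.s]
    rw [hq'.2] at hsub
    obtain ⟨r', h1, h2, h3, h4⟩ := hq ht' hsub
    refine ⟨r', h1, h2, hrep q' ht r' h2, ?_⟩
    exact h4.mono (V2rep_mono h3 _ hq'.1 (V2_fs_refl _)).le) (by
    intro z q hq
    by_cases hsub : List.Forall₂ Sub (q.r.rtake n) z.2.1
    · have ht : q.t = t₁ ++ m :: t₀ := by
        rw [← hp]
        unfold Cond.t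
        rw [hq.1.m, hq.1.s]
      have hlow := hrep q ht z.2.1 z.2.2
      have hd1 : (V2rep q n z.2.1 hlow).Dle q := V2rep_dle hlow hsub
      obtain ⟨q₁, hq₁, hdec⟩ := decide_dle (hR z.1) (V2rep q n z.2.1 hlow)
      have hq₁q : q₁.Dle q := hq₁.trans hd1
      have ht₁ : q₁.t = t₁ ++ m :: t₀ := by
        rw [← ht]
        unfold Cond.t
        rw [hq₁q.m, hq₁q.s]
      have hlow' := hrep q₁ ht₁ (q.r.rtake n) (htail q ht)
      have hrt : (q₁.r.rdrop n ++ q.r.rtake n).rdrop n = q₁.r.rdrop n ∧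
          (q₁.r.rdrop n ++ q.r.rtake n).rtake n = q.r.rtake n :=
        V2_rd_append (V2_rt_len (by rw [hlen q ht]; omega))
      refine ⟨V2rep q₁ n (q.r.rtake n) hlow', ⟨⟨hq₁q.m, hq₁q.s, ?_, hq₁q.u⟩, hrt.2⟩, ?_⟩
      · have h5 : List.Forall₂ Sub (q.r.rdrop n ++ q.r.rtake n) (q₁.r.rdrop n ++ q.r.rtake n) :=
          V2_fa_app (V2_fa_rd hq₁q.r n) (V2_fs_refl _)
        rw [V2_rd] at h5
        exact h5
      · intro _ _
        have h6 : List.Forall₂ Sub z.2.1 (q₁.r.rtake n) := by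
          have h7 := V2_fa_rt hq₁.r n
          have h8 : (q.r.rdrop n ++ z.2.1).rtake n = z.2.1 :=
            (V2_rd_append (V2_len _ z.2.2)).2
          change List.Forall₂ Sub ((q.r.rdrop n ++ z.2.1).rtake n) (q₁.r.rtake n) at h7
          rwa [h8] at h7
        have hlow'' : LowV X Θ (q₁.m :: q₁.s) ((q₁.r.rdrop n ++ q.r.rtake n).rdrop n ++
            q₁.r.rtake n) := by
          rw [hrt.1]
          exact hrep q₁ ht₁ _ (htail q₁ ht₁)
        refine ⟨q₁.r.rtake n, h6, htail q₁ ht₁, hlow'', ?_⟩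
        refine hdec.mono ?_
        refine Cond.Dle.le ⟨rfl, rfl, ?_, Up.Le.refl _ _⟩
        change List.Forall₂ Sub q₁.r ((q₁.r.rdrop n ++ q.r.rtake n).rdrop n ++ q₁.r.rtake n)
        rw [hrt.1, V2_rd]
        exact V2_fs_refl _
    · exact ⟨q, ⟨Cond.Dle.refl q, rfl⟩, fun _ h => absurd h hsub⟩)
  have ht : q.t = t₁ ++ m :: t₀ := by
    rw [← hp]
    unfold Cond.t
    rw [hqp.1.m, hqp.1.s]
  have hqle : q ≤ p := hqp.1.le
  refine ⟨q, hqp.1, fun a q' hq' => ?_⟩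
  -- the lower part of `q'`
  have hr₁ : List.Forall₂ Sub q.r (q'.r.rtake q.len) := V2_ext_r hq'
  have hlen' : q.len = t₁.length + n := by
    rw [← hlen q ht]
    exact (V2_len _ q.low).symm
  have hlow₁ : LowV X Θ (t₁ ++ m :: t₀) (q'.r.rtake q.len) := by
    obtain ⟨t₂, ht₂⟩ := Cond.le_t hq'
    have h1 : LowV X Θ (t₂ ++ (t₁ ++ m :: t₀)) q'.r := by
      rw [← ht, ht₂]
      exact q'.low
    have h2 := V2_len _ h1
    have h3 : (q'.r.rdrop q.len).length = t₂.length := by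
      rw [V2_rd_len, h2, List.length_append, ← ht]
      exact Nat.add_sub_cancel _ _
    rw [← V2_rd q'.r q.len] at h1
    exact V2_tail t₂ h3 h1
  have hlow₀ : LowV X Θ (m :: t₀) (q'.r.rtake n) := by
    have h1 := V2_low_tail hlow₁
    rwa [V2_rt_rt (by omega : t₀.length + 1 ≤ q.len)] at h1
  have hsub₀ : List.Forall₂ Sub (q.r.rtake n) (q'.r.rtake n) := by
    have h1 := V2_fa_rt hr₁ n
    rwa [V2_rt_rt (by omega : n ≤ q.len)] at h1
  obtain ⟨r', hr', hlr', hlow', hdec⟩ := hqS (a, ⟨q'.r.rtake n, hlow₀⟩) ht hsub₀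
  have hfull : LowV X Θ (t₁ ++ m :: t₀) ((q'.r.rtake q.len).rdrop n ++ r') := V2_low hlow₁ hlr'
  have hfull' : LowV X Θ q.t ((q'.r.rtake q.len).rdrop n ++ r') := by rwa [ht]
  have hsub₁ : List.Forall₂ Sub (q'.r.rtake q.len) ((q'.r.rtake q.len).rdrop n ++ r') := by
    have h1 : List.Forall₂ Sub ((q'.r.rtake q.len).rdrop n ++ (q'.r.rtake q.len).rtake n)
        ((q'.r.rtake q.len).rdrop n ++ r') := by
      refine V2_fa_app (V2_fs_refl _) ?_
      rw [V2_rt_rt (by omega : n ≤ q.len)]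
      exact hr'
    rwa [V2_rd] at h1
  obtain ⟨q'', hq'', hq''c⟩ := Cond.exists_common hfull' (V2_fs_trans hr₁ hsub₁) hq' hsub₁
  have hle : q'' ≤ V2rep q n r' hlow' := by
    refine hq''c.trans (Cond.Dle.le ⟨rfl, rfl, ?_, Up.Le.refl _ _⟩)
    exact V2_fa_app (V2_fa_rd hr₁ n) (V2_fs_refl _)
  exact ⟨r', hr', hlr', hlow', hdec, q'', hq'', hle⟩

/-! ### Row V3: helper lemmas -/

lemma V3_length {t : List Ω} {r : List (PO Ω)} (h : LowV X Θ t r) : r.length = t.length := by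
  induction t generalizing r with
  | nil =>
    cases r with
    | nil => rfl
    | cons c r => exact absurd h (by simp [LowV])
  | cons m t ih =>
    cases r with
    | nil => exact absurd h (by simp [LowV])
    | cons c r => rw [List.length_cons, List.length_cons, ih h.2.2.2.2]

/-- The lower part of a suffix of the stem. -/
lemma V3_low_drop {t₁ t₀ : List Ω} {r : List (PO Ω)} (h : LowV X Θ (t₁ ++ t₀) r) :
    LowV X Θ t₀ (r.drop t₁.length) := by
  induction t₁ generalizing r with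
  | nil => simpa using h
  | cons m t ih =>
    cases r with
    | nil => exact absurd h (by simp [LowV])
    | cons c r =>
      have h1 : LowV X Θ (t ++ t₀) r := h.2.2.2.2
      simpa using ih h1

lemma V3_rtake {p q : Cond Ω X Θ} (h : q ≤ p) : LowV X Θ p.t (q.r.rtake p.len) := by
  obtain ⟨t₁, ht⟩ := Cond.le_t h
  have hq : LowV X Θ q.t q.r := q.low
  have hl := V3_length hq
  rw [← ht] at hq
  have h2 := V3_low_drop hq
  have h3 : q.r.length - p.len = t₁.length := by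
    rw [hl, ← ht, List.length_append]
    change t₁.length + (p.m :: p.s).length - (p.m :: p.s).length = t₁.length
    omega
  unfold List.rtake
  rw [h3]
  exact h2

lemma V3_forall₂_triv {n : ℕ} {r : List (PO Ω)} (h : r.length = n) :
    List.Forall₂ Sub (Cond.triv Ω n) r := by
  unfold Cond.triv
  induction r generalizing n with
  | nil =>
    subst h
    exact List.Forall₂.nil
  | cons c r ih =>
    subst h
    exact List.Forall₂.cons (fun a b hab => absurd hab (by simp)) (ih rfl)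

/-- Deciding at all lower parts of the stem of `p`. -/
theorem V3_meet {A : Type} (p : Cond Ω X Θ) (hA : #A ≤ th X Θ p.m) (Dec : A → Set (Cond Ω X Θ))
    (hDec : ∀ a (q q' : Cond Ω X Θ), q'.Dle q → q ∈ Dec a → q' ∈ Dec a)
    (hd : ∀ a (q : Cond Ω X Θ), ∃ q' : Cond Ω X Θ, q'.Dle q ∧ q' ∈ Dec a) :
    ∃ (u : Up Ω X Θ) (hu : u.V p.m), u.Le p.m p.u ∧ ∀ a (q : Cond Ω X Θ),
      q ≤ (p.withU u hu).erase → ∃ (r : List (PO Ω)) (hr : LowV X Θ p.t r),
        List.Forall₂ Sub (q.r.rtake p.len) r ∧ (⟨p.m, p.s, r, u, hr, hu⟩ : Cond Ω X Θ) ∈ Dec a ∧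
          ∃ q' ≤ q, q' ≤ (⟨p.m, p.s, r, u, hr, hu⟩ : Cond Ω X Θ) := by
  have hm : p.m ∈ D.W := p.low.mem_W
  have hinf : ℵ₀ ≤ th X Θ p.m :=
    (aleph0_lt_th hm).le
  have hι : #(A × {r : List (PO Ω) // LowV X Θ (p.m :: p.s) r}) ≤ th X Θ p.m := by
    rw [mk_prod, lift_id, lift_id]
    exact mul_le_of_le hinf hA (mk_low_le (X := X) (Θ := Θ))
  obtain ⟨u, hu, hle, hS⟩ := Up.meet hm hι
    (fun i => {v : Up Ω X Θ | ∀ hv : v.V p.m, ∃ (r' : List (PO Ω)) (hr' : LowV X Θ p.t r'),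
      List.Forall₂ Sub i.2.1 r' ∧ (⟨p.m, p.s, r', v, hr', hv⟩ : Cond Ω X Θ) ∈ Dec i.1})
    (by
      intro i v v' hv hv' hle hvS hv''
      obtain ⟨r', hr', h1, h2⟩ := hvS hv
      have h3 : (⟨p.m, p.s, r', v', hr', hv''⟩ : Cond Ω X Θ).Dle ⟨p.m, p.s, r', v, hr', hv⟩ :=
        ⟨rfl, rfl, List.forall₂_same.2 fun c _ => Sub.refl c, hle⟩
      exact ⟨r', hr', h1, hDec _ _ _ h3 h2⟩)
    (by
      intro i v hv
      obtain ⟨q', h1, h2⟩ := hd i.1 (⟨p.m, p.s, i.2.1, v, i.2.2, hv⟩ : Cond Ω X Θ)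
      obtain ⟨m', s', r', v', hr', hv'⟩ := q'
      have e1 : m' = p.m := h1.m
      have e2 : s' = p.s := h1.s
      subst e1
      subst e2
      exact ⟨v', hv', h1.u, fun hv'' => ⟨r', hr', h1.r, h2⟩⟩)
    p.u p.up
  refine ⟨u, hu, hle, fun a q hq => ?_⟩
  have h1 : LowV X Θ p.t (q.r.rtake p.len) := V3_rtake (p := (p.withU u hu).erase) hq
  obtain ⟨r', hr', h2, h3⟩ := hS (a, ⟨q.r.rtake p.len, h1⟩) hu
  refine ⟨r', hr', h2, h3, ?_⟩
  have h4 : List.Forall₂ Sub ((p.withU u hu).erase).r r' :=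
    V3_forall₂_triv (V3_length hr')
  exact Cond.exists_common (p := (p.withU u hu).erase) hr' h4 hq h2


end Pool.UL
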