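import Mathlib

/-!
# UL: the interface to the large cardinal

`Ω` = the ordinals below `κ` (a well-ordered type), `crd a` = the cardinality of the set of
predecessors of `a`.  `Θ` = the set of coordinates (of cardinality `Θ`), `X = P_κ(Θ)`.
-/

set_option autoImplicit false

open Cardinal Set Order

namespace Pool.UL

/-- The cardinality of the ordinal `a`. -/
noncomputable def crd {Ω : Type} [LinearOrder Ω] (a : Ω) : Cardinal.{0} := #(Iio a)

/-- Everything we need about the ordinals below `κ` and about the measure on `P_κ(Θ)`. -/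
class PE (Ω : Type) [LinearOrder Ω] [WellFoundedLT Ω] (X Θ : Type) where
  /-- the large cardinal -/
  κ : Cardinal.{0}
  /-- the measure -/
  U : Ultrafilter X
  /-- the ordinal `x ∩ κ` -/
  kx : X → Ω
  /-- the set of the good inaccessible cardinals below `κ` -/
  W : Set Ω
  /-- the ordinal `T m` has the cardinality of those `x` with `κ_x = m` -/
  T : Ω → Ω
  /-- enumeration of `x` by the ordinals below `T (κ_x)` -/
  g : X → Ω → Θ
  /-- the inverse of the enumeration -/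
  h : Θ → X → Ω
  κ_inacc : κ.IsInaccessible
  mk_Ω : #Ω = κ
  crd_lt : ∀ a : Ω, crd a < κ
  mk_S_pow : #Θ ^ κ = #Θ
  S_lim : ∀ c : Cardinal.{0}, c < #Θ → (2 : Cardinal.{0}) ^ c < #Θ
  κ_lt : κ < #Θ
  W_init : ∀ m ∈ W, ∀ a < m, crd a < crd m
  W_inacc : ∀ m ∈ W, (crd m).IsInaccessible
  W_T : ∀ m ∈ W, ∀ a < m, T a < m
  T_ge : ∀ m ∈ W, m ≤ T m
  T_pow : ∀ m ∈ W, crd (T m) ^ crd m = crd (T m)
  kx_W : ∀ᶠ x in (U : Filter X), kx x ∈ W
  unb : ∀ a : Ω, ∀ᶠ x in (U : Filter X), a < kx x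
  diag : ∀ {Z : Type} (rk : Z → Ω) (B : Z → Set X), (∀ a : Ω, #{z | rk z < a} < κ) →
    (∀ z, B z ∈ U) → ∀ᶠ x in (U : Filter X), ∀ z, rk z < kx x → x ∈ B z
  diagS : ∀ B : Θ → Set X, (∀ s, B s ∈ U) →
    ∀ᶠ x in (U : Filter X), ∀ a < T (kx x), x ∈ B (g x a)
  fine : ∀ s : Θ, ∀ᶠ x in (U : Filter X), h s x < T (kx x) ∧ g x (h s x) = s
  hg : ∀ x, kx x ∈ W → ∀ a < T (kx x), h (g x a) x = a
  h_lt : ∀ x, kx x ∈ W → ∀ s, h s x < T (kx x)

end Pool.UL
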