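import Pool.Agent.Lib.MP_9fc97b_ul.HyDef

/-!
# UL, row HY1
-/

set_option autoImplicit false
set_option linter.unusedSectionVars false

open Cardinal Set Order

namespace Pool.UL

namespace Hyp

open H2

variable {κ : Cardinal.{0}} {U : Ultrafilter (X κ)}

/-- Row HY1: closure of `x` under a function of two variables (from `diagS` twice). -/
lemma NF.closed2 (h : NF κ U) (f : S κ → S κ → S κ) :
    ∀ᶠ x in (U : Filter (X κ)), ∀ z ∈ x.1, ∀ w ∈ x.1, f z w ∈ x.1 := by
  refine h.diagS (fun z => {x : X κ | ∀ w ∈ x.1, f z w ∈ x.1}) fun z => ?_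
  exact h.diagS (fun w => {x : X κ | f z w ∈ x.1}) fun w => h.fine (f z w)

/-- Row HY1: functions on `x` with values in `x` come from one function. -/
lemma NF.codeF (h : NF κ U) (φ : X κ → S κ → S κ)
    (hφ : ∀ᶠ x in (U : Filter (X κ)), ∀ z ∈ x.1, φ x z ∈ x.1) :
    ∃ f : S κ → S κ, ∀ᶠ x in (U : Filter (X κ)), ∀ z ∈ x.1, φ x z = f z := by
  have h1 : ∀ z : S κ, ∃ a : S κ, ∀ᶠ x in (U : Filter (X κ)), φ x z = a := by
    intro z
    refine h.normal (fun x => φ x z) ?_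
    filter_upwards [hφ, h.fine z] with x hx hz
    exact hx z hz
  choose f hf using h1
  exact ⟨f, h.diagS (fun z => {x : X κ | φ x z = f z}) hf⟩

/-- Row HY1: subsets of `x` come from one set. -/
lemma NF.codeY (h : NF κ U) (Y : X κ → Set (S κ)) :
    ∃ V : Set (S κ), ∀ᶠ x in (U : Filter (X κ)), ∀ z ∈ x.1, z ∈ Y x ↔ z ∈ V := by
  have h2 : #Prop < κ := lt_trans (by simp) h.unc
  have h1 : ∀ z : S κ, ∃ e : Prop, ∀ᶠ x in (U : Filter (X κ)), (z ∈ Y x) = e := fun z =>
    h.const h2 _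
  choose e he using h1
  refine ⟨{z | e z}, ?_⟩
  refine (h.diagS (fun z => {x : X κ | (z ∈ Y x) = e z}) he).mono fun x hx z hz => ?_
  have h3 : (z ∈ Y x) = e z := hx z hz
  rw [h3]
  exact Iff.rfl

end Hyp

end Pool.UL
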