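import Pool.Agent.Lib.MP_9fc97b_ul.HY1

/-!
# UL, row HY2
-/

set_option autoImplicit false
set_option linter.unusedSectionVars false

open Cardinal Set Order

namespace Pool.UL

namespace Hyp

open H2

variable {κ : Cardinal.{0}} {U : Ultrafilter (X κ)}

/-- Row HY2: if `#(Iio t) < #(Iio s)` then `#(x ∩ t) < #(x ∩ s)` for almost all `x`.  (Otherwise
choose surjections `σ_x : x ∩ t → x ∩ s`; by `codeF` they come from one function `f`; take
`z < s` outside `f '' (Iio t)`.) -/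
lemma NF.bel_lt (h : NF κ U) {s t : S κ} (hst : #(Iio t) < #(Iio s)) :
    ∀ᶠ x in (U : Filter (X κ)), #(bel x t) < #(bel x s) := by
  classical
  by_contra hcon
  have h1 : ∀ᶠ x in (U : Filter (X κ)), ∃ g : S κ → S κ, (∀ z ∈ x.1, g z ∈ x.1) ∧
      (∀ z ∈ bel x s, g z < t) ∧ InjOn g (bel x s) := by
    filter_upwards [not_ev hcon] with x hx
    rw [not_lt] at hx
    obtain ⟨e⟩ := hx
    refine ⟨fun z => if hz : z ∈ bel x s then (e ⟨z, hz⟩ : bel x t).1 else z, ?_, ?_, ?_⟩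
    · intro z hz
      by_cases hz' : z ∈ bel x s
      · simp only [dif_pos hz']
        exact (e ⟨z, hz'⟩).2.1
      · simp only [dif_neg hz']
        exact hz
    · intro z hz
      simp only [dif_pos hz]
      exact (e ⟨z, hz⟩).2.2
    · intro z hz w hw hzw
      simp only [dif_pos hz, dif_pos hw] at hzw
      exact congrArg Subtype.val (e.injective (Subtype.ext hzw))
  have h2 : ∀ x : X κ, ∃ g : S κ → S κ, (∃ g : S κ → S κ, (∀ z ∈ x.1, g z ∈ x.1) ∧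
      (∀ z ∈ bel x s, g z < t) ∧ InjOn g (bel x s)) → (∀ z ∈ x.1, g z ∈ x.1) ∧
      (∀ z ∈ bel x s, g z < t) ∧ InjOn g (bel x s) := by
    intro x
    by_cases hx : ∃ g : S κ → S κ, (∀ z ∈ x.1, g z ∈ x.1) ∧
      (∀ z ∈ bel x s, g z < t) ∧ InjOn g (bel x s)
    · obtain ⟨g, hg⟩ := hx
      exact ⟨g, fun _ => hg⟩
    · exact ⟨id, fun hx' => absurd hx' hx⟩
  choose φ hφ using h2
  have h3 : ∀ᶠ x in (U : Filter (X κ)), (∀ z ∈ x.1, φ x z ∈ x.1) ∧
      (∀ z ∈ bel x s, φ x z < t) ∧ InjOn (φ x) (bel x s) := by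
    filter_upwards [h1] with x hx
    exact hφ x hx
  obtain ⟨f, hf⟩ := h.codeF φ (h3.mono fun x hx => hx.1)
  have h4 : ∀ z : Iio s, f z < t := by
    intro z
    obtain ⟨x, ⟨hx, hx'⟩, hz⟩ := ((h3.and hf).and (h.fine z)).exists
    rw [← hx' z hz]
    exact hx.2.1 z ⟨hz, z.2⟩
  have h5 : Function.Injective fun z : Iio s => (⟨f z, h4 z⟩ : Iio t) := by
    intro z w hzw
    obtain ⟨x, ⟨hx, hx'⟩, hz, hw⟩ := ((h3.and hf).and ((h.fine z).and (h.fine w))).exists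
    have h6 : f z = f w := congrArg Subtype.val hzw
    rw [← hx' z hz, ← hx' w hw] at h6
    exact Subtype.ext (hx.2.2 ⟨hz, z.2⟩ ⟨hw, w.2⟩ h6)
  exact absurd (mk_le_of_injective h5) (not_le.2 hst)

/-- Row HY2: if `#(Iio s) ≤ #(Iio t)` then `#(x ∩ s) ≤ #(x ∩ t)` for almost all `x`. -/
lemma NF.bel_le (h : NF κ U) {s t : S κ} (hst : #(Iio s) ≤ #(Iio t)) :
    ∀ᶠ x in (U : Filter (X κ)), #(bel x s) ≤ #(bel x t) := by
  classical
  obtain ⟨e⟩ := hst
  have h1 := h.closed2 fun z _ => if hz : z < s then ((e ⟨z, hz⟩ : Iio t) : S κ) else z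
  filter_upwards [h1] with x hx
  have h2 : ∀ z : bel x s, ((e ⟨z.1, z.2.2⟩ : Iio t) : S κ) ∈ bel x t := by
    intro z
    have h3 := hx z.1 z.2.1 z.1 z.2.1
    rw [dif_pos z.2.2] at h3
    exact ⟨h3, (e ⟨z.1, z.2.2⟩).2⟩
  refine mk_le_of_injective (f := fun z : bel x s => (⟨_, h2 z⟩ : bel x t)) ?_
  intro z w hzw
  have h3 : ((e ⟨z.1, z.2.2⟩ : Iio t) : S κ) = ((e ⟨w.1, w.2.2⟩ : Iio t) : S κ) :=
    congrArg (fun y : bel x t => (y : S κ)) hzw
  have h4 := e.injective (Subtype.ext h3)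
  exact Subtype.ext (congrArg (fun y : Iio s => (y : S κ)) h4)

/-- Row HY2: `κ_x` is a subset of `x`. -/
lemma NF.kx_le (x : X κ) : crd (kx x) ≤ #x.1 := by
  refine mk_le_of_injective (f := fun a : Iio (kx x) => (⟨j κ a, mem_of_lt_kx a.2⟩ : x.1)) ?_
  intro a b hab
  exact Subtype.ext ((j κ).injective (congrArg Subtype.val hab))

/-- Row HY2: every cardinal below `#x` is the cardinality of some `x ∩ s`, `s ∈ x`. -/
lemma NF.exists_bel (x : X κ) {c : Cardinal.{0}} (hc : c < #x.1) : ∃ s ∈ x.1, #(bel x s) = c := by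
  have h1 : c.ord < Ordinal.type (α := x.1) (· < ·) :=
    lt_of_lt_of_le (ord_lt_ord.2 hc) (ord_le_type _)
  set s : x.1 := Ordinal.enum (α := x.1) (· < ·) ⟨c.ord, h1⟩ with hs
  refine ⟨s, s.2, ?_⟩
  have h2 : (Ordinal.typein (α := x.1) (· < ·) s).card = c := by
    rw [hs, Ordinal.typein_enum, card_ord]
  rw [Ordinal.card_typein] at h2
  rw [← h2]
  refine Cardinal.mk_congr ⟨fun z => ⟨⟨z.1, z.2.1⟩, z.2.2⟩, fun z => ⟨z.1.1, z.1.2, z.2⟩, ?_, ?_⟩
  · intro z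
    rfl
  · intro z
    rfl

end Hyp

end Pool.UL
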