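import Pool.Agent.Lib.MP_9fc97b_ul.HY2

/-!
# UL, row HY3
-/

set_option autoImplicit false
set_option linter.unusedSectionVars false

open Cardinal Set Order

namespace Pool.UL

namespace Hyp

open H2

variable {κ : Cardinal.{0}} {U : Ultrafilter (X κ)}

private lemma HY3_key (h : NF κ U) {s t : S κ} (ι : Set (Iio s) ↪ Iio t) :
    ∀ᶠ x in (U : Filter (X κ)), ∀ Y : Set (S κ), Y ⊆ bel x s →
      ∃ V : Set (Iio s), (Subtype.val '' V) ∩ x.1 = Y ∧ ((ι V : Iio t) : S κ) ∈ x.1 := by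
  by_contra hcon
  have h1 : ∀ᶠ x in (U : Filter (X κ)), ∃ Y : Set (S κ), Y ⊆ bel x s ∧
      ∀ V : Set (Iio s), (Subtype.val '' V) ∩ x.1 = Y → ((ι V : Iio t) : S κ) ∉ x.1 := by
    filter_upwards [not_ev hcon] with x hx
    push Not at hx
    exact hx
  have h2 : ∀ x : X κ, ∃ Y : Set (S κ), (∃ Y : Set (S κ), Y ⊆ bel x s ∧
      ∀ V : Set (Iio s), (Subtype.val '' V) ∩ x.1 = Y → ((ι V : Iio t) : S κ) ∉ x.1) →
      Y ⊆ bel x s ∧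
      ∀ V : Set (Iio s), (Subtype.val '' V) ∩ x.1 = Y → ((ι V : Iio t) : S κ) ∉ x.1 := by
    intro x
    by_cases hx : ∃ Y : Set (S κ), Y ⊆ bel x s ∧
      ∀ V : Set (Iio s), (Subtype.val '' V) ∩ x.1 = Y → ((ι V : Iio t) : S κ) ∉ x.1
    · obtain ⟨Y, hY⟩ := hx
      exact ⟨Y, fun _ => hY⟩
    · exact ⟨∅, fun h' => absurd h' hx⟩
  choose Y hY using h2
  obtain ⟨V0, hV0⟩ := h.codeY Y
  obtain ⟨x, hx1, hx2, hx3⟩ := (h1.and (hV0.and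
    (h.fine ((ι {z : Iio s | (z : S κ) ∈ V0} : Iio t) : S κ)))).exists
  have hx4 := hY x hx1
  refine hx4.2 {z : Iio s | (z : S κ) ∈ V0} ?_ hx3
  ext z
  constructor
  · rintro ⟨⟨z', hz', rfl⟩, hzx⟩
    exact (hx2 _ hzx).2 hz'
  · intro hz
    have hz' := hx4.1 hz
    exact ⟨⟨⟨z, hz'.2⟩, (hx2 z hz'.1).1 hz, rfl⟩, hz'.1⟩

/-- Row HY3: power sets.  If `2 ^ #(Iio s) ≤ #(Iio t)` then `2 ^ #(x ∩ s) ≤ #(x ∩ t)`. -/
lemma NF.bel_pow (h : NF κ U) {s t : S κ} (hst : 2 ^ #(Iio s) ≤ #(Iio t)) :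
    ∀ᶠ x in (U : Filter (X κ)), (2 : Cardinal.{0}) ^ #(bel x s) ≤ #(bel x t) := by
  rw [← mk_set] at hst
  obtain ⟨ι⟩ := hst
  filter_upwards [HY3_key h ι] with x hx
  have hsub : ∀ Y : Set (bel x s), Subtype.val '' Y ⊆ bel x s := by
    rintro Y _ ⟨z, -, rfl⟩
    exact z.2
  choose V hV1 hV2 using fun Y : Set (bel x s) => hx (Subtype.val '' Y) (hsub Y)
  rw [← mk_set]
  refine mk_le_of_injective (f := fun Y : Set (bel x s) =>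
    (⟨((ι (V Y) : Iio t) : S κ), hV2 Y, (ι (V Y) : Iio t).2⟩ : bel x t)) ?_
  intro Y Y' hYY
  have h1 : ((ι (V Y) : Iio t) : S κ) = ((ι (V Y') : Iio t) : S κ) :=
    congrArg (fun z : bel x t => (z : S κ)) hYY
  have h2 : V Y = V Y' := ι.injective (Subtype.ext h1)
  have h3 : Subtype.val '' Y = Subtype.val '' Y' := by
    rw [← hV1 Y, ← hV1 Y', h2]
  exact Subtype.val_injective.image_injective h3

/-- Row HY3: if `#(Iio s) ≤ 2 ^ #(Iio t)` then `#(x ∩ s) ≤ 2 ^ #(x ∩ t)`. -/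
lemma NF.bel_pow' (h : NF κ U) {s t : S κ} (hst : #(Iio s) ≤ 2 ^ #(Iio t)) :
    ∀ᶠ x in (U : Filter (X κ)), #(bel x s) ≤ (2 : Cardinal.{0}) ^ #(bel x t) := by
  rw [← mk_set] at hst
  obtain ⟨e⟩ := hst
  have hd : ∀ z w : S κ, ∃ d : S κ, ∀ (hz : z < s) (hw : w < s), z ≠ w →
      ∃ hd : d < t, ¬ ((⟨d, hd⟩ : Iio t) ∈ e ⟨z, hz⟩ ↔ (⟨d, hd⟩ : Iio t) ∈ e ⟨w, hw⟩) := by
    intro z w
    by_cases hzw : ∃ (hz : z < s) (hw : w < s), z ≠ w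
    · obtain ⟨hz, hw, hne⟩ := hzw
      have h1 : e ⟨z, hz⟩ ≠ e ⟨w, hw⟩ := fun h' =>
        hne (congrArg Subtype.val (e.injective h'))
      have h2 : ∃ y, ¬ (y ∈ e ⟨z, hz⟩ ↔ y ∈ e ⟨w, hw⟩) := by
        by_contra hcon
        push Not at hcon
        exact h1 (Set.ext hcon)
      obtain ⟨⟨y, hy⟩, hy'⟩ := h2
      exact ⟨y, fun _ _ _ => ⟨hy, hy'⟩⟩
    · exact ⟨z, fun hz hw hne => absurd ⟨hz, hw, hne⟩ hzw⟩
  choose d hd using hd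
  filter_upwards [h.closed2 d] with x hx
  rw [← mk_set]
  refine mk_le_of_injective (f := fun z : bel x s =>
    {y : bel x t | (⟨y.1, y.2.2⟩ : Iio t) ∈ e ⟨z.1, z.2.2⟩}) ?_
  intro z w hzw
  by_contra hne
  have hne' : z.1 ≠ w.1 := fun h' => hne (Subtype.ext h')
  obtain ⟨hdt, hnd⟩ := hd z.1 w.1 z.2.2 w.2.2 hne'
  exact hnd (Set.ext_iff.1 hzw ⟨d z.1 w.1, hx z.1 z.2.1 w.1 w.2.1, hdt⟩)

end Hyp

end Pool.UL
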