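import Pool.Agent.Lib.MP_9fc97b_ul.HY2

/-!
# UL, row HY4
-/

set_option autoImplicit false
set_option linter.unusedSectionVars false

open Cardinal Set Order

namespace Pool.UL

namespace Hyp

open H2

variable {κ : Cardinal.{0}} {U : Ultrafilter (X κ)}

/-- Helper of row HY4: `x ∩ κ = κ_x` for almost all `x`. -/
lemma HY4_below (h : NF κ U) :
    ∀ᶠ x in (U : Filter (X κ)), ∀ a : O κ, j κ a ∈ x.1 → a < kx x := by
  classical
  by_contra hcon
  have h1 : ∀ᶠ x in (U : Filter (X κ)), ∃ a : O κ, j κ a ∈ x.1 ∧ kx x ≤ a := by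
    filter_upwards [not_ev hcon] with x hx
    push Not at hx
    exact hx
  obtain ⟨x₀, a₀, -⟩ := h1.exists
  have h2 : ∀ x : X κ, ∃ a : O κ, (∃ a : O κ, j κ a ∈ x.1 ∧ kx x ≤ a) →
      j κ a ∈ x.1 ∧ kx x ≤ a := by
    intro x
    by_cases hx : ∃ a : O κ, j κ a ∈ x.1 ∧ kx x ≤ a
    · obtain ⟨z, hz⟩ := hx
      exact ⟨z, fun _ => hz⟩
    · exact ⟨a₀, fun hx' => absurd hx' hx⟩
  choose a ha using h2
  have h3 : ∀ᶠ x in (U : Filter (X κ)), j κ (a x) ∈ x.1 ∧ kx x ≤ a x := by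
    filter_upwards [h1] with x hx
    exact ha x hx
  obtain ⟨b, hb⟩ := h.normal (fun x => j κ (a x)) (h3.mono fun x hx => hx.1)
  obtain ⟨x₁, hx₁⟩ := hb.exists
  obtain ⟨x, hx, hx', hx''⟩ := (h3.and (hb.and (h.unb (a x₁)))).exists
  have h4 : a x = a x₁ := (j κ).injective (hx'.trans hx₁.symm)
  have h5 := hx.2
  rw [h4] at h5
  exact absurd hx'' (not_lt.2 h5)

private lemma HY4_nonempty (h : NF κ U) : Nonempty (O κ) := by
  rw [← mk_ne_zero_iff, mk_O]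
  exact (aleph0_pos.trans h.unc).ne'

/-- Row HY4: if `#(Iio s) ≤ #(Iio t) ^ κ` then `#(x ∩ s) ≤ #(x ∩ t) ^ κ_x`. -/
lemma NF.bel_fun (h : NF κ U) {s t : S κ} (hst : #(Iio s) ≤ #(Iio t) ^ κ) :
    ∀ᶠ x in (U : Filter (X κ)), #(bel x s) ≤ #(bel x t) ^ crd (kx x) := by
  classical
  have hne : Nonempty (O κ) := HY4_nonempty h
  have hle : #(Iio s) ≤ #(O κ → Iio t) := by
    rw [← power_def, mk_O]
    exact hst
  obtain ⟨F⟩ := hle
  let ji : S κ → O κ := Function.invFun (j κ)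
  have hji : ∀ a, ji (j κ a) = a := Function.leftInverse_invFun (j κ).injective
  let f : S κ → S κ → S κ := fun z w => if hz : z < s then (F ⟨z, hz⟩ (ji w) : S κ) else z
  have hf : ∀ (z : S κ) (hz : z < s) (a : O κ), f z (j κ a) = F ⟨z, hz⟩ a := by
    intro z hz a
    simp only [f, hz, dif_pos, hji]
  have hg0 : ∀ z w : S κ, ∃ b : S κ, ∀ (hz : z < s) (hw : w < s), z ≠ w →
      ∃ a, b = j κ a ∧ F ⟨z, hz⟩ a ≠ F ⟨w, hw⟩ a := by
    intro z w
    by_cases hzw : z < s ∧ w < s ∧ z ≠ w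
    · obtain ⟨hz, hw, hne⟩ := hzw
      have h1 : F ⟨z, hz⟩ ≠ F ⟨w, hw⟩ := fun hc => hne (congrArg Subtype.val (F.injective hc))
      obtain ⟨a, ha⟩ := Function.ne_iff.1 h1
      exact ⟨j κ a, fun _ _ _ => ⟨a, rfl, ha⟩⟩
    · exact ⟨z, fun hz hw hne => absurd ⟨hz, hw, hne⟩ hzw⟩
  choose g hg using hg0
  filter_upwards [h.closed2 f, h.closed2 g, HY4_below h] with x hxf hxg hxb
  have hmem : ∀ (z : bel x s) (a : Iio (kx x)), ((F ⟨z, z.2.2⟩ a : Iio t) : S κ) ∈ bel x t := by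
    intro z a
    refine ⟨?_, (F ⟨z, z.2.2⟩ a).2⟩
    rw [← hf z z.2.2 a]
    exact hxf z z.2.1 _ (mem_of_lt_kx a.2)
  have hpow : #(bel x t) ^ crd (kx x) = #(Iio (kx x) → bel x t) := by
    rw [← power_def]
    rfl
  rw [hpow]
  refine mk_le_of_injective (f := fun (z : bel x s) (a : Iio (kx x)) =>
    (⟨F ⟨z, z.2.2⟩ a, hmem z a⟩ : bel x t)) ?_
  intro z w hzw
  by_contra hne
  have hne' : (z : S κ) ≠ w := fun hc => hne (Subtype.ext hc)
  obtain ⟨a, ha, hFa⟩ := hg z w z.2.2 w.2.2 hne'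
  have h1 : j κ a ∈ x.1 := by
    rw [← ha]
    exact hxg z z.2.1 w w.2.1
  have h2 := congrFun hzw ⟨a, hxb a h1⟩
  have h3 : ((F ⟨z, z.2.2⟩ a : Iio t) : S κ) = (F ⟨w, w.2.2⟩ a : Iio t) :=
    congrArg (fun y : bel x t => (y : S κ)) h2
  exact hFa (Subtype.ext h3)

/-- Row HY4: `#x ^ κ_x ≤ #x` (functions `κ → Θ` are coded by elements of `Θ`, `bb_pow`; every
function `κ_x → x` is the restriction of a function `κ → Θ` whose code is in `x`). -/
lemma NF.mk_pow (h : NF κ U) : ∀ᶠ x in (U : Filter (X κ)), #x.1 ^ crd (kx x) ≤ #x.1 := by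
  classical
  have hne : Nonempty (O κ) := HY4_nonempty h
  have hle : #(O κ → S κ) ≤ #(S κ) := by
    rw [← power_def, mk_O, mk_ord_toType, bb_pow h.unc.le]
  obtain ⟨F⟩ := hle
  have key : ∀ᶠ x in (U : Filter (X κ)), ∀ φ : Iio (kx x) → x.1, ∃ f : O κ → S κ,
      F f ∈ x.1 ∧ ∀ a : Iio (kx x), f a = φ a := by
    by_contra hcon
    have h1 : ∀ᶠ x in (U : Filter (X κ)), ∃ φ : Iio (kx x) → x.1, ∀ f : O κ → S κ,
        F f ∈ x.1 → ∃ a : Iio (kx x), f a ≠ φ a := by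
      filter_upwards [not_ev hcon] with x hx
      push Not at hx
      exact hx
    have h2 : ∀ x : X κ, ∃ ψ : O κ → S κ,
        (∃ φ : Iio (kx x) → x.1, ∀ f : O κ → S κ, F f ∈ x.1 → ∃ a : Iio (kx x), f a ≠ φ a) →
        (∀ a < kx x, ψ a ∈ x.1) ∧
          ∀ f : O κ → S κ, F f ∈ x.1 → ∃ a < kx x, f a ≠ ψ a := by
      intro x
      by_cases hx : ∃ φ : Iio (kx x) → x.1, ∀ f : O κ → S κ, F f ∈ x.1 →
          ∃ a : Iio (kx x), f a ≠ φ a
      · obtain ⟨φ, hφ⟩ := hx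
        refine ⟨fun a => if ha : a < kx x then (φ ⟨a, ha⟩ : S κ) else j κ a, fun _ => ⟨?_, ?_⟩⟩
        · intro a ha
          simp only [ha, dif_pos]
          exact (φ ⟨a, ha⟩).2
        · intro f hf
          obtain ⟨a, ha⟩ := hφ f hf
          refine ⟨a, a.2, ?_⟩
          have ha2 : (a : O κ) < kx x := a.2
          simp only [ha2, dif_pos]
          exact ha
      · exact ⟨fun a => j κ a, fun hx' => absurd hx' hx⟩
    choose ψ hψ using h2
    have h3 : ∀ᶠ x in (U : Filter (X κ)), (∀ a < kx x, ψ x a ∈ x.1) ∧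
          ∀ f : O κ → S κ, F f ∈ x.1 → ∃ a < kx x, f a ≠ ψ x a := by
      filter_upwards [h1] with x hx
      exact hψ x hx
    have h4 : ∀ a : O κ, ∃ b : S κ, ∀ᶠ x in (U : Filter (X κ)), ψ x a = b := by
      intro a
      refine h.normal (fun x => ψ x a) ?_
      filter_upwards [h3, h.unb a] with x hx hx'
      exact hx.1 a hx'
    choose f hf using h4
    have h5 : ∀ᶠ x in (U : Filter (X κ)), ∀ a : O κ, a < kx x → x ∈ {x : X κ | ψ x a = f a} :=
      h.diag (fun a : O κ => a) (fun a => {x : X κ | ψ x a = f a}) (fun a => crd_lt a) hf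
    obtain ⟨x, hx, hx', hx''⟩ := (h3.and (h5.and (h.fine (F f)))).exists
    obtain ⟨a, ha, hne⟩ := hx.2 f hx''
    exact hne (hx' a ha).symm
  filter_upwards [key] with x hx
  choose f hfm hfr using hx
  have hpow : #x.1 ^ crd (kx x) = #(Iio (kx x) → x.1) := by
    rw [← power_def]
    rfl
  rw [hpow]
  refine mk_le_of_injective (f := fun φ : Iio (kx x) → x.1 => (⟨F (f φ), hfm φ⟩ : x.1)) ?_
  intro φ φ' hφ
  have h1 : f φ = f φ' := F.injective (congrArg Subtype.val hφ)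
  funext a
  apply Subtype.ext
  rw [← hfr φ a, ← hfr φ' a, h1]

end Hyp

end Pool.UL
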