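import Pool.Agent.Lib.MP_9fc97b_ul.HY3
import Pool.Agent.Lib.MP_9fc97b_ul.HY4

/-!
# UL, row HY5
-/

set_option autoImplicit false
set_option linter.unusedSectionVars false

open Cardinal Set Order

namespace Pool.UL

namespace Hyp

open H2

variable {κ : Cardinal.{0}} {U : Ultrafilter (X κ)}

lemma HY5_mk_S (κ : Cardinal.{0}) : #(S κ) = bb κ := mk_ord_toType _

lemma HY5_Iio_lt (s : S κ) : #(Iio s) < bb κ := by
  have h := mk_Iio_lt s (by rw [HY5_mk_S, Ordinal.type_toType])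
  rwa [HY5_mk_S] at h

lemma HY5_exists {c : Cardinal.{0}} (h : c < bb κ) : ∃ b : S κ, #(Iio b) = c := by
  have h1 : c.ord < Ordinal.type (α := S κ) (· < ·) := by
    rw [Ordinal.type_toType]
    exact ord_lt_ord.2 h
  refine ⟨Ordinal.enum (α := S κ) (· < ·) ⟨c.ord, h1⟩, ?_⟩
  have h2 : (Ordinal.typein (α := S κ) (· < ·)
      (Ordinal.enum (α := S κ) (· < ·) ⟨c.ord, h1⟩)).card = c := by
    rw [Ordinal.typein_enum, card_ord]
  exact h2

/-- Row HY5: `#x` is a strong limit cardinal (from `bel_pow` for all `s ∈ x`, by `diagS`, and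
`exists_bel`). -/
lemma NF.mk_strong (h : NF κ U) : ∀ᶠ x in (U : Filter (X κ)),
    ∀ c < #x.1, (2 : Cardinal.{0}) ^ c < #x.1 := by
  have h1 : ∀ s : S κ, ∀ᶠ x in (U : Filter (X κ)), (2 : Cardinal.{0}) ^ #(bel x s) < #x.1 := by
    intro s
    have h2 : (2 : Cardinal.{0}) ^ #(Iio s) < bb κ := bb_strong h.unc.le _ (HY5_Iio_lt s)
    obtain ⟨t, ht⟩ := HY5_exists h2
    obtain ⟨t', ht'⟩ := HY5_exists (bb_strong h.unc.le _ h2)
    have h3 : #(Iio t) < #(Iio t') := by
      rw [ht, ht']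
      exact cantor _
    filter_upwards [h.bel_pow ht.ge, h.bel_lt h3] with x hx hx'
    exact (hx.trans_lt hx').trans_le (mk_le_mk_of_subset fun z hz => hz.1)
  filter_upwards [h.diagS (fun s => {x | (2 : Cardinal.{0}) ^ #(bel x s) < #x.1}) h1] with x hx c hc
  obtain ⟨s, hs, hs'⟩ := NF.exists_bel x hc
  have := hx s hs
  rw [← hs']
  exact this

/-- Row HY5: `κ_x < #x`. -/
lemma NF.kx_lt (h : NF κ U) : ∀ᶠ x in (U : Filter (X κ)), crd (kx x) < #x.1 := by
  obtain ⟨s, hs⟩ := HY5_exists (κ := κ) (lt_bb κ)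
  obtain ⟨t, ht⟩ := HY5_exists (κ := κ) (bb_strong h.unc.le _ (lt_bb κ))
  have h3 : #(Iio s) < #(Iio t) := by
    rw [hs, ht]
    exact cantor _
  filter_upwards [h.bel_lt h3] with x hx
  refine lt_of_le_of_lt ?_ (hx.trans_le (mk_le_mk_of_subset fun z hz => hz.1))
  have h4 : ∀ a : O κ, j κ a < s := by
    intro a
    by_contra hcon
    have h5 : #(Iio s) ≤ #(Iio (j κ a)) := mk_le_mk_of_subset (Iio_subset_Iio (not_lt.1 hcon))
    have h6 : #(Iio (j κ a)) ≤ #(Iio a) := by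
      have h7 : Iio (j κ a) ⊆ (j κ) '' (Iio a) := by
        intro z hz
        obtain ⟨b, hb⟩ := (j κ).mem_range_of_rel hz
        refine ⟨b, ?_, hb⟩
        rw [← hb] at hz
        exact (j κ).map_rel_iff.1 hz
      exact (mk_le_mk_of_subset h7).trans mk_image_le
    rw [hs] at h5
    exact absurd (crd_lt a) (not_lt.2 (h5.trans h6))
  exact mk_le_of_injective (f := fun a : Iio (kx x) =>
      (⟨j κ a, mem_of_lt_kx a.2, h4 a⟩ : bel x s))
    (fun a b hab => Subtype.ext ((j κ).injective (congrArg Subtype.val hab)))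

end Hyp

end Pool.UL
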