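import Pool.Agent.Lib.MP_9fc97b_ul.HY5

/-!
# UL, row HY6
-/

set_option autoImplicit false
set_option linter.unusedSectionVars false

open Cardinal Set Order

namespace Pool.UL

namespace Hyp

open H2

variable {κ : Cardinal.{0}} {U : Ultrafilter (X κ)}

private lemma HY6_ex {d : Cardinal.{0}} (hd : d < bb κ) : ∃ t : S κ, #(Iio t) = d := by
  have h2 : d.ord < Ordinal.type (α := S κ) (· < ·) := by
    rw [Ordinal.type_toType]
    exact ord_lt_ord.2 hd
  refine ⟨Ordinal.enum (α := S κ) (· < ·) ⟨d.ord, h2⟩, ?_⟩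
  have h3 : (Ordinal.typein (α := S κ) (· < ·)
      (Ordinal.enum (α := S κ) (· < ·) ⟨d.ord, h2⟩)).card = d := by
    rw [Ordinal.typein_enum, card_ord]
  exact h3

private lemma HY6_lt (s : S κ) : #(Iio s) < bb κ := by
  have h := mk_Iio_lt s (by rw [mk_ord_toType, Ordinal.type_toType])
  rwa [mk_ord_toType] at h

private lemma HY6_inf (h : NF κ U) : ∀ᶠ x in (U : Filter (X κ)), ℵ₀ ≤ crd (kx x) := by
  filter_upwards [h.kx_inacc] with x hx
  exact hx.1.le

private lemma HY6_strong (h : NF κ U) {s : S κ}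
    (hs : ∀ᶠ x in (U : Filter (X κ)), #(bel x s) = bb (crd (kx x))) :
    ∀ d < #(Iio s), (2 : Cardinal.{0}) ^ d < #(Iio s) := by
  intro d hd
  by_contra hcon
  rw [not_lt] at hcon
  obtain ⟨t, ht⟩ := HY6_ex (hd.trans (HY6_lt s))
  rw [← ht] at hd hcon
  obtain ⟨x, h1, h2, h3, h4⟩ :=
    (hs.and ((h.bel_lt hd).and ((h.bel_pow' hcon).and (HY6_inf h)))).exists
  rw [h1] at h2 h3
  exact absurd (bb_strong h4 _ h2) (not_lt.2 h3)

private lemma HY6_pow (h : NF κ U) {s : S κ}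
    (hs : ∀ᶠ x in (U : Filter (X κ)), #(bel x s) = bb (crd (kx x))) :
    #(Iio s) ^ κ ≤ #(Iio s) := by
  by_contra hcon
  rw [not_le] at hcon
  have h0 : succ #(Iio s) < bb κ := by
    refine lt_of_le_of_lt ?_ (bb_strong h.unc.le _ (HY6_lt s))
    exact succ_le_of_lt (cantor _)
  obtain ⟨t, ht⟩ := HY6_ex h0
  have h1 : #(Iio s) < #(Iio t) := by
    rw [ht]
    exact lt_succ _
  have h2 : #(Iio t) ≤ #(Iio s) ^ κ := by
    rw [ht]
    exact succ_le_of_lt hcon
  obtain ⟨x, h3, h4, h5, h6⟩ :=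
    (hs.and ((h.bel_lt h1).and ((h.bel_fun h2).and (HY6_inf h)))).exists
  rw [h3] at h4 h5
  rw [bb_pow h6] at h5
  exact absurd h4 (not_lt.2 h5)

/-- The element `κ` of `S κ`. -/
private lemma HY6_kappa : ∃ t : S κ, (∀ z < t, ∃ a : O κ, j κ a = z) ∧
    ∀ a : O κ, j κ a < t := by
  have h1 : ∃ t : S κ, t ∉ range (j κ) := by
    by_contra hcon
    push Not at hcon
    have h2 : Function.Surjective (j κ) := hcon
    have h3 := mk_le_of_surjective h2
    rw [mk_O, mk_ord_toType] at h3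
    exact absurd (lt_bb κ) (not_lt.2 h3)
  obtain ⟨t, ht⟩ : ∃ t : S κ, t ∉ range (j κ) ∧ ∀ z < t, z ∈ range (j κ) := by
    refine ⟨wellFounded_lt.min {t : S κ | t ∉ range (j κ)} h1,
      wellFounded_lt.min_mem {t : S κ | t ∉ range (j κ)} h1, fun z hz => ?_⟩
    by_contra hcon
    exact wellFounded_lt.not_lt_min (s := {t : S κ | t ∉ range (j κ)}) hcon hz
  refine ⟨t, fun z hz => ht.2 z hz, fun a => ?_⟩
  by_contra hcon
  rw [not_lt] at hcon
  exact ht.1 ((j κ).mem_range_of_le hcon)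

private lemma HY6_kappa_mk {t : S κ} (h1 : ∀ z < t, ∃ a : O κ, j κ a = z)
    (h2 : ∀ a : O κ, j κ a < t) : #(Iio t) = κ := by
  have h3 : (Iio t : Set (S κ)) = range (j κ) := by
    ext z
    constructor
    · intro hz
      exact h1 z hz
    · rintro ⟨a, rfl⟩
      exact h2 a
  have h4 : #(range (j κ)) = #(O κ) := mk_range_eq (j κ) (j κ).injective
  rw [h3]
  exact h4.trans (mk_O κ)

private lemma HY6_kappa_bel (h : NF κ U) {t : S κ} (h1 : ∀ z < t, ∃ a : O κ, j κ a = z) :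
    ∀ᶠ x in (U : Filter (X κ)), #(bel x t) ≤ crd (kx x) := by
  filter_upwards [HY4_below h] with x hx
  have h2 : ∀ z : bel x t, ∃ a : Iio (kx x), j κ a = z := by
    intro z
    obtain ⟨a, ha⟩ := h1 z z.2.2
    refine ⟨⟨a, hx a ?_⟩, ha⟩
    rw [ha]
    exact z.2.1
  choose f hf using h2
  refine mk_le_of_injective (f := f) ?_
  intro z w hzw
  apply Subtype.ext
  rw [← hf z, ← hf w, hzw]

/-- Row HY6: THE SIZE OF `x`.  `≥` from `bb_least`.  `≤`: otherwise there is `s` with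
`#(x ∩ s) = ℶ_{κ_x⁺}` for almost all `x`; let `μ = #(Iio s) < bb κ`; then `κ < μ`, `μ` is a strong
limit (`bel_lt`, `bel_pow'`, `bb_strong`) and `μ ^ κ ≤ μ` (`bel_fun`, `bel_lt`, `bb_pow`), a
contradiction to `bb_least`. -/
theorem NF.mk_eq (h : NF κ U) : ∀ᶠ x in (U : Filter (X κ)), #x.1 = bb (crd (kx x)) := by
  classical
  have hge : ∀ᶠ x in (U : Filter (X κ)), bb (crd (kx x)) ≤ #x.1 := by
    filter_upwards [HY6_inf h, h.kx_lt, h.mk_strong, h.mk_pow] with x h1 h2 h3 h4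
    exact bb_least h1 h2 h3 h4
  by_contra hcon
  have h1 : ∀ᶠ x in (U : Filter (X κ)), ∃ s ∈ x.1, #(bel x s) = bb (crd (kx x)) := by
    filter_upwards [hge, not_ev hcon] with x hx hx'
    exact NF.exists_bel x (lt_of_le_of_ne hx (Ne.symm hx'))
  obtain ⟨x₀, s₀, -⟩ := h1.exists
  have h2 : ∀ x : X κ, ∃ s : S κ, (∃ s ∈ x.1, #(bel x s) = bb (crd (kx x))) →
      s ∈ x.1 ∧ #(bel x s) = bb (crd (kx x)) := by
    intro x
    by_cases hx : ∃ s ∈ x.1, #(bel x s) = bb (crd (kx x))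
    · obtain ⟨z, hz⟩ := hx
      exact ⟨z, fun _ => hz⟩
    · exact ⟨s₀, fun hx' => absurd hx' hx⟩
  choose sx hsx using h2
  have h3 : ∀ᶠ x in (U : Filter (X κ)), sx x ∈ x.1 ∧ #(bel x (sx x)) = bb (crd (kx x)) := by
    filter_upwards [h1] with x hx
    exact hsx x hx
  obtain ⟨s, hs⟩ := h.normal sx (h3.mono fun x hx => hx.1)
  have h4 : ∀ᶠ x in (U : Filter (X κ)), #(bel x s) = bb (crd (kx x)) := by
    filter_upwards [h3, hs] with x hx hx'
    rw [← hx']
    exact hx.2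
  obtain ⟨t, ht1, ht2⟩ := HY6_kappa (κ := κ)
  have h5 : κ < #(Iio s) := by
    by_contra hlt
    rw [not_lt] at hlt
    have hlt' := hlt.trans (HY6_kappa_mk ht1 ht2).ge
    obtain ⟨x, h6, h7, h8⟩ := (h4.and ((h.bel_le hlt').and (HY6_kappa_bel h ht1))).exists
    rw [h6] at h7
    exact absurd (lt_bb (crd (kx x))) (not_lt.2 (h7.trans h8))
  have h6 := bb_least h.unc.le h5 (HY6_strong h h4) (HY6_pow h h4)
  exact absurd (HY6_lt s) (not_lt.2 h6)

end Hyp

end Pool.UL
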