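import Pool.Agent.Lib.MP_9fc97b_ul.HY6

/-!
# UL, row HY7
-/

set_option autoImplicit false
set_option linter.unusedSectionVars false

open Cardinal Set Order

namespace Pool.UL

namespace Hyp

open H2

variable {κ : Cardinal.{0}} {U : Ultrafilter (X κ)}

lemma HY7_T (hκ : κ.IsInaccessible) : ∃ T : O κ → O κ, ∀ m, crd (T m) = bb (crd m) := by
  choose T hT using fun m : O κ => exists_crd (κ := κ) (bb_lt_inacc hκ (crd_lt m))
  exact ⟨T, hT⟩

/-- Row HY7: the data. -/
theorem exists_PE {κ : Cardinal.{0}} (h : Pool.P2.IsSupercompact κ (bb κ)) :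
    ∃ D : PE (O κ) (X κ) (S κ), D.κ = κ := by
  classical
  obtain ⟨U, hU⟩ := exists_NF h
  have hκ : κ.IsInaccessible := hU.inacc
  have hS : #(S κ) = bb κ := mk_ord_toType _
  obtain ⟨T, hT⟩ := HY7_T hκ
  have hTlt : ∀ m, #(Iio (T m)) < #(S κ) := by
    intro m
    rw [hS]
    exact (crd_lt (T m)).trans (lt_bb κ)
  have hne : Nonempty (S κ) := by
    rw [← mk_ne_zero_iff, hS]
    exact (aleph0_pos.trans (hU.unc.trans (lt_bb κ))).ne'
  obtain ⟨s₀⟩ := hne
  have he : ∀ x : X κ, ∃ e : Iio (T (kx x)) ↪ S κ,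
      #x.1 = #(Iio (T (kx x))) → ∀ s, s ∈ x.1 ↔ ∃ a, e a = s := by
    intro x
    by_cases hx : #x.1 = #(Iio (T (kx x)))
    · obtain ⟨e⟩ := Cardinal.eq.1 hx
      refine ⟨e.symm.toEmbedding.trans (Function.Embedding.subtype _), fun _ s => ?_⟩
      constructor
      · intro hs
        exact ⟨e ⟨s, hs⟩, congrArg Subtype.val (e.symm_apply_apply ⟨s, hs⟩)⟩
      · rintro ⟨a, ha⟩
        rw [← ha]
        exact (e.symm a).2
    · obtain ⟨e⟩ := (hTlt (kx x)).le
      exact ⟨e, fun hx' => absurd hx' hx⟩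
  choose e he using he
  let W : Set (O κ) := {m | (∀ a < m, crd a < crd m) ∧ (crd m).IsInaccessible}
  have hTpos : ∀ m, (Iio (T m)).Nonempty := by
    intro m
    have h1 : #(Iio (T m)) = bb (crd m) := hT m
    rw [← nonempty_coe_sort, ← mk_ne_zero_iff, h1]
    exact (lt_of_le_of_lt zero_le (lt_bb (crd m))).ne'
  let g : X κ → O κ → S κ := fun x a => if ha : a ∈ Iio (T (kx x)) then e x ⟨a, ha⟩ else s₀
  let hh : S κ → X κ → O κ := fun s x =>
    if hs : ∃ a, e x a = s then (hs.choose : O κ) else (hTpos (kx x)).some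
  have hg : ∀ x (a : Iio (T (kx x))), g x a = e x a := fun x a => dif_pos a.2
  have hhlt : ∀ s x, hh s x < T (kx x) := by
    intro s x
    by_cases hs : ∃ a, e x a = s
    · have h1 : hh s x = hs.choose := dif_pos hs
      rw [h1]
      exact hs.choose.2
    · have h1 : hh s x = (hTpos (kx x)).some := dif_neg hs
      rw [h1]
      exact (hTpos (kx x)).some_mem
  have hhg : ∀ x (a : Iio (T (kx x))), hh (e x a) x = a := by
    intro x a
    have hs : ∃ b, e x b = e x a := ⟨a, rfl⟩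
    have h1 : hh (e x a) x = hs.choose := dif_pos hs
    rw [h1]
    exact congrArg Subtype.val ((e x).injective hs.choose_spec)
  have hW : ∀ᶠ x in (U : Filter (X κ)), kx x ∈ W := by
    filter_upwards [hU.kx_init, hU.kx_inacc] with x h1 h2
    exact ⟨h1, h2⟩
  have hsz : ∀ᶠ x in (U : Filter (X κ)), #x.1 = #(Iio (T (kx x))) := by
    filter_upwards [hU.mk_eq] with x hx
    rw [hx]
    exact (hT (kx x)).symm
  refine ⟨{ κ := κ, U := U, kx := kx, W := W, T := T, g := g, h := hh, κ_inacc := hκ, mk_Ω := mk_O κ,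
            crd_lt := crd_lt, mk_S_pow := ?_, S_lim := ?_, κ_lt := ?_, W_init := fun m hm => hm.1,
            W_inacc := fun m hm => hm.2, W_T := ?_, T_ge := ?_, T_pow := ?_, kx_W := hW,
            unb := hU.unb, diag := fun rk B => hU.diag rk B, diagS := ?_, fine := ?_, hg := ?_,
            h_lt := fun x _ s => hhlt s x }, rfl⟩
  · rw [hS]
    exact bb_pow hU.unc.le
  · rw [hS]
    exact bb_strong hU.unc.le
  · rw [hS]
    exact lt_bb κ
  · intro m hm a ha
    refine lt_of_crd ?_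
    rw [hT]
    exact bb_lt_inacc hm.2 (hm.1 a ha)
  · intro m _
    refine (lt_of_crd ?_).le
    rw [hT]
    exact lt_bb _
  · intro m hm
    rw [hT]
    exact bb_pow hm.2.aleph0_lt.le
  · intro B hB
    filter_upwards [hU.diagS B hB, hsz] with x hx hx' a ha
    have h1 := hg x ⟨a, ha⟩
    change g x a = _ at h1
    rw [h1]
    exact hx _ ((he x hx' _).2 ⟨_, rfl⟩)
  · intro s
    filter_upwards [hU.fine s, hsz] with x hx hx'
    refine ⟨hhlt s x, ?_⟩
    obtain ⟨a, ha⟩ := (he x hx' s).1 hx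
    rw [← ha, hhg, hg]
  · intro x _ a ha
    have h1 := hg x ⟨a, ha⟩
    change g x a = _ at h1
    rw [h1]
    exact hhg x ⟨a, ha⟩

end Hyp

end Pool.UL
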