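import Pool.Agent.Lib.MP_9fc97b_ul.Hyp

/-!
# UL, rows HY: the size of `x`
-/

set_option autoImplicit false
set_option linter.unusedSectionVars false

open Cardinal Set Order

namespace Pool.UL

namespace Hyp

open H2

variable {κ : Cardinal.{0}} {U : Ultrafilter (X κ)}

/-- The elements of `x` below `s`. -/
def bel (x : X κ) (s : S κ) : Set (S κ) := {z | z ∈ x.1 ∧ z < s}

end Hyp

end Pool.UL
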