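import Pool.Agent.Lib.MP_9fc97b_ul.CardAux
import Pool.Agent.Lib.MP_9fc97b_ul.Bb
import Pool.Agent.Lib.MP_ad72f3_p2.Sc

/-!
# UL: the large cardinal hypothesis (port of helper75's file)
-/

set_option autoImplicit false
set_option linter.unusedSectionVars false

open Cardinal Set Order

namespace Pool.UL

namespace Hyp

/-- The ordinals below `Θ = ℶ_{κ⁺}`. -/
abbrev S (κ : Cardinal.{0}) : Type := (bb κ).ord.ToType

/-- The ordinals below `κ`. -/
abbrev O (κ : Cardinal.{0}) : Type := κ.ord.ToType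

/-- `P_κ(δ)`. -/
abbrev X (κ : Cardinal.{0}) : Type := {x : Set (S κ) // #x < κ}

/-- The inclusion of `κ` in `δ`. -/
noncomputable def j (κ : Cardinal.{0}) : O κ ≤i S κ :=
  (Ordinal.type_le_iff.1 (by
    rw [Ordinal.type_toType, Ordinal.type_toType]
    exact ord_le_ord.2 (lt_bb κ).le)).some

lemma mk_O (κ : Cardinal.{0}) : #(O κ) = κ := mk_ord_toType κ

lemma exists_notMem {κ : Cardinal.{0}} (x : X κ) : ∃ a : O κ, j κ a ∉ x.1 := by
  by_contra hcon
  push Not at hcon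
  have h1 : #(O κ) ≤ #x.1 := mk_le_of_injective (f := fun a : O κ => (⟨j κ a, hcon a⟩ : x.1))
    (fun a b hab => (j κ).injective (congrArg Subtype.val hab))
  rw [mk_O] at h1
  exact absurd x.2 (not_lt.2 h1)

/-- A normal fine ultrafilter on the subtype. -/
structure NF (κ : Cardinal.{0}) (U : Ultrafilter (X κ)) : Prop where
  unc : ℵ₀ < κ
  fine : ∀ a : S κ, ∀ᶠ x in (U : Filter (X κ)), a ∈ x.1
  complete : ∀ {Z : Type} (B : Z → Set (X κ)), #Z < κ → (∀ z, B z ∈ U) →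
    ∀ᶠ x in (U : Filter (X κ)), ∀ z, x ∈ B z
  normal : ∀ f : X κ → S κ, (∀ᶠ x in (U : Filter (X κ)), f x ∈ x.1) →
    ∃ a, ∀ᶠ x in (U : Filter (X κ)), f x = a
/-- Task H1. -/
theorem exists_NF {κ : Cardinal.{0}} (h : Pool.P2.IsSupercompact κ (bb κ)) :
    ∃ U : Ultrafilter (X κ), NF κ U := by
  classical
  obtain ⟨hκ, S', U, hS', hU⟩ := h
  have hcard : #S' = #(S κ) := by
    rw [hS']
    exact (mk_ord_toType _).symm
  obtain ⟨e⟩ := Cardinal.eq.1 hcard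
  obtain ⟨ret, hret⟩ : ∃ ret : Set S' → X κ, ∀ y : Set S', #y < κ → (ret y).1 = e '' y := by
    refine ⟨fun y => if h : #y < κ then ⟨e '' y, mk_image_le.trans_lt h⟩ else ⟨∅, ?_⟩, ?_⟩
    · rw [mk_eq_zero]
      exact aleph0_pos.trans hκ
    · intro y hy
      simp only [hy, dif_pos]
  refine ⟨U.map ret, hκ, ?_, ?_, ?_⟩
  · intro a
    rw [Ultrafilter.coe_map, Filter.eventually_map]
    filter_upwards [hU.small, hU.fine (e.symm a)] with y h1 h2
    rw [hret y h1]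
    exact ⟨e.symm a, h2, e.apply_symm_apply a⟩
  · intro Z B hZ hB
    rw [Ultrafilter.coe_map, Filter.eventually_map]
    have h1 : ⋂₀ (range fun z => ret ⁻¹' (B z)) ∈ U := by
      refine hU.complete _ (mk_range_le.trans_lt hZ) ?_
      rintro _ ⟨z, rfl⟩
      exact Ultrafilter.mem_map.1 (hB z)
    have h2 : ∀ᶠ y in (U : Filter (Set S')), y ∈ ⋂₀ (range fun z => ret ⁻¹' (B z)) := h1
    filter_upwards [h2] with y hy z
    exact hy _ ⟨z, rfl⟩
  · intro f hf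
    rw [Ultrafilter.coe_map, Filter.eventually_map] at hf
    obtain ⟨a, ha⟩ := hU.normal (fun y => e.symm (f (ret y))) (by
      filter_upwards [hU.small, hf] with y h1 h2
      rw [hret y h1] at h2
      obtain ⟨b, hb, hb'⟩ := h2
      rw [← hb', e.symm_apply_apply]
      exact hb)
    refine ⟨e a, ?_⟩
    rw [Ultrafilter.coe_map, Filter.eventually_map]
    filter_upwards [ha] with y hy
    rw [← hy, e.apply_symm_apply]


/-- The least ordinal not in `x`. -/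
noncomputable def kx {κ : Cardinal.{0}} (x : X κ) : O κ :=
  wellFounded_lt.min {a : O κ | j κ a ∉ x.1} (exists_notMem x)

variable {κ : Cardinal.{0}}


/-- Task H1. -/
lemma mem_of_lt_kx {x : X κ} {a : O κ} (h : a < kx x) : j κ a ∈ x.1 := by
  by_contra hcon
  exact WellFounded.not_lt_min wellFounded_lt (s := {a : O κ | j κ a ∉ x.1}) hcon h

/-- Task H1. -/
lemma kx_notMem (x : X κ) : j κ (kx x) ∉ x.1 :=
  WellFounded.min_mem wellFounded_lt {a : O κ | j κ a ∉ x.1} (exists_notMem x)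


variable {U : Ultrafilter (X κ)}

--BEGIN
namespace H2

lemma crd_mono {a b : O κ} (h : a ≤ b) : crd a ≤ crd b :=
  mk_le_mk_of_subset (Iio_subset_Iio h)

lemma lt_of_crd {a b : O κ} (h : crd a < crd b) : a < b := by
  by_contra hcon
  exact absurd (crd_mono (not_lt.1 hcon)) (not_le.2 h)

lemma crd_lt (a : O κ) : crd a < κ := by
  have h := mk_Iio_lt a (by rw [mk_O, Ordinal.type_toType])
  rwa [mk_O] at h

lemma exists_crd {c : Cardinal.{0}} (h : c < κ) : ∃ b : O κ, crd b = c := by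
  have h1 : c.ord < Ordinal.type (α := O κ) (· < ·) := by
    rw [Ordinal.type_toType]
    exact ord_lt_ord.2 h
  refine ⟨Ordinal.enum (α := O κ) (· < ·) ⟨c.ord, h1⟩, ?_⟩
  have h2 : (Ordinal.typein (α := O κ) (· < ·)
      (Ordinal.enum (α := O κ) (· < ·) ⟨c.ord, h1⟩)).card = c := by
    rw [Ordinal.typein_enum, card_ord]
  exact h2

lemma mk_Iic_lt (h : ℵ₀ < κ) (a : O κ) : #(Iic a) < κ := by
  have h1 : (Iic a : Set (O κ)) = insert a (Iio a) := by
    ext b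
    simp only [mem_Iic, mem_insert_iff, mem_Iio]
    exact le_iff_eq_or_lt
  rw [h1]
  exact lt_of_le_of_lt (mk_insert_le) (add_lt_of_lt h.le (crd_lt a) (lt_of_lt_of_le one_lt_aleph0 h.le))

lemma mk_option_lt (h : ℵ₀ < κ) {Z : Type} (hZ : #Z < κ) : #(Option Z) < κ := by
  rw [mk_option]
  exact add_lt_of_lt h.le hZ (lt_of_lt_of_le one_lt_aleph0 h.le)

lemma exists_of_ev {P : X κ → Prop} (h : ∀ᶠ x in (U : Filter (X κ)), P x) : ∃ x, P x := h.exists

lemma not_ev {P : X κ → Prop} (h : ¬ ∀ᶠ x in (U : Filter (X κ)), P x) :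
    ∀ᶠ x in (U : Filter (X κ)), ¬ P x := Ultrafilter.eventually_not.2 h

end H2

open H2

/-- Task H2. -/
lemma NF.unb (h : NF κ U) (a : O κ) : ∀ᶠ x in (U : Filter (X κ)), a < kx x := by
  have h1 : ∀ᶠ x in (U : Filter (X κ)), ∀ b : Iic a, x ∈ {x : X κ | j κ b ∈ x.1} :=
    h.complete (fun b : Iic a => {x : X κ | j κ b ∈ x.1}) (mk_Iic_lt h.unc a) (fun b => h.fine _)
  filter_upwards [h1] with x hx
  by_contra hcon
  exact kx_notMem x (hx ⟨kx x, not_lt.1 hcon⟩)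

/-- Task H2: regressive functions with values in `κ`. -/
lemma NF.regr (h : NF κ U) (φ : X κ → O κ) (hφ : ∀ᶠ x in (U : Filter (X κ)), φ x < kx x) :
    ∃ a, ∀ᶠ x in (U : Filter (X κ)), φ x = a := by
  have h1 : ∀ᶠ x in (U : Filter (X κ)), j κ (φ x) ∈ x.1 := by
    filter_upwards [hφ] with x hx
    exact mem_of_lt_kx hx
  obtain ⟨b, hb⟩ := h.normal (fun x => j κ (φ x)) h1
  obtain ⟨x₀, hx₀⟩ := hb.exists
  refine ⟨φ x₀, ?_⟩
  filter_upwards [hb] with x hx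
  exact (j κ).injective (hx.trans hx₀.symm)

/-- Task H2: a function with fewer than `κ` values is constant on a large set. -/
lemma NF.const (h : NF κ U) {Z : Type} (hZ : #Z < κ) (φ : X κ → Z) :
    ∃ z, ∀ᶠ x in (U : Filter (X κ)), φ x = z := by
  by_contra hcon
  push Not at hcon
  have h1 : ∀ᶠ x in (U : Filter (X κ)), ∀ z, x ∈ {x : X κ | φ x ≠ z} :=
    h.complete (fun z => {x : X κ | φ x ≠ z}) hZ fun z => hcon z
  obtain ⟨x, hx⟩ := h1.exists
  exact hx (φ x) rfl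

/-- Task H2. -/
lemma NF.regular (h : NF κ U) : κ.IsRegular := by
  refine ⟨h.unc.le, ?_⟩
  by_contra hcon
  rw [not_le, ← Ordinal.cof_toType] at hcon
  obtain ⟨s, hs, hcard⟩ := Order.exists_cof_eq (α := O κ)
  rw [← hcard] at hcon
  choose f hf1 hf2 using fun x : X κ => hs (kx x)
  obtain ⟨z, hz⟩ := h.const hcon (fun x => (⟨f x, hf1 x⟩ : s))
  have h1 := h.unb (z : O κ)
  obtain ⟨x, hx, hx'⟩ := (hz.and h1).exists
  have h2 : f x = z := congrArg Subtype.val hx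
  have h3 := hf2 x
  rw [h2] at h3
  exact absurd hx' (not_lt.2 h3)

/-- Task H2. -/
lemma NF.inacc (h : NF κ U) : κ.IsInaccessible := by
  refine ⟨h.unc, (h.regular).2, ?_⟩
  intro c hc
  by_contra hcon
  rw [not_lt] at hcon
  have hL : #(O κ) ≤ #(Set c.ord.ToType) := by
    rw [mk_set, mk_ord_toType, mk_O]
    exact hcon
  obtain ⟨g⟩ := hL
  have h2 : #Prop < κ := lt_trans (by simp) h.unc
  have h1 : ∀ l : c.ord.ToType, ∃ e : Prop,
      ∀ᶠ x in (U : Filter (X κ)), (l ∈ g (kx x)) = e := fun l => h.const h2 _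
  choose e he using h1
  have h3 : ∀ᶠ x in (U : Filter (X κ)), ∀ l, x ∈ {x : X κ | (l ∈ g (kx x)) = e l} :=
    h.complete _ (by rw [mk_ord_toType]; exact hc) he
  obtain ⟨x₁, hx₁⟩ := h3.exists
  obtain ⟨x, hx, hx'⟩ := (h3.and (h.unb (kx x₁))).exists
  have h4 : g (kx x) = g (kx x₁) := by
    ext l
    have e1 : (l ∈ g (kx x)) = e l := hx l
    have e2 : (l ∈ g (kx x₁)) = e l := hx₁ l
    rw [e1, e2]
  exact absurd hx' (by rw [g.injective h4]; exact lt_irrefl _)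

/-- Task H3: diagonal intersections. -/
lemma NF.diag (h : NF κ U) {Z : Type} (rk : Z → O κ) (B : Z → Set (X κ))
    (hrk : ∀ a : O κ, #{z | rk z < a} < κ) (hB : ∀ z, B z ∈ U) :
    ∀ᶠ x in (U : Filter (X κ)), ∀ z, rk z < kx x → x ∈ B z := by
  classical
  by_contra hcon
  have h1 : ∀ᶠ x in (U : Filter (X κ)), ∃ z, rk z < kx x ∧ x ∉ B z := by
    filter_upwards [not_ev hcon] with x hx
    push Not at hx
    exact hx
  obtain ⟨x₀, z₀, -⟩ := h1.exists
  have h2 : ∀ x : X κ, ∃ z, (∃ z, rk z < kx x ∧ x ∉ B z) → rk z < kx x ∧ x ∉ B z := by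
    intro x
    by_cases hx : ∃ z, rk z < kx x ∧ x ∉ B z
    · obtain ⟨z, hz⟩ := hx
      exact ⟨z, fun _ => hz⟩
    · exact ⟨z₀, fun hx' => absurd hx' hx⟩
  choose z hz using h2
  have h3 : ∀ᶠ x in (U : Filter (X κ)), rk (z x) < kx x ∧ x ∉ B (z x) := by
    filter_upwards [h1] with x hx
    exact hz x hx
  obtain ⟨a, ha⟩ := h.regr (fun x => rk (z x)) (h3.mono fun x hx => hx.1)
  obtain ⟨x₁, hx₁⟩ := (h.unb a).exists
  set b := kx x₁ with hb
  obtain ⟨w, hw⟩ := h.const (mk_option_lt h.unc (hrk b))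
    (fun x => if hx : rk (z x) < b then some (⟨z x, hx⟩ : {z | rk z < b}) else none)
  obtain ⟨x₂, hx₂, hx₂'⟩ := (hw.and ha).exists
  have hlt : rk (z x₂) < b := by
    rw [hx₂']
    exact hx₁
  rw [dif_pos hlt] at hx₂
  have h4 : ∀ᶠ x in (U : Filter (X κ)), z x = z x₂ := by
    filter_upwards [hw, ha] with x hx hx'
    have hlt' : rk (z x) < b := by
      rw [hx']
      exact hx₁
    rw [dif_pos hlt', ← hx₂] at hx
    exact congrArg Subtype.val (Option.some.inj hx)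
  have h5 : ∀ᶠ x in (U : Filter (X κ)), x ∈ B (z x₂) := hB _
  obtain ⟨x, hx, hx', hx''⟩ := (h3.and (h4.and h5)).exists
  apply hx.2
  rw [hx']
  exact hx''

/-- Task H3: diagonal intersections along `δ`. -/
lemma NF.diagS (h : NF κ U) (B : S κ → Set (X κ)) (hB : ∀ z, B z ∈ U) :
    ∀ᶠ x in (U : Filter (X κ)), ∀ z ∈ x.1, x ∈ B z := by
  classical
  by_contra hcon
  have h1 : ∀ᶠ x in (U : Filter (X κ)), ∃ z, z ∈ x.1 ∧ x ∉ B z := by
    filter_upwards [not_ev hcon] with x hx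
    push Not at hx
    exact hx
  obtain ⟨x₀, z₀, -⟩ := h1.exists
  have h2 : ∀ x : X κ, ∃ z, (∃ z, z ∈ x.1 ∧ x ∉ B z) → z ∈ x.1 ∧ x ∉ B z := by
    intro x
    by_cases hx : ∃ z, z ∈ x.1 ∧ x ∉ B z
    · obtain ⟨z, hz⟩ := hx
      exact ⟨z, fun _ => hz⟩
    · exact ⟨z₀, fun hx' => absurd hx' hx⟩
  choose z hz using h2
  have h3 : ∀ᶠ x in (U : Filter (X κ)), z x ∈ x.1 ∧ x ∉ B (z x) := by
    filter_upwards [h1] with x hx
    exact hz x hx
  obtain ⟨a, ha⟩ := h.normal z (h3.mono fun x hx => hx.1)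
  have h5 : ∀ᶠ x in (U : Filter (X κ)), x ∈ B a := hB _
  obtain ⟨x, hx, hx', hx''⟩ := (h3.and (ha.and h5)).exists
  apply hx.2
  rw [hx']
  exact hx''

/-- Task H4: `κ_x` is an inaccessible cardinal. -/
lemma NF.kx_init (h : NF κ U) : ∀ᶠ x in (U : Filter (X κ)), ∀ a < kx x, crd a < crd (kx x) := by
  by_contra hcon
  have h1 : ∀ᶠ x in (U : Filter (X κ)), ∃ a, a < kx x ∧ crd (kx x) ≤ crd a := by
    filter_upwards [not_ev hcon] with x hx
    push Not at hx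
    exact hx
  obtain ⟨x₀, a₀, -⟩ := h1.exists
  have h2 : ∀ x : X κ, ∃ a, (∃ a, a < kx x ∧ crd (kx x) ≤ crd a) →
      a < kx x ∧ crd (kx x) ≤ crd a := by
    intro x
    by_cases hx : ∃ a, a < kx x ∧ crd (kx x) ≤ crd a
    · obtain ⟨z, hz⟩ := hx
      exact ⟨z, fun _ => hz⟩
    · exact ⟨a₀, fun hx' => absurd hx' hx⟩
  choose a ha using h2
  have h3 : ∀ᶠ x in (U : Filter (X κ)), a x < kx x ∧ crd (kx x) ≤ crd (a x) := by
    filter_upwards [h1] with x hx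
    exact ha x hx
  obtain ⟨b, hb⟩ := h.regr a (h3.mono fun x hx => hx.1)
  obtain ⟨c, hc⟩ := exists_crd (κ := κ) (c := succ (crd b))
    ((h.inacc).isSuccLimit.succ_lt (crd_lt b))
  obtain ⟨x, hx, hx', hx''⟩ := (h3.and (hb.and (h.unb c))).exists
  have h4 := hx.2
  rw [hx'] at h4
  have h5 : crd c ≤ crd b := (crd_mono hx''.le).trans h4
  rw [hc] at h5
  exact absurd (lt_succ (crd b)) (not_lt.2 h5)

/-- Task H4. -/
lemma NF.kx_strong (h : NF κ U) : ∀ᶠ x in (U : Filter (X κ)),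
    ∀ a < kx x, (2 : Cardinal.{0}) ^ crd a < crd (kx x) := by
  by_contra hcon
  have h1 : ∀ᶠ x in (U : Filter (X κ)), ∃ a, a < kx x ∧ crd (kx x) ≤ (2 : Cardinal.{0}) ^ crd a := by
    filter_upwards [not_ev hcon] with x hx
    push Not at hx
    exact hx
  obtain ⟨x₀, a₀, -⟩ := h1.exists
  have h2 : ∀ x : X κ, ∃ a, (∃ a, a < kx x ∧ crd (kx x) ≤ (2 : Cardinal.{0}) ^ crd a) →
      a < kx x ∧ crd (kx x) ≤ (2 : Cardinal.{0}) ^ crd a := by
    intro x
    by_cases hx : ∃ a, a < kx x ∧ crd (kx x) ≤ (2 : Cardinal.{0}) ^ crd a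
    · obtain ⟨z, hz⟩ := hx
      exact ⟨z, fun _ => hz⟩
    · exact ⟨a₀, fun hx' => absurd hx' hx⟩
  choose a ha using h2
  have h3 : ∀ᶠ x in (U : Filter (X κ)), a x < kx x ∧ crd (kx x) ≤ (2 : Cardinal.{0}) ^ crd (a x) := by
    filter_upwards [h1] with x hx
    exact ha x hx
  obtain ⟨b, hb⟩ := h.regr a (h3.mono fun x hx => hx.1)
  obtain ⟨c, hc⟩ := exists_crd (κ := κ) (c := succ ((2 : Cardinal.{0}) ^ crd b))
    ((h.inacc).isSuccLimit.succ_lt ((h.inacc).isStrongPrelimit (crd_lt b)))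
  obtain ⟨x, hx, hx', hx''⟩ := (h3.and (hb.and (h.unb c))).exists
  have h4 := hx.2
  rw [hx'] at h4
  have h5 : crd c ≤ (2 : Cardinal.{0}) ^ crd b := (crd_mono hx''.le).trans h4
  rw [hc] at h5
  exact absurd (lt_succ _) (not_lt.2 h5)

namespace H4

lemma type_Iio_eq {m : O κ} (hm : ∀ a < m, crd a < crd m) :
    Ordinal.type (α := Iio m) (· < ·) = (crd m).ord := by
  refine le_antisymm ?_ (ord_le_type _)
  by_contra hcon
  rw [not_le] at hcon
  set a := Ordinal.enum (α := Iio m) (· < ·) ⟨(crd m).ord, hcon⟩ with ha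
  have h1 : (Ordinal.typein (α := Iio m) (· < ·) a).card = crd m := by
    rw [ha, Ordinal.typein_enum, card_ord]
  rw [Ordinal.card_typein] at h1
  have h2 : #{y : Iio m // y < a} ≤ crd (a : O κ) :=
    mk_le_of_injective (f := fun y : {y : Iio m // y < a} => (⟨(y.1 : O κ), y.2⟩ : Iio (a : O κ)))
      (fun y z hyz => by
        have h3 : ((y.1 : Iio m) : O κ) = z.1 := congrArg (fun w : Iio (a : O κ) => (w : O κ)) hyz
        exact Subtype.ext (Subtype.ext h3))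
  rw [h1] at h2
  exact absurd (hm a a.2) (not_lt.2 h2)

lemma exists_cofinal {m : O κ} (hm : ∀ a < m, crd a < crd m) (hinf : ℵ₀ ≤ crd m)
    (hreg : ¬ (crd m).IsRegular) :
    ∃ a < m, ∃ g : O κ → O κ, (∀ c < a, g c < m) ∧ ∀ d < m, ∃ c < a, d ≤ g c := by
  classical
  have h1 : (crd m).ord.cof < crd m := by
    by_contra hcon
    exact hreg ⟨hinf, not_lt.1 hcon⟩
  rw [← type_Iio_eq hm, Ordinal.cof_type] at h1
  obtain ⟨s, hs, hcard⟩ := Order.exists_cof_eq (α := Iio m)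
  rw [← hcard] at h1
  obtain ⟨b, hb⟩ := exists_crd (κ := κ) (h1.trans (crd_lt m))
  have hbm : b < m := lt_of_crd (by rw [hb]; exact h1)
  have h2 : #(Iio b) = #s := hb
  obtain ⟨e⟩ := Cardinal.eq.1 h2
  let g : O κ → O κ := fun c => if hc : c ∈ Iio b then ((e ⟨c, hc⟩ : Iio m) : O κ) else m
  have hg : ∀ c : Iio b, g c = ((e c : Iio m) : O κ) := fun c => dif_pos c.2
  refine ⟨b, hbm, g, ?_, ?_⟩
  · intro c hc
    have h3 := hg ⟨c, hc⟩
    change g c = _ at h3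
    rw [h3]
    exact (e ⟨c, hc⟩ : Iio m).2
  · intro d hd
    obtain ⟨y, hy, hdy⟩ := hs ⟨d, hd⟩
    refine ⟨(e.symm ⟨y, hy⟩ : Iio b), (e.symm ⟨y, hy⟩).2, ?_⟩
    rw [hg, e.apply_symm_apply]
    exact hdy

end H4

open H4

/-- Task H4. -/
lemma NF.kx_regular (h : NF κ U) : ∀ᶠ x in (U : Filter (X κ)), (crd (kx x)).IsRegular := by
  classical
  by_contra hcon
  obtain ⟨b₀, hb₀⟩ := exists_crd (κ := κ) h.unc
  have hinf : ∀ᶠ x in (U : Filter (X κ)), ℵ₀ ≤ crd (kx x) := by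
    filter_upwards [h.unb b₀] with x hx
    rw [← hb₀]
    exact crd_mono hx.le
  let P : X κ → O κ × (O κ → O κ) → Prop := fun x q =>
    q.1 < kx x ∧ (∀ c < q.1, q.2 c < kx x) ∧ ∀ d < kx x, ∃ c < q.1, d ≤ q.2 c
  have h1 : ∀ᶠ x in (U : Filter (X κ)), ∃ q, P x q := by
    filter_upwards [not_ev hcon, hinf, h.kx_init] with x hx hx' hx''
    obtain ⟨a, ha, g, hg1, hg2⟩ := exists_cofinal hx'' hx' hx
    exact ⟨(a, g), ha, hg1, hg2⟩
  have h2 : ∀ x : X κ, ∃ q, (∃ q, P x q) → P x q := by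
    intro x
    by_cases hx : ∃ q, P x q
    · obtain ⟨z, hz⟩ := hx
      exact ⟨z, fun _ => hz⟩
    · exact ⟨(b₀, fun _ => b₀), fun hx' => absurd hx' hx⟩
  choose q hq using h2
  have h3 : ∀ᶠ x in (U : Filter (X κ)), P x (q x) := by
    filter_upwards [h1] with x hx
    exact hq x hx
  obtain ⟨a, ha⟩ := h.regr (fun x => (q x).1) (h3.mono fun x hx => hx.1)
  have h4 : ∀ c : Iio a, ∃ e : O κ, ∀ᶠ x in (U : Filter (X κ)), (q x).2 c = e := by
    intro c
    refine h.regr (fun x => (q x).2 c) ?_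
    filter_upwards [h3, ha] with x hx hx'
    exact hx.2.1 c (by rw [hx']; exact c.2)
  choose e he using h4
  have h5 : ∀ᶠ x in (U : Filter (X κ)), ∀ c : Iio a, x ∈ {x : X κ | (q x).2 c = e c} :=
    h.complete _ (crd_lt a) he
  obtain ⟨x₁, hx₁, hx₁', hx₁''⟩ := (h3.and (ha.and h5)).exists
  obtain ⟨x, ⟨hx, hx'⟩, hx'', hlt⟩ := ((h3.and ha).and (h5.and (h.unb (kx x₁)))).exists
  obtain ⟨c, hc, hle⟩ := hx.2.2 _ hlt
  have hca : c < a := by
    rw [← hx']
    exact hc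
  have e1 : (q x).2 c = e ⟨c, hca⟩ := hx'' ⟨c, hca⟩
  have e2 : (q x₁).2 c = e ⟨c, hca⟩ := hx₁'' ⟨c, hca⟩
  have h6 : (q x₁).2 c < kx x₁ := hx₁.2.1 c (by rw [hx₁']; exact hca)
  rw [e1, ← e2] at hle
  exact absurd h6 (not_lt.2 hle)

/-- Task H4. -/
lemma NF.kx_inacc (h : NF κ U) : ∀ᶠ x in (U : Filter (X κ)), (crd (kx x)).IsInaccessible := by
  obtain ⟨b₀, hb₀⟩ := exists_crd (κ := κ) (c := succ ℵ₀)
    ((h.inacc).isSuccLimit.succ_lt h.unc)
  filter_upwards [h.kx_regular, h.kx_strong, h.unb b₀] with x h1 h2 h3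
  refine ⟨?_, h1.2, ?_⟩
  · refine lt_of_lt_of_le (lt_succ ℵ₀) ?_
    rw [← hb₀]
    exact crd_mono h3.le
  · intro c hc
    obtain ⟨a, ha⟩ := exists_crd (κ := κ) (hc.trans (crd_lt (kx x)))
    rw [← ha]
    exact h2 a (lt_of_crd (by rw [ha]; exact hc))
--END

end Hyp

end Pool.UL
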