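import Pool.Agent.Lib.MP_9fc97b_ul.LcDef
import Pool.Agent.Lib.MP_9fc97b_ul.CL2

/-!
# UL, row LC1
-/

set_option autoImplicit false
set_option linter.unusedSectionVars false

open Cardinal Set Order

namespace Pool.UL

variable {Ω : Type} [LinearOrder Ω] [WellFoundedLT Ω] {X Θ : Type} [D : PE Ω X Θ]

/-- Row LC1: existence of closed sets.  From `exists_closure` with `τ = th m`,
`L = {r // LowV (m :: s) r}` (`mk_low_le`), `P r c' a' = ∃ r' hr hv, ...`. -/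
theorem exists_KClosed (R : Cond Ω X Θ → Ω → Prop) {m' m : Ω} {s : List Ω} (hm : m ∈ D.W)
    (v : Up Ω X Θ) : ∃ K : Set Ω, #K ≤ 2 ^ th X Θ m ∧ KClosed R m' m s v K := by
  have : Nonempty Ω := ⟨m⟩
  have hinf : ℵ₀ ≤ th X Θ m := (aleph0_lt_th hm).le
  have hL : #{r : List (PO Ω) | LowV X Θ (m :: s) r} ≤ 2 ^ th X Θ m :=
    mk_low_le.trans (Cardinal.cantor _).le
  obtain ⟨K, hK, hcl⟩ := exists_closure (Ω := Ω) (L := {r : List (PO Ω) | LowV X Θ (m :: s) r})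
    hinf hL (fun l c' a' => ∃ (r' : List (PO Ω)) (hr : LowV X Θ (m' :: m :: s) (c' :: r'))
      (hv : v.V m'), List.Forall₂ Sub l.1 r' ∧ a' < PE.T X Θ m' ∧
      Pos (fun q => R q a') (mkC m' (m :: s) (c' :: r') v hr hv))
  refine ⟨K, hK, ?_⟩
  intro r hr c₀ hc₀ hz C hC hCc hex
  obtain ⟨c', r', a', hr', hv, h1, h2, h3, h4, h5⟩ := hex
  obtain ⟨c'', a'', -, g2, g3, g4, g5, r'', hr'', hv'', g6, g7, g8⟩ :=
    hcl ⟨r, hr⟩ c₀ hc₀ hz C hC hCc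
      ⟨c', a', hr'.2.2.1, h2, h3, r', hr', hv, h1, h4, h5⟩
  exact ⟨c'', r'', a'', hr'', hv'', g6, g2, g3, g7, g8, g4, g5⟩

end Pool.UL
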