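import Pool.Agent.Lib.MP_9fc97b_ul.LcDef
import Pool.Agent.Lib.MP_9fc97b_ul.CB3

/-!
# UL, row LC2
-/

set_option autoImplicit false
set_option linter.unusedSectionVars false

open Cardinal Set Order

namespace Pool.UL

variable {Ω : Type} [LinearOrder Ω] [WellFoundedLT Ω] {X Θ : Type} [D : PE Ω X Θ]

/-- Row LC2: fusion.  There is a direct extension `p.withU u hu` of `p` such that for every
reachable `q₀` with at least two points, every `a < T q₀.m` and every lower part `r` of `q₀.t`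
there is a larger lower part `r'` such that `⟨q₀.m, q₀.s, r', q₀.u⟩` decides `R · n a` where
`n + 2` is the number of points.  From `multi` and `V3_meet` (`A = Iio (T m)`,
`Dec a = {q | Dcd (fun q' => R q' (q.len - 2) a) q}`). -/
theorem lc_fusion (R : Cond Ω X Θ → ℕ → Ω → Prop)
    (hR : ∀ q q' n a, q' ≤ q → R q n a → R q' n a) (p : Cond Ω X Θ) :
    ∃ (u : Up Ω X Θ) (hu : u.V p.m), u.Le p.m p.u ∧
      ∀ q₀, (p.withU u hu).Reach q₀ → ∀ a < PE.T X Θ q₀.m, ∀ r : List (PO Ω),
        LowV X Θ (q₀.m :: q₀.s) r → ∃ (r' : List (PO Ω)) (hr' : LowV X Θ (q₀.m :: q₀.s) r'),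
          List.Forall₂ Sub r r' ∧
          Dcd (fun q => R q (q₀.len - 2) a) (mkC q₀.m q₀.s r' q₀.u hr' q₀.up) :=
  CB3_gen (fun N q a => R q (N - 2) a) (fun N a q q' hq h => hR q q' (N - 2) a hq h) p

end Pool.UL
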