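import Pool.Agent.Lib.MP_9fc97b_ul.LcDef

/-!
# UL, row LC3
-/

set_option autoImplicit false
set_option linter.unusedSectionVars false

open Cardinal Set Order

namespace Pool.UL

variable {Ω : Type} [LinearOrder Ω] [WellFoundedLT Ω] {X Θ : Type} [D : PE Ω X Θ]

/-- Row LC3: the small set `S x`. -/
theorem exists_S (q₁ : Cond Ω X Θ) (K : Cond Ω X Θ → Set Ω)
    (hK : ∀ q₀ : Cond Ω X Θ, ∀ m s, q₀.s = m :: s → #(K q₀) ≤ 2 ^ th X Θ m) :
    ∃ S : X → Set Ω, (∀ᶠ x in (D.U : Filter X), #(S x) ≤ crd (D.kx x)) ∧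
      ∀ (q : Cond Ω X Θ) (x : X) (hx : q.u.OK q.m x), q₁.Reach q → K (q.step x hx) ⊆ S x := by
  classical
  refine ⟨fun x => ⋃ q : {q : Cond Ω X Θ | q₁.Reach q ∧ q.m < D.kx x},
    {a | ∃ hx : q.1.u.OK q.1.m x, a ∈ K (q.1.step x hx)}, ?_, ?_⟩
  · filter_upwards [D.kx_W] with x hx
    refine mk_iUnion_le (aleph0_lt_crd hx).le (Cond.mk_reach_lt q₁ hx) _ ?_
    rintro ⟨q, hq, hm⟩
    by_cases hok : q.u.OK q.m x
    · have h1 := hK (q.step x hok) q.m q.s rfl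
      have h2 : {a | ∃ hx : q.u.OK q.m x, a ∈ K (q.step x hx)} ⊆ K (q.step x hok) := by
        rintro a ⟨h3, h4⟩
        exact h4
      refine (mk_le_mk_of_subset h2).trans (h1.trans ?_)
      exact ((D.W_inacc _ hx).isStrongLimit.isStrongPrelimit (th_lt_crd hx hm)).le
    · have h2 : {a | ∃ hx : q.u.OK q.m x, a ∈ K (q.step x hx)} ⊆ (∅ : Set Ω) := by
        rintro a ⟨h3, h4⟩
        exact absurd h3 hok
      refine (mk_le_mk_of_subset h2).trans ?_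
      rw [Cardinal.mk_eq_zero]
      exact zero_le
  · intro q x hx hr a ha
    exact mem_iUnion.2 ⟨⟨q, hr, hx.lt⟩, hx, ha⟩

end Pool.UL
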