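import Pool.Agent.Lib.MP_9fc97b_ul.LcDef

/-!
# UL, row LC4
-/

set_option autoImplicit false
set_option linter.unusedSectionVars false

open Cardinal Set Order

namespace Pool.UL

variable {Ω : Type} [LinearOrder Ω] [WellFoundedLT Ω] {X Θ : Type} [D : PE Ω X Θ]

namespace Cond

/-- The invariant for one coordinate and the set `B`. -/
lemma LC4_reach {N : ℕ} {η : Θ} {p q : Cond Ω X Θ} (h : p.Reach q) (hI : p.InvC N η) :
    q.InvC N η ∧ q.u.A = p.u.A := by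
  induction h with
  | refl => exact ⟨hI, rfl⟩
  | step q x hx _ ih => exact ⟨(ih.1.step hx).1, ih.2⟩

end Cond

/-- Row LC4: activate the coordinate `η` and shrink the measure one set to `B`. -/
theorem exists_active (q₁ q₂ : Cond Ω X Θ) (h : q₂ ≤ q₁) (η : Θ) {B : Set X} (hB : B ∈ D.U) :
    ∃ q' ≤ q₂, ∃ N, ∀ n ≥ N, ∀ q'' ≤ q', n < q''.len →
      ∃ (qa : Cond Ω X Θ) (x : X) (hx : qa.u.OK qa.m x), q₁.Reach qa ∧ qa.len = n ∧ x ∈ B ∧
        q'' ≤ qa.step x hx ∧ q''.Rt η n (D.h η x) := by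
  obtain ⟨qr, hqr, hd⟩ := Cond.exists_reach h
  obtain ⟨q₃, h3, ρ, σ, h4⟩ := q₂.dense_crd η
  have f1 := q₃.up.ff _ _ _ h4
  obtain ⟨K₁, hK₁⟩ := f1.bddAbove
  let u : Up Ω X Θ := ⟨q₃.u.c, q₃.u.f, q₃.u.A ∩ (B ∩ {x | ρ < D.kx x}), q₃.u.F⟩
  have hu : u.V q₃.m := ⟨q₃.up.hc, q₃.up.ff, q₃.up.fs,
    Filter.inter_mem q₃.up.hA (Filter.inter_mem hB (D.unb ρ)), q₃.up.hF⟩
  have hle : u.Le q₃.m q₃.u := ⟨Sub.refl _, fun α ρ σ e => ⟨ρ, e, rfl⟩, fun x hx _ => hx.1,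
    fun _ _ _ => Sub.refl _⟩
  have hDle : (q₃.withU u hu).Dle q₃ := Cond.withU_dle hu hle
  have hI : (q₃.withU u hu).InvC (max q₃.len (K₁ + 1)) η := by
    refine ⟨ρ, σ, h4, ?_, ?_⟩
    · intro x hx _
      exact hx.2.2
    · intro k hk _
      by_contra hcon
      have h6 := hK₁ (show k ∈ {n | σ n ≠ none} from hcon)
      simp only [max_le_iff] at hk
      omega
  refine ⟨q₃.withU u hu, hDle.le.trans h3.le, max q₃.len (K₁ + 1), fun n hn q'' hq'' hlt => ?_⟩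
  have hn' : q₃.len ≤ n ∧ K₁ + 1 ≤ n := max_le_iff.1 hn
  have hlen : (q₃.withU u hu).len = q₃.len := hDle.len
  obtain ⟨q₀, hq₀, hl, hle'⟩ := Cond.exists_reach_len hq'' (k := n + 1) (by omega) hlt
  cases hq₀ with
  | refl => omega
  | step qa' x hx' hra =>
    have hla : qa'.len = n := by
      rw [Cond.RA_len_step] at hl
      omega
    obtain ⟨hI', hA'⟩ := Cond.LC4_reach hra hI
    have hD2 : (q₃.withU u hu).Dle qr := (hDle.trans h3).trans hd
    obtain ⟨qa, hqa, hda⟩ := hD2.reach hra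
    refine ⟨qa, x, hda.OK hx', Cond.RA_trans hqr hqa, ?_, ?_, ?_, ?_⟩
    · rw [← hda.len, hla]
    · have h7 := hx'.A
      rw [hA'] at h7
      exact h7.2.1
    · exact hle'.trans (hda.step hx').le
    · have h8 := (hI'.step hx').2 (by rw [hla]; exact hn)
      rw [hla] at h8
      exact h8.mono hle'

end Pool.UL
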