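import Pool.Agent.Lib.MP_9fc97b_ul.LcDef

/-!
# UL, row LC5
-/

set_option autoImplicit false
set_option linter.unusedSectionVars false

open Cardinal Set Order

namespace Pool.UL

variable {Ω : Type} [LinearOrder Ω] [WellFoundedLT Ω] {X Θ : Type} [D : PE Ω X Θ]

/-- The tail of the lower part of an extension is a lower part. -/
private lemma LC5_rtake {p q : Cond Ω X Θ} (h : q ≤ p) : LowV X Θ p.t (q.r.rtake p.len) :=
  V3_rtake h

private lemma LC5_cons {m : Ω} {s : List Ω} {ρ : List (PO Ω)} (h : LowV X Θ (m :: s) ρ) :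
    ∃ c r, ρ = c :: r := by
  cases ρ with
  | nil => exact absurd h (by simp [LowV])
  | cons c r => exact ⟨c, r, rfl⟩

/-- Row LC5: the amalgamation.  `q₀` has the points `... , m, m'`; the last lower entry of the tail
of `q''` is `c''`, and `ξ ∉ K`. -/
theorem lc_amalg (R : Cond Ω X Θ → Ω → Prop) (hR : ∀ a, Mono (fun q => R q a))
    {q₀ : Cond Ω X Θ} {m : Ω} {s : List Ω} (hs : q₀.s = m :: s) {K : Set Ω}
    (hK : KClosed R q₀.m m s q₀.u K)
    (hdec : ∀ a < PE.T X Θ q₀.m, ∀ r : List (PO Ω),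
      LowV X Θ (q₀.m :: q₀.s) r → ∃ (r' : List (PO Ω)) (hr' : LowV X Θ (q₀.m :: q₀.s) r'),
          List.Forall₂ Sub r r' ∧ Dcd (fun q => R q a) (mkC q₀.m q₀.s r' q₀.u hr' q₀.up))
    {q'' : Cond Ω X Θ} (hq : q'' ≤ q₀) {ξ : Ω} (hξ : ξ < PE.T X Θ q₀.m) (hξK : ξ ∉ K)
    (hL : ∀ C : Set Ω, #C ≤ th X Θ m → ∃ q₄ ≤ q'', ∃ a ∉ C, a < PE.T X Θ q₀.m ∧ R q₄ a)
    (b : Bool) :
    ∃ q₇ ≤ q'', ∃ a, R q₇ a ∧ q₇.cc (q₀.len - 1) (ξ, a) = some b := by
  classical
  have hlow'' : LowV X Θ (q₀.m :: q₀.s) (q''.r.rtake q₀.len) := LC5_rtake hq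
  obtain ⟨c'', r'', e''⟩ := LC5_cons hlow''
  have hsub0 : List.Forall₂ Sub q₀.r (c'' :: r'') := by
    rw [← e'']
    exact V2_ext_r hq
  rw [e''] at hlow''
  obtain ⟨k1, k2, k3, k4, k5⟩ := hlow''
  have hthm : lth X Θ q₀.s = th X Θ m := by rw [hs]; rfl
  rw [hthm] at k3
  have hmW : m ∈ D.W := by
    rw [hs] at k5
    exact k5.mem_W
  have hinf : ℵ₀ ≤ th X Θ m := (aleph0_lt_th hmW).le
  -- the set C
  let C : Set Ω := {a | c'' (ξ, a) ≠ none}
  have hC : #C ≤ th X Θ m := by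
    refine le_trans ?_ k3
    refine mk_le_of_injective (f := fun a : C => (⟨(ξ, a.1), a.2⟩ : pdom c'')) ?_
    rintro ⟨a, ha⟩ ⟨a', ha'⟩ haa
    simp only [Subtype.mk.injEq, Prod.mk.injEq, true_and] at haa
    exact Subtype.ext haa
  obtain ⟨q₄, hq₄, a₄, ha₄C, ha₄T, hRa₄⟩ := hL C hC
  have hq₄0 : q₄ ≤ q₀ := hq₄.trans hq
  have hlow4 : LowV X Θ (q₀.m :: q₀.s) (q₄.r.rtake q₀.len) := LC5_rtake hq₄0
  have hsub4 : List.Forall₂ Sub (c'' :: r'') (q₄.r.rtake q₀.len) := by
    have h1 := V2_fa_rt (V2_ext_r hq₄) q₀.len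
    rw [e''] at h1
    rwa [V2_rt_rt (Cond.len_le hq)] at h1
  obtain ⟨ρ₅, hρ₅, h45, hdcd⟩ := hdec a₄ ha₄T _ hlow4
  obtain ⟨c₅, r₅, e5⟩ := LC5_cons hρ₅
  subst e5
  have hpos5 : Pos (fun q => R q a₄) (mkC q₀.m q₀.s (c₅ :: r₅) q₀.u hρ₅ q₀.up) := by
    obtain ⟨q', h1, h2⟩ := Cond.exists_common (p := q₀) (q := q₄) (r := c₅ :: r₅) hρ₅
      (V2_fs_trans (V2_fs_trans hsub0 hsub4) h45) hq₄0 h45
    exact hdcd.pos h2 (hR a₄ _ _ h1 hRa₄)
  have hsub5 := V2_fs_trans hsub4 h45
  rw [List.forall₂_cons] at hsub5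
  -- the restriction of c''
  let c₀ : PO Ω := fun z => if z.1 ∈ K ∧ z.2 ∈ K then c'' z else none
  have hc₀ : Sub c₀ c'' := by
    intro z v hz
    change (if z.1 ∈ K ∧ z.2 ∈ K then c'' z else none) = some v at hz
    split_ifs at hz with h
    exact hz
  have hc₀co : IsCo (th X Θ m) c₀ := by
    refine le_trans (mk_le_mk_of_subset ?_) k3
    intro z hz hz'
    change (if z.1 ∈ K ∧ z.2 ∈ K then c'' z else none) ≠ none at hz
    rw [hz'] at hz
    simp at hz
  have k5' : LowV X Θ (m :: s) r'' := by rw [← hs]; exact k5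
  have hρ₅' : LowV X Θ (q₀.m :: m :: s) (c₅ :: r₅) := by rw [← hs]; exact hρ₅
  obtain ⟨c', r', a', hr, hv, h1, h2, h3, h4, h5, h6, h7⟩ := hK r'' k5' c₀ hc₀co (by
      intro z hz
      change (if z.1 ∈ K ∧ z.2 ∈ K then c'' z else none) ≠ none at hz
      by_contra h
      rw [if_neg h] at hz
      exact hz rfl) (C ∩ K) inter_subset_right
      ((mk_le_mk_of_subset inter_subset_left).trans hC)
      ⟨c₅, r₅, a₄, hρ₅', q₀.up, hsub5.2, hc₀.trans hsub5.1, fun h => ha₄C h.1, ha₄T, by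
        have key : ∀ (t : List Ω) (ht : q₀.s = t) (h' : LowV X Θ (q₀.m :: t) (c₅ :: r₅)),
            Pos (fun q => R q a₄) (mkC q₀.m t (c₅ :: r₅) q₀.u h' q₀.up) := by
          rintro t rfl h'
          exact hpos5
        exact key _ hs hρ₅'⟩
  have ha'C : c'' (ξ, a') = none := by
    by_contra h
    exact h3 ⟨h, h6⟩
  -- the amalgamated entry
  let cs : PO Ω := fun z => if z = (ξ, a') then some b else
    match c'' z with
    | some v => some v
    | none => c' z
  have hcs1 : Sub c'' cs := by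
    intro z v hz
    have hne : z ≠ (ξ, a') := by
      rintro rfl
      rw [ha'C] at hz
      exact absurd hz (by simp)
    change (if z = (ξ, a') then some b else
      match c'' z with
      | some v => some v
      | none => c' z) = some v
    rw [if_neg hne, hz]
  have hcs2 : Sub c' cs := by
    intro z v hz
    have hzK := h7 z (by rw [hz]; simp)
    have hne : z ≠ (ξ, a') := by
      rintro rfl
      exact hξK hzK.1
    change (if z = (ξ, a') then some b else
      match c'' z with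
      | some v => some v
      | none => c' z) = some v
    rw [if_neg hne]
    cases hcz : c'' z with
    | none => exact hz
    | some v' =>
      have h8 : c₀ z = some v' := by
        change (if z.1 ∈ K ∧ z.2 ∈ K then c'' z else none) = some v'
        rw [if_pos hzK, hcz]
      have h9 := h2 z v' h8
      rw [hz] at h9
      exact h9.symm
  have hcs3 : ∀ z v, cs z = some v → z = (ξ, a') ∨ c'' z ≠ none ∨ c' z ≠ none := by
    intro z v hz
    by_cases h8 : z = (ξ, a')
    · exact Or.inl h8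
    · right
      change (if z = (ξ, a') then some b else
        match c'' z with
        | some v => some v
        | none => c' z) = some v at hz
      rw [if_neg h8] at hz
      cases hcz : c'' z with
      | some v' => exact Or.inl (by simp)
      | none =>
        rw [hcz] at hz
        right
        change c' z = some v at hz
        rw [hz]
        simp
  have hcsco : IsCo (th X Θ m) cs := by
    have h8 : pdom cs ⊆ insert (ξ, a') (pdom c'' ∪ pdom c') := by
      intro z hz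
      obtain ⟨v, hv⟩ := Option.ne_none_iff_exists'.1 hz
      rcases hcs3 z v hv with h | h | h
      · exact Or.inl h
      · exact Or.inr (Or.inl h)
      · exact Or.inr (Or.inr h)
    have h9 : IsCo (th X Θ m) c' := hr.2.2.1
    refine (mk_le_mk_of_subset h8).trans (mk_insert_le.trans ?_)
    refine add_le_of_le hinf ?_ (one_le_aleph0.trans hinf)
    exact (mk_union_le _ _).trans (add_le_of_le hinf k3 h9)
  have hcsbel : Bel cs (PE.T X Θ q₀.m) := by
    intro z v hz
    rcases hcs3 z v hz with h | h | h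
    · rw [h]
      exact ⟨hξ, h4⟩
    · obtain ⟨v', hv'⟩ := Option.ne_none_iff_exists'.1 h
      exact k4 z v' hv'
    · obtain ⟨v', hv'⟩ := Option.ne_none_iff_exists'.1 h
      exact hr.2.2.2.1 z v' hv'
  have hr2 : LowV X Θ q₀.s r' := by rw [hs]; exact hr.2.2.2.2
  have hlows : LowV X Θ (q₀.m :: q₀.s) (cs :: r') :=
    ⟨k1, k2, by rw [hthm]; exact hcsco, hcsbel, hr2⟩
  have hsubs : List.Forall₂ Sub (c'' :: r'') (cs :: r') := List.Forall₂.cons hcs1 h1
  obtain ⟨q₆, h8, h9⟩ := Cond.exists_common (p := q₀) (q := q'') (r := cs :: r') hlows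
    (V2_fs_trans hsub0 hsubs) hq (by rw [e'']; exact hsubs)
  have hlow' : LowV X Θ (q₀.m :: q₀.s) (c' :: r') := by rw [hs]; exact hr
  have hpos' : Pos (fun q => R q a') (mkC q₀.m q₀.s (c' :: r') q₀.u hlow' q₀.up) := by
    have key : ∀ (t : List Ω) (ht : t = q₀.s) (h' : LowV X Θ (q₀.m :: t) (c' :: r'))
        (h'' : LowV X Θ (q₀.m :: q₀.s) (c' :: r')),
        Pos (fun q => R q a') (mkC q₀.m t (c' :: r') q₀.u h' q₀.up) →
        Pos (fun q => R q a') (mkC q₀.m q₀.s (c' :: r') q₀.u h'' q₀.up) := by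
      rintro t rfl h' h'' h
      exact h
    exact key _ hs.symm hr hlow' h5
  have h10 : q₆ ≤ mkC q₀.m q₀.s (c' :: r') q₀.u hlow' q₀.up := by
    refine h9.trans (Cond.Dle.le ⟨rfl, rfl, ?_, Up.Le.refl _ _⟩)
    exact List.Forall₂.cons hcs2 (V2_fs_refl _)
  obtain ⟨q₇, h11, h12⟩ := hpos' q₆ h10
  refine ⟨q₇, h11.trans h8, a', h12, ?_⟩
  have h13 := h11.trans h9
  have h14 : r'.length = q₀.len - 1 := by
    have h15 : r'.length = q₀.s.length := V2_len _ hr2
    have h16 : q₀.len = q₀.s.length + 1 := rfl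
    omega
  have h17 := Cond.cc_sub h13 (k := q₀.len - 1) (by
    change q₀.len - 1 < q₀.len
    have h16 : q₀.len = q₀.s.length + 1 := rfl
    omega)
  have h18 : (⟨q₀.m, q₀.s, cs :: r', q₀.u, hlows, q₀.up⟩ : Cond Ω X Θ).cc (q₀.len - 1) = cs := by
    rw [← h14]
    exact Cond.cc_eq (r₁ := []) rfl
  refine h17 _ _ ?_
  erw [h18]
  change (if (ξ, a') = (ξ, a') then some b else _) = some b
  rw [if_pos rfl]

end Pool.UL
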