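import Pool.Agent.Lib.MP_9fc97b_ul.CX4
import Pool.Agent.Lib.MP_9fc97b_ul.LC1
import Pool.Agent.Lib.MP_9fc97b_ul.LC2
import Pool.Agent.Lib.MP_9fc97b_ul.LC3
import Pool.Agent.Lib.MP_9fc97b_ul.LC4
import Pool.Agent.Lib.MP_9fc97b_ul.LC5

/-!
# UL, row LC6
-/

set_option autoImplicit false
set_option linter.unusedSectionVars false

open Cardinal Set Order

namespace Pool.UL

variable {Ω : Type} [LinearOrder Ω] [WellFoundedLT Ω] {X Θ : Type} [D : PE Ω X Θ]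

/-- The closed sets for all the conditions. -/
lemma lc_K (R : Cond Ω X Θ → ℕ → Ω → Prop) (q₀ : Cond Ω X Θ) :
    ∃ K : Set Ω, ∀ m s, q₀.s = m :: s → #K ≤ 2 ^ th X Θ m ∧
      KClosed (fun q a => R q (q₀.len - 2) a) q₀.m m s q₀.u K := by
  rcases hs : q₀.s with _ | ⟨m, s⟩
  · exact ⟨∅, fun m s h => by simp at h⟩
  · have hm : m ∈ D.W := by
      have h1 := q₀.low
      rw [hs] at h1
      rcases hr : q₀.r with _ | ⟨c, r⟩
      · rw [hr] at h1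
        exact absurd h1 (by simp [LowV])
      · rw [hr] at h1
        exact h1.2.2.2.2.mem_W
    obtain ⟨K, hK1, hK2⟩ := exists_KClosed (fun q a => R q (q₀.len - 2) a) (m' := q₀.m) (s := s)
      hm q₀.u
    refine ⟨K, fun m' s' h => ?_⟩
    cases h
    exact ⟨hK1, hK2⟩

/-- Row LC6: THE LEMMA (LC). -/
theorem lc_main (R : Cond Ω X Θ → ℕ → Ω → Prop)
    (hR : ∀ q q' n a, q' ≤ q → R q n a → R q' n a) (p : Cond Ω X Θ) :
    ∃ q ≤ p, ∃ Y : Set Θ, #Y ≤ D.κ ∧ ∀ η ∉ Y, ∀ q₂ ≤ q, ∃ q' ≤ q₂, ∃ N, ∀ n ≥ N,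
      ∀ q'' ≤ q', n + 1 < q''.len →
      (∀ C : Set Ω, #C ≤ th X Θ (q''.pt n) →
        ∃ q₄ ≤ q'', ∃ a ∉ C, a < PE.T X Θ (q''.pt (n + 1)) ∧ R q₄ n a) →
      ∀ b : Bool, ∃ q₇ ≤ q'', ∃ a ξ, R q₇ n a ∧ q₇.Rt η (n + 1) ξ ∧
        q₇.cc (n + 1) (ξ, a) = some b := by
  obtain ⟨u, hu, hule, hfus⟩ := lc_fusion R hR p
  choose K hK using lc_K R
  obtain ⟨S, hS1, hS2⟩ := exists_S (p.withU u hu) K (fun q₀ m s h => (hK q₀ m s h).1)
  refine ⟨p.withU u hu, (Cond.withU_dle hu hule).le,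
    {s | ∀ᶠ x in (D.U : Filter X), D.h s x ∈ S x}, sep S hS1, ?_⟩
  intro η hη q₂ hq₂
  have hB : {x | D.h η x ∉ S x} ∈ D.U := by
    have h1 : ¬ ∀ᶠ x in (D.U : Filter X), D.h η x ∈ S x := hη
    exact Ultrafilter.eventually_not.2 h1
  obtain ⟨q', hq', N, hN⟩ := exists_active (p.withU u hu) q₂ hq₂ η hB
  refine ⟨q', hq', N, fun n hn q'' hq'' hlen hL b => ?_⟩
  obtain ⟨qa, x, hx, hqa, hqal, hxB, hle, hRt⟩ := hN (n + 1) (by omega) q'' hq'' hlen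
  have hq₀l : (qa.step x hx).len = n + 2 := by rw [Cond.RA_len_step, hqal]
  have hptn1 : q''.pt (n + 1) = (qa.step x hx).m := by
    rw [Cond.pt_of_le hle (by omega)]
    have h1 := Cond.pt_last (qa.step x hx)
    rw [hq₀l] at h1
    exact h1
  have hptn : q''.pt n = qa.m := by
    have hle2 : q'' ≤ qa := hle.trans (Cond.step_le qa x hx)
    rw [Cond.pt_of_le hle2 (by omega)]
    have h1 := Cond.pt_last qa
    rw [hqal] at h1
    exact h1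
  rw [hptn, hptn1] at hL
  have hreach : (p.withU u hu).Reach (qa.step x hx) := .step qa x hx hqa
  have hKc := (hK (qa.step x hx) qa.m qa.s rfl).2
  rw [hq₀l] at hKc
  have hfus' := hfus _ hreach
  rw [hq₀l] at hfus'
  have hξ : D.h η x < PE.T X Θ (qa.step x hx).m := D.h_lt x hx.W η
  have hξK : D.h η x ∉ K (qa.step x hx) := fun h => hxB (hS2 qa x hx hqa h)
  obtain ⟨q₇, hq₇, a, hRa, hcc⟩ := lc_amalg (fun q a => R q n a)
    (fun a q q' h h' => hR q q' n a h h') (q₀ := qa.step x hx) (m := qa.m) (s := qa.s) rfl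
    hKc hfus' hle hξ hξK hL b
  refine ⟨q₇, hq₇, a, D.h η x, hRa, hRt.mono hq₇, ?_⟩
  rw [hq₀l] at hcc
  exact hcc

end Pool.UL
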