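import Pool.Agent.Lib.MP_9fc97b_ul.Cover

/-!
# UL: the proof of (LC), part 1
-/

set_option autoImplicit false
set_option linter.unusedSectionVars false

open Cardinal Set Order

namespace Pool.UL

variable {Ω : Type} [LinearOrder Ω] [WellFoundedLT Ω] {X Θ : Type} [D : PE Ω X Θ]

/-- The condition with a given lower part. -/
def mkC (m : Ω) (s : List Ω) (r : List (PO Ω)) (v : Up Ω X Θ) (hr : LowV X Θ (m :: s) r)
    (hv : v.V m) : Cond Ω X Θ := ⟨m, s, r, v, hr, hv⟩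

/-- `K` is closed for `R` at the upper part `v` above the stem `m' :: m :: s`: witnesses for `R`
which extend a part `c₀` inside `K × K` of the last lower entry can be found inside `K`. -/
def KClosed (R : Cond Ω X Θ → Ω → Prop) (m' m : Ω) (s : List Ω) (v : Up Ω X Θ) (K : Set Ω) : Prop :=
  ∀ (r : List (PO Ω)), LowV X Θ (m :: s) r → ∀ c₀ : PO Ω, IsCo (th X Θ m) c₀ →
    (∀ z, c₀ z ≠ none → z.1 ∈ K ∧ z.2 ∈ K) → ∀ C ⊆ K, #C ≤ th X Θ m →
    (∃ (c' : PO Ω) (r' : List (PO Ω)) (a' : Ω) (hr : LowV X Θ (m' :: m :: s) (c' :: r'))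
      (hv : v.V m'), List.Forall₂ Sub r r' ∧ Sub c₀ c' ∧ a' ∉ C ∧ a' < PE.T X Θ m' ∧
      Pos (fun q => R q a') (mkC m' (m :: s) (c' :: r') v hr hv)) →
    ∃ (c' : PO Ω) (r' : List (PO Ω)) (a' : Ω) (hr : LowV X Θ (m' :: m :: s) (c' :: r'))
      (hv : v.V m'), List.Forall₂ Sub r r' ∧ Sub c₀ c' ∧ a' ∉ C ∧ a' < PE.T X Θ m' ∧
      Pos (fun q => R q a') (mkC m' (m :: s) (c' :: r') v hr hv) ∧ a' ∈ K ∧
      (∀ z, c' z ≠ none → z.1 ∈ K ∧ z.2 ∈ K)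

end Pool.UL
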